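import Pool.Agent.H41.SK.Def

/-! # SK.Base : the system over the top element (about 50 lines)

`E x = {0}`; `res x 0 = 0`; the only element of `U` is `m`; `fib E m m 0 = 1`. -/

namespace H41.SK

open H41.NU

theorem res_zero {L : Type} [Lattice L] (x : L) : res x (fun _ => 0) = (fun _ => 0) := by
  classical
  funext z
  unfold res
  split_ifs <;> rfl

theorem fib_zero {L : Type} [Lattice L] (p q : L) :
    fib (fun _ => {(fun _ => 0 : L → ℕ)}) p q (fun _ => 0) = 1 := by
  unfold fib
  have : {e : L → ℕ | e ∈ ({(fun _ => 0 : L → ℕ)} : Set (L → ℕ)) ∧ res q e = fun _ => 0} =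
      {(fun _ => 0 : L → ℕ)} := by
    ext e
    simp only [Set.mem_ofPred_eq, Set.mem_singleton_iff]
    constructor
    · exact fun h => h.1
    · intro h
      refine ⟨h, ?_⟩
      rw [h]
      exact res_zero q
  rw [this, Set.ncard_singleton]

theorem sys_top {L : Type} [Lattice L] {m : L} {r : L → ℝ} {t ε : ℝ} (hε : 0 ≤ ε) :
    Sys {m} r t ε (fun _ => {(fun _ => 0 : L → ℕ)}) := by
  refine ⟨?_, ?_, ?_, ?_, ?_, ?_, ?_⟩
  · intro x _
    exact Set.finite_singleton _
  · intro x _
    exact Set.singleton_nonempty _
  · intro x _ e he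
    rw [Set.mem_singleton_iff] at he
    rw [he]
    exact res_zero x
  · intro x _ y _ _ e he
    rw [Set.mem_singleton_iff] at he
    rw [he, Set.mem_singleton_iff]
    exact res_zero y
  · intro x _ y _ _ e he e' he' _ _
    rw [Set.mem_singleton_iff] at he he'
    rw [he, he']
  · intro p hp q hq _ g hg
    rw [Set.mem_singleton_iff] at hp hq hg
    subst hp hq
    rw [hg, fib_zero]
    have : t * (r q - r q) - ε ≤ 0 := by
      rw [sub_self, mul_zero]
      linarith
    simpa using this
  · intro p hp q hq _ g hg
    rw [Set.mem_singleton_iff] at hp hq hg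
    subst hp hq
    rw [hg, fib_zero]
    have : 0 ≤ t * (r q - r q) + ε := by
      rw [sub_self, mul_zero]
      linarith
    simpa using Real.one_le_exp this

end H41.SK
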