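import Pool.Agent.H41.SK.Def

/-! # SK.BlkB : basic facts on blocks (about 100 lines)

`mono`: from `inf`. `pos`: the class of a point contains the point. `ratio`: the `f y`-class of `w` is a union of `f x`-classes, all with `n x` elements (see `ncard_eq` and `cnt_uniform` in `Pool/Agent/H41/NU/Uni.lean`). `cover`: a set `A` is contained in the union of the `f x`-classes which it meets. `modular`: by
`ratio` the number of `f y`-classes in an `f (x ⊔ y)`-class is `n (x ⊔ y) / n y`, the number of `f (x ⊓ y)`-classes in an `f x`-class is `n x / n (x ⊓ y)`; both are equal: `f (x ⊓ y) = f x ⊓ f y` on an `f x`-class and every `f y`-class of an `f (x ⊔ y)`-class meets the `f x`-class of a given point of it (`sup`), see `hval` in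
`good_uniform` in the same file -/

namespace H41.SK

open H41.NU

/-- a set which is a union of classes of `S`, all with `k` elements -/
private theorem ncard_eq {V : Type} [Finite V] (S : Setoid V) (A : Set V) (k : ℕ)
    (hA : ∀ v ∈ A, ∀ w, S v w → w ∈ A) (hk : ∀ v, {w | S v w}.ncard = k) : A.ncard = ncl S A * k := by
  classical
  have := Fintype.ofFinite V
  have : Finite (Quotient S) := Quotient.finite _
  have := Fintype.ofFinite (Quotient S)
  have e : A.toFinset.card = ∑ c ∈ (Quotient.mk S '' A).toFinset, (A.toFinset.filter (fun v => Quotient.mk S v = c)).card := by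
    apply Finset.card_eq_sum_card_fiberwise
    intro v hv
    rw [Finset.mem_coe, Set.mem_toFinset] at hv
    simp only [Set.coe_toFinset]
    exact ⟨v, hv, rfl⟩
  rw [Set.ncard_eq_toFinset_card' A, e]
  unfold ncl
  rw [Set.ncard_eq_toFinset_card']
  rw [Finset.sum_const_nat (m := k)]
  intro c hc
  rw [Set.mem_toFinset] at hc
  obtain ⟨v, hv, rfl⟩ := hc
  rw [← hk v, Set.ncard_eq_toFinset_card']
  congr 1
  ext w
  simp only [Finset.mem_filter, Set.mem_toFinset, Set.mem_ofPred_eq]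
  constructor
  · rintro ⟨_, h⟩
    exact Setoid.symm' _ (Quotient.exact h)
  · intro h
    exact ⟨hA v hv w h, Quotient.sound (Setoid.symm' _ h)⟩

theorem Blk.mono {L W : Type} [Lattice L] {a b : L} {f : L → Setoid W} {n : L → ℕ} (h : Blk a b f n) {x y : L}
    (ax : a ≤ x) (xy : x ≤ y) (yb : y ≤ b) : f x ≤ f y := by
  have h1 := h.inf x y ax (xy.trans yb) (ax.trans xy) yb
  rw [inf_eq_left.2 xy] at h1
  rw [h1]
  exact inf_le_right

theorem Blk.pos {L W : Type} [Lattice L] [Finite W] [Nonempty W] {a b : L} {f : L → Setoid W} {n : L → ℕ}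
    (h : Blk a b f n) {x : L} (ax : a ≤ x) (xb : x ≤ b) : 0 < n x := by
  obtain ⟨w⟩ := id ‹Nonempty W›
  rw [← h.card x ax xb w, Set.ncard_pos]
  exact ⟨w, Setoid.refl' _ _⟩

theorem Blk.ratio {L W : Type} [Lattice L] [Finite W] {a b : L} {f : L → Setoid W} {n : L → ℕ}
    (h : Blk a b f n) {x y : L} (ax : a ≤ x) (xy : x ≤ y) (yb : y ≤ b) (w : W) :
    ncl (f x) {u | f y w u} * n x = n y := by
  rw [← h.card y (ax.trans xy) yb w]
  refine (ncard_eq (f x) {u | f y w u} (n x) ?_ (h.card x ax (xy.trans yb))).symm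
  intro v hv u hu
  exact Setoid.trans' _ hv (h.mono ax xy yb hu)

theorem Blk.cover {L W : Type} [Lattice L] [Finite W] {a b : L} {f : L → Setoid W} {n : L → ℕ}
    (h : Blk a b f n) {x : L} (ax : a ≤ x) (xb : x ≤ b) (A : Set W) : A.ncard ≤ ncl (f x) A * n x := by
  have h1 : ncl (f x) {u | ∃ v ∈ A, f x v u} ≤ ncl (f x) A := by
    refine ncl_le_rel (f x) (f x) _ A (fun u v => f x v u) ?_ ?_
    · rintro u ⟨v, hv, hu⟩
      exact ⟨v, hv, hu⟩
    · intro u _ u' _ v _ v' _ h2 h3 h4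
      exact Setoid.trans' _ (Setoid.symm' _ h2) (Setoid.trans' _ h4 h3)
  have h2 := ncard_eq (f x) {u | ∃ v ∈ A, f x v u} (n x) (by
    rintro v ⟨u, hu, huv⟩ w hvw
    exact ⟨u, hu, Setoid.trans' _ huv hvw⟩) (h.card x ax xb)
  calc A.ncard ≤ {u | ∃ v ∈ A, f x v u}.ncard :=
        Set.ncard_le_ncard (fun v hv => ⟨v, hv, Setoid.refl' _ _⟩) (Set.toFinite _)
    _ = ncl (f x) {u | ∃ v ∈ A, f x v u} * n x := h2
    _ ≤ ncl (f x) A * n x := Nat.mul_le_mul_right _ h1

theorem Blk.modular {L W : Type} [Lattice L] [Finite W] [Nonempty W] {a b : L} {f : L → Setoid W} {n : L → ℕ}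
    (h : Blk a b f n) {x y : L} (ax : a ≤ x) (xb : x ≤ b) (ay : a ≤ y) (yb : y ≤ b) :
    n (x ⊔ y) * n (x ⊓ y) = n x * n y := by
  obtain ⟨w0⟩ := id ‹Nonempty W›
  have hsb : x ⊔ y ≤ b := sup_le xb yb
  have hai : a ≤ x ⊓ y := le_inf ax ay
  have h1 : cnt (f y) (f (x ⊔ y)) w0 * n y = n (x ⊔ y) := h.ratio ay le_sup_right hsb w0
  have h2 : cnt (f (x ⊓ y)) (f x) w0 * n (x ⊓ y) = n x := h.ratio hai inf_le_left xb w0
  have h3 : cnt (f y) (f (x ⊔ y)) w0 = cnt (f (x ⊓ y)) (f x) w0 := by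
    have e1 : cnt (f (x ⊓ y)) (f x) w0 = cnt (f y) (f x) w0 := by
      rw [inf_comm, h.inf y x ay yb ax xb, cnt_inf]
    rw [e1]
    apply le_antisymm
    · apply ncl_le_rel (ρ := fun v w => f y v w)
      · intro v hv
        obtain ⟨u, h4, h5⟩ := h.sup x y ax xb ay yb w0 v hv
        exact ⟨u, h4, Setoid.symm' _ h5⟩
      · intro v _ v' _ w _ w' _ h4 h5 h6
        exact Setoid.trans' _ h4 (Setoid.trans' _ h6 (Setoid.symm' _ h5))
    · exact ncl_mono _ (fun u hu => h.mono ax le_sup_left hsb hu)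
  rw [h3] at h1
  rw [← h1, ← h2]
  ring

end H41.SK
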