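import Pool.Agent.H41.SK.Def

/-! # SK.InjE : elements of the system are determined by their labels (about 40 lines)

The set of `x` in `[u, b]` with `res x g = res x g'` contains `b` and is closed under meets (`Sys.inf`, applied to the elements `res (x ⊓ y) g`, `res (x ⊓ y) g'` of `E (x ⊓ y)`; everything above `u` is in `U` as `c ∈ U`). Let `x` be the least such element (`L` finite). If `u < x` then `exists_J` (`Pool/Agent/H41/NU/Irr.lean`) with
`a := u`, `x := u`, `y := x` gives `z ∈ Jf u b` with `u ≤ z.1`, not `x ≤ z.1`, `x ≤ z.2`; by `mem_Jf` `z ∈ JT C b`. `res z.2 g = res z.2 g'` since `x ≤ z.2`, the labels of `res z.1 g` and `res z.1 g'` are equal, so `res z.1 g = res z.1 g'` (`laminj`), so `x ≤ z.1`, a contradiction. So `x = u` and `g = res u g = res u g' = g'` (`supp`). -/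

namespace H41.SK

open H41.NU

theorem injE {L W : Type} [Lattice L] [Finite L] {U : Set L} {a b : L} {C : Set L} {r : L → ℝ} {t ε : ℝ}
    {E : L → Set (L → ℕ)} {f : L → Setoid W} {n : L → ℕ} {lam : L × L → (L → ℕ) → ℕ} {mu : L × L → W → ℕ}
    (hc : Ctx U a b C) (hS : Sys U r t ε E) (hl : Lab E C b f n lam mu) {c u : L} (cC : c ∈ C) (cu : c ≤ u)
    (ub : u ≤ b) {g g' : L → ℕ} (hg : g ∈ E u) (hg' : g' ∈ E u) (h1 : res b g = res b g')
    (h2 : ∀ z ∈ JT C b, u ≤ z.1 → lam z (res z.1 g) = lam z (res z.1 g')) : g = g' := by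
  have hcU : c ∈ U := (hc.CU c cC).1
  have huU : u ∈ U := hc.up c hcU u cu
  have hUp : ∀ x, u ≤ x → x ∈ U := fun x hx => hc.up u huU x hx
  have hne : ({x : L | u ≤ x ∧ x ≤ b ∧ res x g = res x g'}).Nonempty := ⟨b, ub, le_rfl, h1⟩
  obtain ⟨x, hx⟩ := (Set.toFinite {x : L | u ≤ x ∧ x ≤ b ∧ res x g = res x g'}).exists_minimal hne
  have hx1 : u ≤ x ∧ x ≤ b ∧ res x g = res x g' := hx.1
  have key : ∀ y, u ≤ y → y ≤ b → res y g = res y g' → x ≤ y := by
    intro y huy hyb hy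
    have hux : u ≤ x ⊓ y := le_inf hx1.1 huy
    have h3 : res (x ⊓ y) g = res (x ⊓ y) g' := by
      refine hS.inf x (hUp x hx1.1) y (hUp y huy) (hUp _ hux) (res (x ⊓ y) g)
        (hS.map u huU _ (hUp _ hux) hux g hg) (res (x ⊓ y) g') (hS.map u huU _ (hUp _ hux) hux g' hg') ?_ ?_
      · rw [res_res inf_le_left, res_res inf_le_left]
        exact hx1.2.2
      · rw [res_res inf_le_right, res_res inf_le_right]
        exact hy
    have h4 : x ⊓ y ∈ {x : L | u ≤ x ∧ x ≤ b ∧ res x g = res x g'} := ⟨hux, le_trans inf_le_left hx1.2.1, h3⟩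
    exact le_trans (hx.2 h4 inf_le_left) inf_le_right
  rcases hx1.1.eq_or_lt with h | h
  · have h5 := hx1.2.2
    rw [← h, hS.supp u huU g hg, hS.supp u huU g' hg'] at h5
    exact h5
  · exfalso
    obtain ⟨z, hz, hz1, hz2, hz3⟩ := exists_J (a := u) (b := b) le_rfl h hx1.2.1
    rw [mem_Jf] at hz
    obtain ⟨_, hzz, hzb, hzm⟩ := hz
    have hzJ : z ∈ JT C b := ⟨⟨c, cC, le_trans cu hz1⟩, hzz, hzb, hzm⟩
    have hz1U : z.1 ∈ U := hUp _ hz1
    refine hz2 (key z.1 hz1 (le_trans hzz.le hzb) ?_)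
    refine hl.laminj z hzJ (res z.1 g) (hS.map u huU _ hz1U hz1 g hg) (res z.1 g')
      (hS.map u huU _ hz1U hz1 g' hg') ?_ (h2 z hzJ hz1)
    rw [res_res hzz.le, res_res hzz.le]
    exact res_mono hz3 hx1.2.2

end H41.SK
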