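import Pool.Agent.H41.SK.SurW
import Pool.Agent.H41.SK.InjE

/-! # SK.DFull : the sets `Dset` are full (about 90 lines)

Write `D = Dset E C b lam mu S c`. (1) `D` is a union of `f c`-classes: `mu_eq` with `u = c`. (2) Let `w ∈ D` with `g ∈ E c`, `c ≤ y ≤ b`. For every `g' ∈ E c` with `res y g' = res y g` (there are `fib E c y (res y g) ≥ exp (t (r y - r c) - ε)` of them) there is by `surW` (`u = c`, `k z = lam z (res z.1 g')`, `lamlt`) a point `w'` with these labels;
`w' ∈ D` as `res b g' = res b (res y g') = res b g = S`, and `f y w w'` by `injW` (`u = y`: for `y ≤ z.1` both labels are the label of `res z.1 (res y g)`). Different `g'` give points in different classes of `f c`: if `f c w' w''` the labels are equal (`mu_eq`) and `g' = g''` by `injE`. So `ncl (f c) {u | u ∈ D ∧ f y w u} ≥ exp (t (r y - r c) - ε)`, and as this set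
is a union of `f c`-classes it has at least `exp (t (r y - r c) - ε) n c ≥ exp (-(ε + ε1)) n y ≥ (1 - δ) n y` points (`Near`). -/

namespace H41.SK

open H41.NU

private theorem ncard_union {W : Type} [Finite W] (R : Setoid W) (A : Set W) (m : ℕ)
    (h1 : ∀ v ∈ A, ∀ w, R v w → w ∈ A) (h2 : ∀ v ∈ A, {u | R v u}.ncard = m) : ncl R A * m ≤ A.ncard := by
  have key : ∀ B : Set W, ncl (⊥ : Setoid W) B = B.ncard := by
    intro B
    unfold ncl
    apply Set.ncard_image_of_injective
    intro x y hxy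
    exact Quotient.exact hxy
  have h3 : (ncl R A : ℝ) * m ≤ ncl (⊥ : Setoid W) A := by
    apply ncl_fiber_ge (bot_le : (⊥ : Setoid W) ≤ R) A A (le_refl _) m (Nat.cast_nonneg _)
    intro v hv
    rw [key]
    have h4 : A ∩ {w | R v w} = {u | R v u} := by
      ext u
      constructor
      · exact fun h => h.2
      · exact fun h => ⟨h1 v hv u h, h⟩
    rw [h4, h2 v hv]
  rw [key] at h3
  exact_mod_cast h3

theorem dset_full {L W : Type} [Lattice L] [Finite L] [Finite W] [Nonempty W] {U : Set L} {a b : L} {C : Set L}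
    {r : L → ℝ} {t ε ε1 : ℝ} {E : L → Set (L → ℕ)} {f : L → Setoid W} {n : L → ℕ}
    {lam : L × L → (L → ℕ) → ℕ} {mu : L × L → W → ℕ} {cd : L → W → ℕ}
    (d : Data U a b C r t ε E f n lam mu cd) (hn : Near a b r t ε1 n) {δ : ℝ}
    (hδ : 1 - δ ≤ Real.exp (-(ε + ε1))) (S : L → ℕ) {c : L} (cC : c ∈ C) :
    FullD b f n c (Dset E C b lam mu S c) δ := by
  have hc := d.ctx
  have hB := d.blk
  have hl := d.lab
  have hS := d.sys
  obtain ⟨cU, ac, cb⟩ := hc.CU c cC
  have hun : ∀ v ∈ Dset E C b lam mu S c, ∀ w, f c v w → w ∈ Dset E C b lam mu S c := by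
    rintro v ⟨g, hg, hgS, hgl⟩ w hvw
    refine ⟨g, hg, hgS, ?_⟩
    intro z hz cz
    rw [hgl z hz cz]
    exact mu_eq hc hB hl ac hvw hz cz
  refine ⟨hun, ?_⟩
  intro y cy yb w hw
  obtain ⟨g, hg, hgS, hgl⟩ := hw
  have ay : a ≤ y := ac.trans cy
  have yU : y ∈ U := hc.up c cU y cy
  set A : Set W := {u | u ∈ Dset E C b lam mu S c ∧ f y w u} with hA
  have hex : ∀ g' ∈ {e | e ∈ E c ∧ res y e = res y g}, ∃ w' ∈ A, ∀ z ∈ JT C b, c ≤ z.1 →
      mu z w' = lam z (res z.1 g') := by
    rintro g' ⟨hg', hgy⟩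
    obtain ⟨w', hw'⟩ := surW hc hB d.lt hl cC (le_refl c) cb (fun z => lam z (res z.1 g'))
      (fun z hz _ => hl.lamlt z hz _)
    refine ⟨w', ⟨⟨g', hg', ?_, ?_⟩, ?_⟩, hw'⟩
    · rw [← hgS, ← res_res yb g', hgy, res_res yb]
    · intro z hz cz
      exact (hw' z hz cz).symm
    · apply injW hc hB hl cC cy yb
      intro z hz yz
      rw [← hgl z hz (cy.trans yz), hw' z hz (cy.trans yz), ← res_res yz g, ← hgy, res_res yz g']
  choose! w' hw'A hw'l using hex
  have h1 : fib E c y (res y g) ≤ ncl (f c) A := by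
    unfold fib ncl
    refine Set.ncard_le_ncard_of_injOn (fun g' => Quotient.mk (f c) (w' g')) ?_ ?_ (Set.toFinite _)
    · intro g' hg'
      exact ⟨w' g', hw'A g' hg', rfl⟩
    · intro g' hg' g'' hg'' h
      have h3 : f c (w' g') (w' g'') := Quotient.exact h
      apply injE hc hS hl cC (le_refl c) cb hg'.1 hg''.1
      · rw [← res_res yb g', ← res_res yb g'', hg'.2, hg''.2]
      · intro z hz cz
        rw [← hw'l g' hg' z hz cz, ← hw'l g'' hg'' z hz cz]
        exact mu_eq hc hB hl ac h3 hz cz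
  have h2 : ncl (f c) A * n c ≤ A.ncard := by
    apply ncard_union
    · rintro v ⟨hvD, hvy⟩ u hvu
      exact ⟨hun v hvD u hvu, (f y).trans' hvy (hB.mono ac cy yb hvu)⟩
    · intro v _
      exact hB.card c ac cb v
  have h3 := hS.lo c cU y yU cy (res y g) (hS.map c cU y yU cy g hg)
  have h4 := (hn c y ac cy yb).2
  have h5 : (fib E c y (res y g) : ℝ) * n c ≤ A.ncard := by
    have h6 : fib E c y (res y g) * n c ≤ A.ncard := (Nat.mul_le_mul_right _ h1).trans h2
    exact_mod_cast h6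
  have h6 : (0 : ℝ) ≤ n c := Nat.cast_nonneg _
  have h7 : (0 : ℝ) ≤ n y := Nat.cast_nonneg _
  calc (1 - δ) * n y ≤ Real.exp (-(ε + ε1)) * n y := mul_le_mul_of_nonneg_right hδ h7
    _ ≤ Real.exp (-(ε + ε1)) * (Real.exp (t * (r y - r c) + ε1) * n c) :=
        mul_le_mul_of_nonneg_left h4 (Real.exp_pos _).le
    _ = Real.exp (t * (r y - r c) - ε) * n c := by
        rw [← mul_assoc, ← Real.exp_add]
        congr 2
        ring
    _ ≤ fib E c y (res y g) * n c := mul_le_mul_of_nonneg_right h3 h6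
    _ ≤ A.ncard := h5

end H41.SK
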