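import Pool.Agent.H41.NU.Cnt
import Pool.Agent.H41.NU.Irr

/-! # SK.Def : definitions for the skeleton theorem (MP_9a066f_al)

A system over an up-set `U` of a finite lattice `L` is a functor from `U` to finite sets: the elements of `E x` are
functions `e : L → ℕ` which vanish outside the filter of `x`, the map `E x → E y` for `x ≤ y` is the restriction
`res y`. -/

namespace H41.SK

open H41.NU

open Classical in
/-- restriction of a function to the filter of `x` -/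
noncomputable def res {L : Type} [Lattice L] (x : L) (e : L → ℕ) : L → ℕ := fun z => if x ≤ z then e z else 0

/-- number of elements of `E p` above the element `g` of `E q` -/
noncomputable def fib {L : Type} [Lattice L] (E : L → Set (L → ℕ)) (p q : L) (g : L → ℕ) : ℕ :=
  {e | e ∈ E p ∧ res q e = g}.ncard

/-- nearly uniform system over the up-set `U` -/
structure Sys {L : Type} [Lattice L] (U : Set L) (r : L → ℝ) (t ε : ℝ) (E : L → Set (L → ℕ)) : Prop where
  fin : ∀ x ∈ U, (E x).Finite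
  ne : ∀ x ∈ U, (E x).Nonempty
  supp : ∀ x ∈ U, ∀ e ∈ E x, res x e = e
  map : ∀ x ∈ U, ∀ y ∈ U, x ≤ y → ∀ e ∈ E x, res y e ∈ E y
  inf : ∀ x ∈ U, ∀ y ∈ U, x ⊓ y ∈ U → ∀ e ∈ E (x ⊓ y), ∀ e' ∈ E (x ⊓ y),
    res x e = res x e' → res y e = res y e' → e = e'
  lo : ∀ p ∈ U, ∀ q ∈ U, p ≤ q → ∀ g ∈ E q, Real.exp (t * (r q - r p) - ε) ≤ fib E p q g
  hi : ∀ p ∈ U, ∀ q ∈ U, p ≤ q → ∀ g ∈ E q, (fib E p q g : ℝ) ≤ Real.exp (t * (r q - r p) + ε)

/-- uniform type 1 representation `f` of the interval `[a, b]` on `W`, `f b` has one class, the classes of `f x`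
have `n x` elements -/
structure Blk {L W : Type} [Lattice L] (a b : L) (f : L → Setoid W) (n : L → ℕ) : Prop where
  inf : ∀ x y, a ≤ x → x ≤ b → a ≤ y → y ≤ b → f (x ⊓ y) = f x ⊓ f y
  sup : ∀ x y, a ≤ x → x ≤ b → a ≤ y → y ≤ b → ∀ s u, f (x ⊔ y) s u → ∃ v, f x s v ∧ f y v u
  card : ∀ x, a ≤ x → x ≤ b → ∀ w, {u | f x w u}.ncard = n x
  top : ∀ v w, f b v w

/-- the sizes of the classes are about `exp (t r)` -/
def Near {L : Type} [Lattice L] (a b : L) (r : L → ℝ) (t ε : ℝ) (n : L → ℕ) : Prop :=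
  ∀ x y, a ≤ x → x ≤ y → y ≤ b → Real.exp (t * (r y - r x) - ε) * n x ≤ n y ∧
    (n y : ℝ) ≤ Real.exp (t * (r y - r x) + ε) * n x

/-- the interval `[a, b]` has uniform type 1 representations at all large scales `t` which satisfy finitely many
approximate integrality conditions -/
def Exact {L : Type} [Lattice L] (a b : L) (r : L → ℝ) : Prop :=
  ∃ F : Finset ℝ, ∀ ε : ℝ, 0 < ε → ∃ η : ℝ, 0 < η ∧ ∀ t : ℝ, 1 / η ≤ t →
    (∀ β ∈ F, ∃ n : ℤ, |t * β - n| ≤ η) →
    ∃ (W : Type) (_ : Finite W) (_ : Nonempty W) (f : L → Setoid W) (n : L → ℕ), Blk a b f n ∧ Near a b r t ε n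

/-- `D` is a union of classes of `f z` and contains almost all of every class of `f y`, `y ≥ z`, which it meets -/
def FullD {L W : Type} [Lattice L] (b : L) (f : L → Setoid W) (n : L → ℕ) (z : L) (D : Set W) (δ : ℝ) : Prop :=
  (∀ v ∈ D, ∀ w, f z v w → w ∈ D) ∧
    ∀ y, z ≤ y → y ≤ b → ∀ w ∈ D, (1 - δ) * n y ≤ ({u | u ∈ D ∧ f y w u}.ncard : ℝ)

/-- the situation in which a block `[a, b]` is added to the up-set `U`; `C` is the set of the bottoms of the overlaps
(with `b`) -/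
structure Ctx {L : Type} [Lattice L] (U : Set L) (a b : L) (C : Set L) : Prop where
  up : ∀ x ∈ U, ∀ y, x ≤ y → y ∈ U
  ab : a ≤ b
  bC : b ∈ C
  CU : ∀ c ∈ C, c ∈ U ∧ a ≤ c ∧ c ≤ b
  sup : ∀ c ∈ C, ∀ c' ∈ C, c ⊔ c' ∈ C
  cov : ∀ z ∈ U, a ≤ z → ∃ c ∈ C, c ≤ z
  cov2 : ∀ z, a ≤ z → z ≤ b ∨ z ∈ U
  dist : ∀ c ∈ C, ∀ x y z, c ≤ x → x ≤ b → c ≤ y → y ≤ b → c ≤ z → z ≤ b → x ⊓ (y ⊔ z) = (x ⊓ y) ⊔ (x ⊓ z)

/-- pairs `(m, m')`, `m` meet irreducible in the overlap and `m'` its unique cover there -/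
def JT {L : Type} [Lattice L] (C : Set L) (b : L) : Set (L × L) :=
  {z | (∃ c ∈ C, c ≤ z.1) ∧ z.1 < z.2 ∧ z.2 ≤ b ∧ ∀ y, y ≤ b → z.1 < y → z.2 ≤ y}

/-- labels of the classes of the system and of the block in the overlap -/
structure Lab {L W : Type} [Lattice L] (E : L → Set (L → ℕ)) (C : Set L) (b : L) (f : L → Setoid W) (n : L → ℕ)
    (lam : L × L → (L → ℕ) → ℕ) (mu : L × L → W → ℕ) : Prop where
  lamlt : ∀ z ∈ JT C b, ∀ e, lam z e * n z.1 < n z.2
  laminj : ∀ z ∈ JT C b, ∀ e ∈ E z.1, ∀ e' ∈ E z.1, res z.2 e = res z.2 e' → lam z e = lam z e' → e = e'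
  mult : ∀ z ∈ JT C b, ∀ w, mu z w * n z.1 < n z.2
  muinj : ∀ z ∈ JT C b, ∀ v w, f z.2 v w → (f z.1 v w ↔ mu z v = mu z w)

/-- the points `w` of the block which correspond to elements of `E c` above `S` -/
def Dset {L W : Type} [Lattice L] (E : L → Set (L → ℕ)) (C : Set L) (b : L) (lam : L × L → (L → ℕ) → ℕ)
    (mu : L × L → W → ℕ) (S : L → ℕ) (c : L) : Set W :=
  {w | ∃ g ∈ E c, res b g = S ∧ ∀ z ∈ JT C b, c ≤ z.1 → lam z (res z.1 g) = mu z w}

/-- `e` is a new element with the point `w` of the block -/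
def As {L W : Type} [Lattice L] (U : Set L) (a b : L) (C : Set L) (E : L → Set (L → ℕ))
    (lam : L × L → (L → ℕ) → ℕ) (mu : L × L → W → ℕ) (cd : L → W → ℕ) (Th : Set W) (e : L → ℕ) (w : W) : Prop :=
  w ∈ Th ∧ (∀ z ∈ U, a ≤ z → res z e ∈ E z) ∧ (∀ z ∈ JT C b, lam z (res z.1 e) = mu z w) ∧
    ∀ x, a ≤ x → x ≤ b → x ∉ U → e x = cd x w

open Classical in
/-- the new system -/
noncomputable def newE {L W : Type} [Lattice L] (U : Set L) (a b : L) (C : Set L) (E : L → Set (L → ℕ))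
    (lam : L × L → (L → ℕ) → ℕ) (mu : L × L → W → ℕ) (cd : L → W → ℕ) (Th : Set W) (x : L) : Set (L → ℕ) :=
  if x ∈ U then E x else {e | ∃ e₁ w, res a e₁ = e₁ ∧ As U a b C E lam mu cd Th e₁ w ∧ res x e₁ = e}

/-- everything which is known when a block is added -/
structure Data {L W : Type} [Lattice L] (U : Set L) (a b : L) (C : Set L) (r : L → ℝ) (t ε : ℝ)
    (E : L → Set (L → ℕ)) (f : L → Setoid W) (n : L → ℕ) (lam : L × L → (L → ℕ) → ℕ) (mu : L × L → W → ℕ)
    (cd : L → W → ℕ) : Prop where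
  ctx : Ctx U a b C
  sys : Sys U r t ε E
  blk : Blk a b f n
  lt : ∀ x y, a ≤ x → x < y → y ≤ b → n x < n y
  lab : Lab E C b f n lam mu
  cd : ∀ x, a ≤ x → x ≤ b → ∀ v w, f x v w ↔ cd x v = cd x w

theorem res_iff {L : Type} [Lattice L] {x : L} {e e' : L → ℕ} : res x e = res x e' ↔ ∀ z, x ≤ z → e z = e' z := by
  classical
  constructor
  · intro h z hz
    have h1 := congrFun h z
    unfold res at h1
    rwa [if_pos hz, if_pos hz] at h1
  · intro h
    funext z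
    unfold res
    by_cases hz : x ≤ z
    · rw [if_pos hz, if_pos hz, h z hz]
    · rw [if_neg hz, if_neg hz]

theorem res_of_le {L : Type} [Lattice L] {x z : L} (e : L → ℕ) (h : x ≤ z) : res x e z = e z := by
  classical
  unfold res
  rw [if_pos h]

theorem res_res {L : Type} [Lattice L] {x y : L} (h : x ≤ y) (e : L → ℕ) : res y (res x e) = res y e := by
  rw [res_iff]
  intro z hz
  exact res_of_le e (h.trans hz)

theorem res_mono {L : Type} [Lattice L] {x y : L} (h : x ≤ y) {e e' : L → ℕ} (he : res x e = res x e') :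
    res y e = res y e' := by
  rw [res_iff] at he ⊢
  intro z hz
  exact he z (h.trans hz)

theorem res_idem {L : Type} [Lattice L] (x : L) (e : L → ℕ) : res x (res x e) = res x e := res_res le_rfl e

theorem newE_of_mem {L W : Type} [Lattice L] {U : Set L} {a b : L} {C : Set L} {E : L → Set (L → ℕ)}
    {lam : L × L → (L → ℕ) → ℕ} {mu : L × L → W → ℕ} {cd : L → W → ℕ} {Th : Set W} {x : L} (h : x ∈ U) :
    newE U a b C E lam mu cd Th x = E x := by
  unfold newE
  rw [if_pos h]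

theorem newE_of_not {L W : Type} [Lattice L] {U : Set L} {a b : L} {C : Set L} {E : L → Set (L → ℕ)}
    {lam : L × L → (L → ℕ) → ℕ} {mu : L × L → W → ℕ} {cd : L → W → ℕ} {Th : Set W} {x : L} (h : x ∉ U) :
    newE U a b C E lam mu cd Th x =
      {e | ∃ e₁ w, res a e₁ = e₁ ∧ As U a b C E lam mu cd Th e₁ w ∧ res x e₁ = e} := by
  unfold newE
  rw [if_neg h]

end H41.SK
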