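import Pool.Agent.H41.SK.BlkB
import Pool.Agent.H41.NU.Dir

/-! # SK.ExG : products of powers of uniform representations (about 150 lines)

`F = {1 / c i}`. Given `ε > 0` let `M ≥ |Real.log (n i z) - Real.log (n i y)|` for all `i`, `y`, `z`, `c i ≥ c₀ > 0`, and choose `η ≤ 1` with `k M η ≤ ε`. For `t ≥ 1 / η` with `|t / c i - z i| ≤ η` (`z i ≥ 0` since `t / c i ≥ 0` and `η < 1`), `j i : ℕ` with `(j i : ℤ) = z i` put `Wt = ∀ i, Fin (j i) → W i`, `ft x v w` iff `∀ i l, f i x (v i l) (w i l)`,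
`nt x = ∏ i, n i x ^ j i` (number of elements of a product of classes, see `good_uniform` in `Pool/Agent/H41/NU/Uni.lean` for one factor). `Blk`: `inf`, `sup` (choose the intermediate point in every coordinate), `card`, `top` coordinatewise. `Near`: for `x ≤ y` `log (nt y) - log (nt x) = ∑ i, j i (log (n i y) - log (n i x))`, and
`t (r y - r x) = ∑ i, (t / c i) (log (n i y) - log (n i x))`, the difference is at most `k η M ≤ ε`. -/

namespace H41.SK

open H41.NU

theorem exact_of_blks {L ι : Type} [Lattice L] [Finite L] [Fintype ι] {a b : L} {r : L → ℝ} (W : ι → Type)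
    [∀ i, Finite (W i)] [∀ i, Nonempty (W i)] (f : ∀ i, L → Setoid (W i)) (n : ι → L → ℕ) (c : ι → ℝ)
    (hc : ∀ i, 0 < c i) (hB : ∀ i, Blk a b (f i) (n i))
    (hr : ∀ x y, a ≤ x → x ≤ y → y ≤ b → r y - r x = ∑ i, (Real.log (n i y) - Real.log (n i x)) / c i) :
    Exact a b r := by
  classical
  refine ⟨Finset.univ.image (fun i => 1 / c i), ?_⟩
  intro ε hε
  -- a bound for the differences
  obtain ⟨M, hM0, hM⟩ : ∃ M : ℝ, 0 < M ∧ ∀ i, ∀ p q : L, |Real.log (n i q) - Real.log (n i p)| ≤ M := by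
    by_cases hL : Nonempty (ι × L)
    · obtain ⟨i0, p0⟩ := id hL
      haveI : Nonempty (ι × L × L) := ⟨(i0, p0, p0)⟩
      obtain ⟨z, hz⟩ := Finite.exists_max
        (fun z : ι × L × L => |Real.log (n z.1 z.2.2) - Real.log (n z.1 z.2.1)|)
      refine ⟨|Real.log (n z.1 z.2.2) - Real.log (n z.1 z.2.1)| + 1, by positivity, ?_⟩
      intro i p q
      exact (hz (i, p, q)).trans (by linarith)
    · exact ⟨1, one_pos, fun i p => absurd ⟨(i, p)⟩ hL⟩
  have hK : (0 : ℝ) < (Fintype.card ι : ℝ) * M + 1 := by positivity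
  have hη : (0 : ℝ) < min (1 / 2) (ε / ((Fintype.card ι : ℝ) * M + 1)) :=
    lt_min (by norm_num) (div_pos hε hK)
  refine ⟨min (1 / 2) (ε / ((Fintype.card ι : ℝ) * M + 1)), hη, ?_⟩
  intro t ht hF
  have ht0 : 0 < t := lt_of_lt_of_le (by positivity) ht
  have hz : ∀ i, ∃ j : ℕ, |t * (1 / c i) - j| ≤ min (1 / 2) (ε / ((Fintype.card ι : ℝ) * M + 1)) := by
    intro i
    obtain ⟨z, hz⟩ := hF (1 / c i) (Finset.mem_image_of_mem _ (Finset.mem_univ i))
    have h0 : 0 ≤ t * (1 / c i) := mul_nonneg ht0.le (div_nonneg zero_le_one (hc i).le)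
    have h1 : |t * (1 / c i) - z| ≤ 1 / 2 := hz.trans (min_le_left _ _)
    have h2 : (-1 : ℝ) < z := by
      have := (abs_le.1 h1).2
      linarith
    have h3 : (-1 : ℤ) < z := by exact_mod_cast h2
    obtain ⟨j, rfl⟩ := Int.eq_ofNat_of_zero_le (by omega : 0 ≤ z)
    exact ⟨j, by simpa using hz⟩
  choose j hj using hz
  -- the representation
  let Wt : Type := ∀ p : (Σ i, Fin (j i)), W p.1
  let ft : L → Setoid Wt := fun x =>
    { r := fun v w => ∀ p, f p.1 x (v p) (w p)
      iseqv := ⟨fun v p => Setoid.refl' _ _, fun h p => Setoid.symm' _ (h p),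
        fun h1 h2 p => Setoid.trans' _ (h1 p) (h2 p)⟩ }
  have hft : ∀ x (v w : Wt), ft x v w ↔ ∀ p, f p.1 x (v p) (w p) := fun x v w => Iff.rfl
  have hfin : Finite Wt := inferInstanceAs (Finite (∀ p : (Σ i, Fin (j i)), W p.1))
  have hne : Nonempty Wt := inferInstanceAs (Nonempty (∀ p : (Σ i, Fin (j i)), W p.1))
  refine ⟨Wt, hfin, hne, ft, fun x => ∏ i, n i x ^ j i, ?_, ?_⟩
  · refine ⟨?_, ?_, ?_, ?_⟩
    · intro x y ax xb ay yb
      ext v w
      rw [hft]
      constructor
      · intro h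
        refine ⟨fun p => ?_, fun p => ?_⟩
        · have h1 := h p
          rw [(hB p.1).inf x y ax xb ay yb] at h1
          exact h1.1
        · have h1 := h p
          rw [(hB p.1).inf x y ax xb ay yb] at h1
          exact h1.2
      · rintro ⟨h1, h2⟩ p
        rw [(hB p.1).inf x y ax xb ay yb]
        exact ⟨h1 p, h2 p⟩
    · intro x y ax xb ay yb s u h
      have h1 : ∀ p, ∃ v, f p.1 x (s p) v ∧ f p.1 y v (u p) := fun p =>
        (hB p.1).sup x y ax xb ay yb (s p) (u p) (h p)
      choose v hv using h1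
      exact ⟨v, fun p => (hv p).1, fun p => (hv p).2⟩
    · intro x ax xb w
      have e : {u | ft x w u} = Set.pi Set.univ (fun p : (Σ i, Fin (j i)) => {u | f p.1 x (w p) u}) := by
        ext u
        constructor
        · intro h p _
          exact h p
        · intro h p
          exact h p (Set.mem_univ _)
      have e2 : (Set.pi Set.univ (fun p : (Σ i, Fin (j i)) => {u | f p.1 x (w p) u})).ncard
          = ∏ p : (Σ i, Fin (j i)), {u | f p.1 x (w p) u}.ncard := by
        rw [← Nat.card_coe_set_eq]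
        rw [Nat.card_congr (Equiv.Set.univPi (fun p : (Σ i, Fin (j i)) => {u | f p.1 x (w p) u}))]
        rw [Nat.card_pi]
        rfl
      rw [e, e2, Fintype.prod_sigma]
      refine Finset.prod_congr rfl (fun i _ => ?_)
      rw [Finset.prod_congr rfl (fun l _ => (hB i).card x ax xb (w ⟨i, l⟩))]
      simp
    · intro v w p
      exact (hB p.1).top _ _
  · intro x y ax xy yb
    have hxb := xy.trans yb
    have hay := ax.trans xy
    have hpx : ∀ i, (0 : ℝ) < n i x := fun i => by exact_mod_cast (hB i).pos ax hxb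
    have hpy : ∀ i, (0 : ℝ) < n i y := fun i => by exact_mod_cast (hB i).pos hay yb
    have hPx : (0 : ℝ) < ((∏ i, n i x ^ j i : ℕ) : ℝ) := by
      rw [Nat.cast_prod]
      refine Finset.prod_pos (fun i _ => ?_)
      rw [Nat.cast_pow]
      exact pow_pos (hpx i) _
    have hPy : (0 : ℝ) < ((∏ i, n i y ^ j i : ℕ) : ℝ) := by
      rw [Nat.cast_prod]
      refine Finset.prod_pos (fun i _ => ?_)
      rw [Nat.cast_pow]
      exact pow_pos (hpy i) _
    have hlog : ∀ z : L, (∀ i, (0 : ℝ) < n i z) →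
        Real.log ((∏ i, n i z ^ j i : ℕ) : ℝ) = ∑ i, (j i : ℝ) * Real.log (n i z) := by
      intro z hz
      rw [Nat.cast_prod, Real.log_prod (fun i _ => ?_)]
      · refine Finset.sum_congr rfl (fun i _ => ?_)
        rw [Nat.cast_pow, Real.log_pow]
      · rw [Nat.cast_pow]
        exact (pow_pos (hz i) _).ne'
    have hdiff : |(Real.log ((∏ i, n i y ^ j i : ℕ) : ℝ) - Real.log ((∏ i, n i x ^ j i : ℕ) : ℝ))
        - t * (r y - r x)| ≤ ε := by
      rw [hlog y hpy, hlog x hpx, hr x y ax xy yb, Finset.mul_sum, ← Finset.sum_sub_distrib,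
        ← Finset.sum_sub_distrib]
      have h1 : ∀ i ∈ Finset.univ, |((j i : ℝ) * Real.log (n i y) - (j i : ℝ) * Real.log (n i x))
          - t * ((Real.log (n i y) - Real.log (n i x)) / c i)|
          ≤ ε / ((Fintype.card ι : ℝ) * M + 1) * M := by
        intro i _
        have h2 : ((j i : ℝ) * Real.log (n i y) - (j i : ℝ) * Real.log (n i x))
          - t * ((Real.log (n i y) - Real.log (n i x)) / c i)
          = -((t * (1 / c i) - j i) * (Real.log (n i y) - Real.log (n i x))) := by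
          ring
        rw [h2, abs_neg, abs_mul]
        exact mul_le_mul ((hj i).trans (min_le_right _ _)) (hM i x y) (abs_nonneg _)
          (div_pos hε hK).le
      refine (Finset.abs_sum_le_sum_abs _ _).trans ((Finset.sum_le_sum h1).trans ?_)
      rw [Finset.sum_const, Finset.card_univ, nsmul_eq_mul]
      have h3 : (Fintype.card ι : ℝ) * (ε / ((Fintype.card ι : ℝ) * M + 1) * M)
          = ε * (((Fintype.card ι : ℝ) * M) / ((Fintype.card ι : ℝ) * M + 1)) := by
        ring
      rw [h3]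
      have h4 : ((Fintype.card ι : ℝ) * M) / ((Fintype.card ι : ℝ) * M + 1) ≤ 1 := by
        rw [div_le_one hK]
        linarith
      calc ε * (((Fintype.card ι : ℝ) * M) / ((Fintype.card ι : ℝ) * M + 1)) ≤ ε * 1 :=
            mul_le_mul_of_nonneg_left h4 hε.le
        _ = ε := mul_one ε
    rw [abs_le] at hdiff
    constructor
    · have h5 : Real.exp (t * (r y - r x) - ε) * ((∏ i, n i x ^ j i : ℕ) : ℝ)
          = Real.exp (t * (r y - r x) - ε + Real.log ((∏ i, n i x ^ j i : ℕ) : ℝ)) := by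
        rw [Real.exp_add (t * (r y - r x) - ε), Real.exp_log hPx]
      change Real.exp (t * (r y - r x) - ε) * ((∏ i, n i x ^ j i : ℕ) : ℝ) ≤ ((∏ i, n i y ^ j i : ℕ) : ℝ)
      rw [h5]
      refine (Real.le_log_iff_exp_le hPy).1 ?_
      linarith [hdiff.1]
    · have h5 : Real.exp (t * (r y - r x) + ε) * ((∏ i, n i x ^ j i : ℕ) : ℝ)
          = Real.exp (t * (r y - r x) + ε + Real.log ((∏ i, n i x ^ j i : ℕ) : ℝ)) := by
        rw [Real.exp_add (t * (r y - r x) + ε), Real.exp_log hPx]
      change ((∏ i, n i y ^ j i : ℕ) : ℝ) ≤ Real.exp (t * (r y - r x) + ε) * ((∏ i, n i x ^ j i : ℕ) : ℝ)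
      rw [h5]
      rw [← Real.log_le_iff_le_exp hPy]
      linarith [hdiff.2]

end H41.SK
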