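import Pool.Agent.H41.SK.ExG

/-! # SK.ExS : subspace lattices (about 120 lines)

`exact_of_blks` with `ι = Fin k`, `W i = g b i` (the subspace as a type; non-empty, finite), `f i x v w` iff `(v : V i) - w ∈ g x i`, `n i x = Nat.card (g x i)` for `x` in `[a, b]`, `c i = Real.log (Nat.card (K i)) > 0`. `Blk`: `sup`: `v - w ∈ g x i ⊔ g y i`, so `v - w = p + q`, the intermediate point is `v - p`; `card`: the class of `w` is the coset
of `g x i` (contained in `g b i`); `top`. `Nat.card (g x i) = Nat.card (K i) ^ finrank` (`Module.card_eq_pow_finrank`), so `(log (n i y) - log (n i x)) / c i = finrank (g y i) - finrank (g x i)`. It remains: for `x ≤ y` in `[a, b]` `r y - r x = ∑ i, (finrank (g y i) - finrank (g x i))`: induction on a maximal chain from `x` to `y` (`L` finite): for a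
covering `x ⋖ y` `g x ⋖ g y` in the product, so `g x i = g y i` for all `i` but one (`Pi.covBy_iff` or similar), and for this `i` `g x i ⋖ g y i` in the lattice of subspaces, so the dimension increases by one (`finrank` of the covering: e.g. `Submodule.covBy_iff_quot_is_simple`, or elementary), and `r y = r x + 1`. -/

namespace H41.SK

open H41.NU

/-- difference in a subspace -/
private def es_set {K V : Type} [Field K] [AddCommGroup V] [Module K V] (B S : Submodule K V) : Setoid B where
  r v w := (v : V) - w ∈ S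
  iseqv := by
    refine ⟨fun v => ?_, fun {v w} h => ?_, fun {v w u} h h' => ?_⟩
    · rw [sub_self]
      exact S.zero_mem
    · have h1 := S.neg_mem h
      rwa [neg_sub] at h1
    · have h1 := S.add_mem h h'
      rwa [sub_add_sub_cancel] at h1

private theorem es_ncard {K V : Type} [Field K] [AddCommGroup V] [Module K V] {B S : Submodule K V} (h : S ≤ B)
    (w : B) : {u | es_set B S w u}.ncard = Nat.card S := by
  have hinj : Function.Injective (fun u : B => (w : V) - u) := by
    intro u u' huu
    have h1 : (w : V) - u = (w : V) - u' := huu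
    exact Subtype.ext (sub_right_injective h1)
  have h2 : (fun u : B => (w : V) - u) '' {u | es_set B S w u} = (S : Set V) := by
    ext p
    constructor
    · rintro ⟨u, hu, rfl⟩
      exact hu
    · intro hp
      have hp' : p ∈ S := hp
      refine ⟨⟨(w : V) - p, B.sub_mem w.2 (h hp')⟩, ?_, ?_⟩
      · change (w : V) - ((w : V) - p) ∈ S
        rwa [sub_sub_cancel]
      · change (w : V) - ((w : V) - p) = p
        rw [sub_sub_cancel]
  rw [← Set.ncard_image_of_injective _ hinj, h2]
  exact (Nat.card_coe_set_eq (S : Set V)).symm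

private theorem es_cov {K V : Type} [Field K] [AddCommGroup V] [Module K V] [Finite V] {S T : Submodule K V}
    (h : S ⋖ T) : Module.finrank K T = Module.finrank K S + 1 := by
  have : FiniteDimensional K V := Module.Finite.of_finite
  obtain ⟨v, hvT, hvS⟩ := SetLike.exists_of_lt h.1
  have h1 : S < S ⊔ Submodule.span K {v} := by
    refine lt_of_le_of_ne le_sup_left fun h2 => hvS ?_
    rw [h2]
    exact (le_sup_right : Submodule.span K {v} ≤ S ⊔ Submodule.span K {v}) (Submodule.mem_span_singleton_self v)
  have h2 : S ⊔ Submodule.span K {v} ≤ T := by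
    refine sup_le h.1.le ?_
    rw [Submodule.span_singleton_le_iff_mem]
    exact hvT
  have h3 : S ⊔ Submodule.span K {v} = T := by
    by_contra h4
    exact h.2 h1 (lt_of_le_of_ne h2 h4)
  have h4 := Submodule.finrank_add_le_finrank_add_finrank S (Submodule.span K {v})
  have h5 : v ≠ 0 := fun h6 => hvS (by rw [h6]; exact S.zero_mem)
  rw [h3, finrank_span_singleton h5] at h4
  have h6 := Submodule.finrank_lt_finrank_of_lt h.1
  omega

private theorem es_log {K V : Type} [Field K] [Finite K] [AddCommGroup V] [Module K V] [Finite V]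
    (S : Submodule K V) : Real.log (Nat.card S : ℝ) / Real.log (Nat.card K : ℝ) = Module.finrank K S := by
  have : Fintype K := Fintype.ofFinite K
  have : Fintype S := Fintype.ofFinite S
  have h1 : Nat.card S = Nat.card K ^ Module.finrank K S := by
    rw [Nat.card_eq_fintype_card, Nat.card_eq_fintype_card]
    exact Module.card_eq_pow_finrank
  have h2 : 1 < Nat.card K := Finite.one_lt_card
  have h3 : (1 : ℝ) < (Nat.card K : ℝ) := by exact_mod_cast h2
  have h4 : 0 < Real.log (Nat.card K : ℝ) := Real.log_pos h3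
  rw [h1, Nat.cast_pow, Real.log_pow, mul_div_assoc, div_self h4.ne', mul_one]

private theorem es_rank {L : Type} [Lattice L] [Finite L] {a b : L} {r : L → ℝ}
    (hr : ∀ x y, x ⋖ y → r y = r x + 1) (k : ℕ) (K V : Fin k → Type) [∀ i, Field (K i)] [∀ i, Finite (K i)]
    [∀ i, AddCommGroup (V i)] [∀ i, Module (K i) (V i)] [∀ i, Finite (V i)]
    (g : L → ∀ i, Submodule (K i) (V i))
    (gcov : ∀ x y, a ≤ x → x ⋖ y → y ≤ b → g x ⋖ g y) (x : L) (ax : a ≤ x) (y : L) :
    x ≤ y → y ≤ b → r y - r x =
      ∑ i, ((Module.finrank (K i) (g y i) : ℝ) - (Module.finrank (K i) (g x i) : ℝ)) := by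
  induction y using WellFoundedLT.induction with
  | _ y ih =>
    intro xy yb
    rcases eq_or_lt_of_le xy with rfl | hlt
    · simp
    · obtain ⟨z, xz, zy⟩ := exists_le_covBy_of_lt hlt
      have h1 := ih z zy.1 xz (zy.1.le.trans yb)
      have h2 := gcov z y (ax.trans xz) zy yb
      obtain ⟨i, hi, hj⟩ := Pi.covBy_iff.1 h2
      have h3 : ∑ j, ((Module.finrank (K j) (g y j) : ℝ) - (Module.finrank (K j) (g z j) : ℝ)) = 1 := by
        rw [Finset.sum_eq_single i]
        · rw [es_cov hi]
          push_cast
          ring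
        · intro j _ hji
          rw [hj j hji, sub_self]
        · intro h
          exact absurd (Finset.mem_univ i) h
      have h4 : ∑ j, ((Module.finrank (K j) (g y j) : ℝ) - (Module.finrank (K j) (g x j) : ℝ)) =
          ∑ j, ((Module.finrank (K j) (g y j) : ℝ) - (Module.finrank (K j) (g z j) : ℝ)) +
          ∑ j, ((Module.finrank (K j) (g z j) : ℝ) - (Module.finrank (K j) (g x j) : ℝ)) := by
        rw [← Finset.sum_add_distrib]
        refine Finset.sum_congr rfl fun j _ => ?_
        ring
      rw [h4, h3, ← h1, hr z y zy]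
      ring

theorem exact_desarg {L : Type} [Lattice L] [Finite L] {a b : L} (hab : a ≤ b) {r : L → ℝ}
    (hr : ∀ x y, x ⋖ y → r y = r x + 1) (k : ℕ) (K V : Fin k → Type) [∀ i, Field (K i)] [∀ i, Finite (K i)]
    [∀ i, AddCommGroup (V i)] [∀ i, Module (K i) (V i)] [∀ i, Finite (V i)]
    (g : L → ∀ i, Submodule (K i) (V i))
    (ginf : ∀ x y, a ≤ x → x ≤ b → a ≤ y → y ≤ b → g (x ⊓ y) = g x ⊓ g y)
    (gsup : ∀ x y, a ≤ x → x ≤ b → a ≤ y → y ≤ b → g (x ⊔ y) = g x ⊔ g y)
    (gcov : ∀ x y, a ≤ x → x ⋖ y → y ≤ b → g x ⋖ g y) : Exact a b r := by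
  have gmono : ∀ x y, a ≤ x → x ≤ y → y ≤ b → g x ≤ g y := by
    intro x y ax xy yb
    have h1 := ginf x y ax (xy.trans yb) (ax.trans xy) yb
    rw [inf_eq_left.2 xy] at h1
    rw [h1]
    exact inf_le_right
  refine exact_of_blks (fun i => (g b i : Type)) (fun i x => es_set (g b i) (g x i))
    (fun i x => Nat.card (g x i)) (fun i => Real.log (Nat.card (K i) : ℝ)) ?_ ?_ ?_
  · intro i
    have h2 : 1 < Nat.card (K i) := Finite.one_lt_card
    exact Real.log_pos (by exact_mod_cast h2)
  · intro i
    refine ⟨?_, ?_, ?_, ?_⟩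
    · intro x y ax xb ay yb
      have h1 := congrFun (ginf x y ax xb ay yb) i
      ext v w
      change ((v : V i) - w ∈ g (x ⊓ y) i) ↔ ((v : V i) - w ∈ g x i ∧ (v : V i) - w ∈ g y i)
      rw [h1]
      rfl
    · intro x y ax xb ay yb s u hsu
      have h1 := congrFun (gsup x y ax xb ay yb) i
      have h2 : (s : V i) - u ∈ g (x ⊔ y) i := hsu
      rw [h1] at h2
      obtain ⟨p, hp, q, hq, hpq⟩ := Submodule.mem_sup.1 (show (s : V i) - u ∈ g x i ⊔ g y i from h2)
      refine ⟨⟨(s : V i) - p, (g b i).sub_mem s.2 (gmono x b ax xb le_rfl i hp)⟩, ?_, ?_⟩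
      · change (s : V i) - ((s : V i) - p) ∈ g x i
        rwa [sub_sub_cancel]
      · change (s : V i) - p - (u : V i) ∈ g y i
        have h3 : (s : V i) - p - (u : V i) = q := by
          rw [sub_right_comm, ← hpq, add_sub_cancel_left]
        rwa [h3]
    · intro x ax xb w
      exact es_ncard (gmono x b ax xb le_rfl i) w
    · intro v w
      exact (g b i).sub_mem v.2 w.2
  · intro x y ax xy yb
    rw [es_rank hr k K V g gcov x ax y xy yb]
    refine Finset.sum_congr rfl fun i _ => ?_
    rw [sub_div, es_log, es_log]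

end H41.SK
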