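import Pool.Agent.H41.SK.ExG

/-! # SK.ExU : uniform blocks are exact (about 90 lines)

`exact_of_blks` with `ι = Fin k`. Choose `w i : W i`, let `W' i` = the subtype of the `f i b`-class of `w i`, `f' i x` = the restriction of `f i x` (comap of the subtype map). For `x` in `[a, b]` `f i x ≤ f i b` (from `hinf`: `f i (x ⊓ b) = f i x ⊓ f i b`), so the classes of `f' i x` are the classes of `f i x` contained in `W' i` and have `n i x`
elements; `sup`: the intermediate point lies in `W' i` as it is `f i x`-related to a point of `W' i`; `top`: clear. `c i = Real.log (q i) > 0`. `hr'`: for `x ⋖ y` in `[a, b]` the sum is `Real.log (q i) / Real.log (q i) = 1 = r y - r x` (`n i x > 0`, the classes contain a point, and `n j y = n j x` for `j ≠ i`); for `x ≤ y` induction on a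
maximal chain (`L` finite; e.g. strong induction: if `x < y` there is `x'` with `x ⋖ x' ≤ y`). -/

namespace H41.SK

open H41.NU

theorem exact_ublock {L : Type} [Lattice L] [Finite L] {a b : L} (hab : a ≤ b) {r : L → ℝ}
    (hr : ∀ x y, x ⋖ y → r y = r x + 1) (k : ℕ) (W : Fin k → Type) [∀ i, Finite (W i)] [∀ i, Nonempty (W i)]
    (f : ∀ i, L → Setoid (W i)) (n : Fin k → L → ℕ) (q : Fin k → ℕ) (hq : ∀ i, 2 ≤ q i)
    (hinf : ∀ i x y, a ≤ x → x ≤ b → a ≤ y → y ≤ b → f i (x ⊓ y) = f i x ⊓ f i y)
    (hsup : ∀ i x y, a ≤ x → x ≤ b → a ≤ y → y ≤ b → ∀ s t, f i (x ⊔ y) s t → ∃ v, f i x s v ∧ f i y v t)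
    (hn : ∀ i x, a ≤ x → x ≤ b → ∀ w, {v | f i x w v}.ncard = n i x)
    (hcov : ∀ x y, a ≤ x → x ⋖ y → y ≤ b → ∃ i, n i y = q i * n i x ∧ ∀ j, j ≠ i → n j y = n j x) :
    Exact a b r := by

  -- base points
  let w : ∀ i, W i := fun i => Classical.arbitrary (W i)
  let W' : Fin k → Type := fun i => {v : W i // f i b (w i) v}
  let f' : ∀ i, L → Setoid (W' i) := fun i x => (f i x).comap Subtype.val
  have hle : ∀ i x, a ≤ x → x ≤ b → ∀ s t, f i x s t → f i b s t := by
    intro i x hax hxb s t hst
    have h1 := hinf i x b hax hxb hab le_rfl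
    rw [inf_eq_left.mpr hxb] at h1
    rw [h1] at hst
    exact hst.2
  have hF' : ∀ i, Finite (W' i) := fun i => inferInstanceAs (Finite {v : W i // f i b (w i) v})
  have hN' : ∀ i, Nonempty (W' i) := fun i => ⟨⟨w i, (f i b).refl (w i)⟩⟩
  have hpos : ∀ i x, a ≤ x → x ≤ b → 0 < n i x := by
    intro i x hax hxb
    rw [← hn i x hax hxb (w i)]
    rw [Set.ncard_pos (Set.toFinite _)]
    exact ⟨w i, (f i x).refl (w i)⟩
  have hlogq : ∀ i, 0 < Real.log (q i) := by
    intro i
    apply Real.log_pos
    have h2 := hq i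
    exact_mod_cast (by omega : 1 < q i)
  refine exact_of_blks (ι := Fin k) (a := a) (b := b) (r := r) W' f' n (fun i => Real.log (q i)) hlogq ?_ ?_
  · intro i
    refine ⟨?_, ?_, ?_, ?_⟩
    · intro x y hax hxb hay hyb
      have h1 := hinf i x y hax hxb hay hyb
      ext s t
      change f i (x ⊓ y) s.1 t.1 ↔ f i x s.1 t.1 ∧ f i y s.1 t.1
      rw [h1]
      exact Iff.rfl
    · intro x y hax hxb hay hyb s t hst
      obtain ⟨v, h1, h2⟩ := hsup i x y hax hxb hay hyb s.1 t.1 hst
      exact ⟨⟨v, (f i b).trans s.2 (hle i x hax hxb _ _ h1)⟩, h1, h2⟩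
    · intro x hax hxb v
      rw [← hn i x hax hxb v.1, ← Set.ncard_image_of_injective _ Subtype.val_injective]
      congr 1
      ext u
      constructor
      · rintro ⟨u', hu', rfl⟩
        exact hu'
      · intro hu
        exact ⟨⟨u, (f i b).trans v.2 (hle i x hax hxb _ _ hu)⟩, hu, rfl⟩
    · intro v u
      exact (f i b).trans ((f i b).symm v.2) u.2
  · have key : ∀ x y, a ≤ x → x ⋖ y → y ≤ b →
        ∑ i, (Real.log (n i y) - Real.log (n i x)) / Real.log (q i) = 1 := by
      intro x y hax hxy hyb
      obtain ⟨i, hi, hj⟩ := hcov x y hax hxy hyb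
      rw [Finset.sum_eq_single i]
      · have h1 : (0 : ℝ) < n i x := by exact_mod_cast hpos i x hax (hxy.le.trans hyb)
        have h2 : (0 : ℝ) < q i := by
          have := hq i
          exact_mod_cast (by omega : 0 < q i)
        rw [hi]
        push_cast
        rw [Real.log_mul h2.ne' h1.ne', add_sub_cancel_right]
        exact div_self (hlogq i).ne'
      · intro j _ hji
        rw [hj j hji, sub_self, zero_div]
      · intro h
        exact absurd (Finset.mem_univ i) h
    have main : ∀ x y, a ≤ x → x ≤ y → y ≤ b →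
        r y - r x = ∑ i, (Real.log (n i y) - Real.log (n i x)) / Real.log (q i) := by
      intro x
      induction x using (WellFounded.induction (wellFounded_gt : WellFounded ((· > ·) : L → L → Prop))) with
      | _ x ih =>
        intro y hax hxy hyb
        rcases eq_or_lt_of_le hxy with h | h
        · subst h
          simp
        · obtain ⟨x', hx', hx'y⟩ := exists_covBy_le_of_lt h
          have h1 := ih x' hx'.lt y (hax.trans hx'.le) hx'y hyb
          have h2 := key x x' hax hx' (hx'y.trans hyb)
          have h3 := hr x x' hx'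
          have h4 : ∑ i, (Real.log (n i y) - Real.log (n i x)) / Real.log (q i)
              = ∑ i, (Real.log (n i y) - Real.log (n i x')) / Real.log (q i)
                + ∑ i, (Real.log (n i x') - Real.log (n i x)) / Real.log (q i) := by
            rw [← Finset.sum_add_distrib]
            apply Finset.sum_congr rfl
            intro i _
            ring
          rw [h4, ← h1, h2, h3]
          ring
    exact main

end H41.SK
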