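import Pool.Agent.H41.SK.InjE

/-! # SK.KB : existence of new elements (about 80 lines)

For `c ∈ C` choose `g c ∈ E c` as in `Dset`. For `z ∈ U` with `a ≤ z` choose `k z ∈ C` with `k z ≤ z` (`Ctx.cov`). Let `e z = 0` if not `a ≤ z`, `e z = g (k z) z` if `a ≤ z`, `z ∈ U`, and `e z = cd z w` if `a ≤ z`, `z ∉ U`. Claim: for `c ∈ C`, `c ≤ z` (so `z ∈ U`, `a ≤ z`) `res z e = res z (g c)`: for `y ≥ z` let `u = c ⊔ k y ∈ C`, `u ≤ y`, `u ≤ b`, then
`res u (g c) = res u (g (k y))` by `injE` (both are in `E u`, above `S`, with the labels `mu z' w`, `u ≤ z'.1`), so `g c y = g (k y) y`. Then `res z e = res z (g c) ∈ E z` by `Sys.map` for all `z ∈ U`, `a ≤ z`; labels: for `z ∈ JT` there is `c ∈ C` with `c ≤ z.1`; `res b e = res b (g b) = S` as `b ∈ C`; `res a e = e` as `e` vanishes outside the filter of `a`. -/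

namespace H41.SK

open H41.NU

theorem exists_as {L W : Type} [Lattice L] [Finite L] {U : Set L} {a b : L} {C : Set L}
    {r : L → ℝ} {t ε : ℝ} {E : L → Set (L → ℕ)} {f : L → Setoid W} {n : L → ℕ}
    {lam : L × L → (L → ℕ) → ℕ} {mu : L × L → W → ℕ} {cd : L → W → ℕ} {Th : Set W}
    (d : Data U a b C r t ε E f n lam mu cd) {S : L → ℕ} {w : W} (hw : w ∈ Th)
    (hD : ∀ c ∈ C, w ∈ Dset E C b lam mu S c) :
    ∃ e, res a e = e ∧ As U a b C E lam mu cd Th e w ∧ res b e = S := by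
  classical
  have hg0 : ∀ c, ∃ g : L → ℕ, c ∈ C → (g ∈ E c ∧ res b g = S ∧
      ∀ z ∈ JT C b, c ≤ z.1 → lam z (res z.1 g) = mu z w) := by
    intro c
    by_cases hc : c ∈ C
    · obtain ⟨g, h1, h2, h3⟩ := hD c hc
      exact ⟨g, fun _ => ⟨h1, h2, h3⟩⟩
    · exact ⟨fun _ => 0, fun h => absurd h hc⟩
  choose g hg using hg0
  have hk0 : ∀ z, ∃ c, z ∈ U → a ≤ z → (c ∈ C ∧ c ≤ z) := by
    intro z
    by_cases hz : z ∈ U ∧ a ≤ z
    · obtain ⟨c, h1, h2⟩ := d.ctx.cov z hz.1 hz.2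
      exact ⟨c, fun _ _ => ⟨h1, h2⟩⟩
    · exact ⟨z, fun h1 h2 => absurd ⟨h1, h2⟩ hz⟩
  choose k hk using hk0
  have hcl : ∀ c ∈ C, ∀ y, c ≤ y →
      (if a ≤ y then (if y ∈ U then g (k y) y else cd y w) else 0) = g c y := by
    intro c hc y hcy
    obtain ⟨cU, ac, cb⟩ := d.ctx.CU c hc
    have yU : y ∈ U := d.ctx.up c cU y hcy
    have ay : a ≤ y := ac.trans hcy
    obtain ⟨kC, kle⟩ := hk y yU ay
    rw [if_pos ay, if_pos yU]
    have uC : c ⊔ k y ∈ C := d.ctx.sup c hc (k y) kC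
    obtain ⟨uU, _, ub⟩ := d.ctx.CU _ uC
    obtain ⟨kU, _, kb⟩ := d.ctx.CU _ kC
    have uy : c ⊔ k y ≤ y := sup_le hcy kle
    obtain ⟨g1, g2, g3⟩ := hg c hc
    obtain ⟨q1, q2, q3⟩ := hg (k y) kC
    have key : res (c ⊔ k y) (g c) = res (c ⊔ k y) (g (k y)) := by
      refine injE d.ctx d.sys d.lab uC le_rfl ub
        (d.sys.map c cU _ uU le_sup_left _ g1) (d.sys.map _ kU _ uU le_sup_right _ q1) ?_ ?_
      · rw [res_res ub, res_res ub, g2, q2]
      · intro z hz huz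
        rw [res_res huz, res_res huz, g3 z hz (le_sup_left.trans huz), q3 z hz (le_sup_right.trans huz)]
    exact ((res_iff.1 key) y uy).symm
  refine ⟨fun y => if a ≤ y then (if y ∈ U then g (k y) y else cd y w) else 0, ?_, ⟨hw, ?_, ?_, ?_⟩, ?_⟩
  · funext z
    by_cases az : a ≤ z
    · rw [res_of_le _ az]
    · unfold res
      rw [if_neg az, if_neg az]
  · intro z zU az
    obtain ⟨kC, kle⟩ := hk z zU az
    obtain ⟨kU, _, _⟩ := d.ctx.CU _ kC
    have h1 : res z (fun y => if a ≤ y then (if y ∈ U then g (k y) y else cd y w) else 0) =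
        res z (g (k z)) := by
      rw [res_iff]
      intro y hy
      exact hcl (k z) kC y (kle.trans hy)
    rw [h1]
    exact d.sys.map _ kU z zU kle _ (hg (k z) kC).1
  · intro z hz
    obtain ⟨⟨c, hc, hcz⟩, _⟩ := id hz
    have h1 : res z.1 (fun y => if a ≤ y then (if y ∈ U then g (k y) y else cd y w) else 0) =
        res z.1 (g c) := by
      rw [res_iff]
      intro y hy
      exact hcl c hc y (hcz.trans hy)
    rw [h1]
    exact (hg c hc).2.2 z hz hcz
  · intro x ax _ xU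
    show (if a ≤ x then (if x ∈ U then g (k x) x else cd x w) else 0) = cd x w
    rw [if_pos ax, if_neg xU]
  · have h1 : res b (fun y => if a ≤ y then (if y ∈ U then g (k y) y else cd y w) else 0) =
        res b (g b) := by
      rw [res_iff]
      intro y hy
      exact hcl b d.ctx.bC y hy
    rw [h1]
    exact (hg b d.ctx.bC).2.1

end H41.SK
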