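import Pool.Agent.H41.SK.InjW

/-! # SK.SurW : all labels occur in the block (about 120 lines)

Let `J = Jf u b` (`Pool/Agent/H41/NU/Irr.lean`; `z ∈ J` iff `z ∈ JT C b` and `u ≤ z.1`, since `c ≤ u`). The map `F` from the classes of `f u` (all of `W` is one class of `f b`) to the families `(k z)`, `z ∈ J`, `k z < n z.2 / n z.1`, given by `mu`, is well defined (`mu_eq`) and injective (`injW`). The number of classes of `f u` is
`n b / n u` (`Blk.ratio`) and the number of families is the product of the `n z.2 / n z.1` (exact divisions by `Blk.ratio`), which is `n b / n u`: `J_sum` with `a := u`, `x := b`, `r := fun x => Real.log (n x)` (`Val (Set.Icc u b)` by `hlt`, `Blk.modular`; `hd` is `hc.dist c cC`; the filter is everything, as `z.1 < z.2 ≤ b`) gives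
`∑ z ∈ J, (log n z.2 - log n z.1) = log n b - log n u`. So `F` is surjective. -/

namespace H41.SK

open H41.NU

theorem surW {L W : Type} [Lattice L] [Finite L] [Finite W] [Nonempty W] {U : Set L} {a b : L} {C : Set L}
    {E : L → Set (L → ℕ)} {f : L → Setoid W} {n : L → ℕ} {lam : L × L → (L → ℕ) → ℕ} {mu : L × L → W → ℕ}
    (hc : Ctx U a b C) (hB : Blk a b f n) (hlt : ∀ x y, a ≤ x → x < y → y ≤ b → n x < n y)
    (hl : Lab E C b f n lam mu) {c u : L} (cC : c ∈ C) (cu : c ≤ u) (ub : u ≤ b) (k : L × L → ℕ)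
    (hk : ∀ z ∈ JT C b, u ≤ z.1 → k z * n z.1 < n z.2) :
    ∃ w : W, ∀ z ∈ JT C b, u ≤ z.1 → mu z w = k z := by
  classical
  have au : a ≤ u := (hc.CU c cC).2.1.trans cu
  obtain ⟨w0⟩ : Nonempty W := inferInstance
  have hJT : ∀ z ∈ Jf u b, z ∈ JT C b ∧ u ≤ z.1 := by
    intro z hz
    rw [mem_Jf] at hz
    obtain ⟨uz, hz12, hz2b, hzmin⟩ := hz
    exact ⟨⟨⟨c, cC, cu.trans uz⟩, hz12, hz2b, hzmin⟩, uz⟩
  have hJf : ∀ z ∈ JT C b, u ≤ z.1 → z ∈ Jf u b := by
    intro z hz uz
    rw [mem_Jf]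
    exact ⟨uz, hz.2.1, hz.2.2.1, hz.2.2.2⟩
  have hpos : ∀ x, u ≤ x → x ≤ b → 0 < n x := fun x ux xb => hB.pos (au.trans ux) xb
  have hq : ∀ z ∈ Jf u b, n z.2 / n z.1 * n z.1 = n z.2 := by
    intro z hz
    rw [mem_Jf] at hz
    apply Nat.div_mul_cancel
    exact ⟨_, ((Nat.mul_comm _ _).trans (hB.ratio (au.trans hz.1) hz.2.1.le hz.2.2.1 w0)).symm⟩
  -- the number of families
  have hval : Val (Set.Icc u b) (fun x => Real.log (n x)) := by
    constructor
    · intro x hx y hy hxy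
      apply Real.log_lt_log
      · exact_mod_cast hpos x hx.1 hx.2
      · exact_mod_cast hlt x y (au.trans hx.1) hxy hy.2
    · intro x hx y hy
      have h1 : (n (x ⊔ y) : ℝ) * n (x ⊓ y) = n x * n y := by
        exact_mod_cast hB.modular (au.trans hx.1) hx.2 (au.trans hy.1) hy.2
      have p1 : (n x : ℝ) ≠ 0 := by exact_mod_cast (hpos x hx.1 hx.2).ne'
      have p2 : (n y : ℝ) ≠ 0 := by exact_mod_cast (hpos y hy.1 hy.2).ne'
      have p3 : (n (x ⊔ y) : ℝ) ≠ 0 := by
        exact_mod_cast (hpos (x ⊔ y) (hx.1.trans le_sup_left) (sup_le hx.2 hy.2)).ne'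
      have p4 : (n (x ⊓ y) : ℝ) ≠ 0 := by
        exact_mod_cast (hpos (x ⊓ y) (le_inf hx.1 hy.1) (inf_le_left.trans hx.2)).ne'
      change Real.log (n x) + Real.log (n y) = Real.log (n (x ⊔ y)) + Real.log (n (x ⊓ y))
      rw [← Real.log_mul p1 p2, ← Real.log_mul p3 p4, h1]
  have hsum := J_sum (a := u) (b := b) (x := b) (r := fun x => Real.log (n x))
    (fun x y z ux xb uy yb uz zb => hc.dist c cC x y z (cu.trans ux) xb (cu.trans uy) yb (cu.trans uz) zb)
    hval ub (le_refl b)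
  have hfil : (Jf u b).filter (fun z => ¬ b ≤ z.1) = Jf u b := by
    apply Finset.filter_true_of_mem
    intro z hz hbz
    rw [mem_Jf] at hz
    exact absurd (hz.2.1.trans_le hz.2.2.1) (not_lt_of_ge hbz)
  rw [hfil] at hsum
  have hqpos : ∀ z ∈ Jf u b, 0 < n z.2 / n z.1 := by
    intro z hz
    have h1 := hq z hz
    rw [mem_Jf] at hz
    have h2 := hpos z.2 (hz.1.trans hz.2.1.le) hz.2.2.1
    rcases Nat.eq_zero_or_pos (n z.2 / n z.1) with h | h
    · rw [h, Nat.zero_mul] at h1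
      omega
    · exact h
  have hlog : ∀ z ∈ Jf u b, Real.log (n z.2) - Real.log (n z.1) = Real.log ((n z.2 / n z.1 : ℕ) : ℝ) := by
    intro z hz
    have h1 : (((n z.2 / n z.1 : ℕ) : ℝ)) * n z.1 = n z.2 := by exact_mod_cast hq z hz
    have h2 : (((n z.2 / n z.1 : ℕ) : ℝ)) ≠ 0 := by exact_mod_cast (hqpos z hz).ne'
    rw [mem_Jf] at hz
    have h3 : (n z.1 : ℝ) ≠ 0 := by
      exact_mod_cast (hpos z.1 hz.1 (hz.2.1.le.trans hz.2.2.1)).ne'
    rw [← h1, Real.log_mul h2 h3]
    ring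
  set A : Set W := {v | f b w0 v} with hA
  have hN : ncl (f u) A * n u = n b := hB.ratio au ub (le_refl b) w0
  have hNpos : 0 < ncl (f u) A := by
    rcases Nat.eq_zero_or_pos (ncl (f u) A) with h | h
    · rw [h, Nat.zero_mul] at hN
      have := hpos b ub (le_refl b)
      omega
    · exact h
  have hprod : ∏ z ∈ Jf u b, (n z.2 / n z.1) = ncl (f u) A := by
    have h1 : Real.log ((∏ z ∈ Jf u b, (n z.2 / n z.1) : ℕ) : ℝ) = Real.log (ncl (f u) A : ℝ) := by
      rw [Nat.cast_prod, Real.log_prod (fun z hz => by exact_mod_cast (hqpos z hz).ne'),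
        ← Finset.sum_congr rfl hlog]
      have h2 : (ncl (f u) A : ℝ) * n u = n b := by exact_mod_cast hN
      have h3 : (ncl (f u) A : ℝ) ≠ 0 := by exact_mod_cast hNpos.ne'
      have h4 : (n u : ℝ) ≠ 0 := by exact_mod_cast (hpos u (le_refl u) ub).ne'
      have h5 : Real.log (n b) = Real.log (ncl (f u) A : ℝ) + Real.log (n u) := by
        rw [← h2, Real.log_mul h3 h4]
      rw [hsum]
      change Real.log (n b) - Real.log (n u) = _
      rw [h5]
      ring
    have h6 : (0 : ℝ) < ((∏ z ∈ Jf u b, (n z.2 / n z.1) : ℕ) : ℝ) := by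
      exact_mod_cast Finset.prod_pos hqpos
    have h7 : (0 : ℝ) < (ncl (f u) A : ℝ) := by exact_mod_cast hNpos
    exact_mod_cast Real.log_injOn_pos (Set.mem_Ioi.2 h6) (Set.mem_Ioi.2 h7) h1
  -- the map to the families
  let G : W → (∀ z ∈ Jf u b, ℕ) := fun w z _ => mu z w
  have hG1 : G '' A ⊆ ((Jf u b).pi (fun z => Finset.range (n z.2 / n z.1)) : Set (∀ z ∈ Jf u b, ℕ)) := by
    rintro g ⟨w, _, rfl⟩
    rw [Finset.mem_coe, Finset.mem_pi]
    intro z hz
    rw [Finset.mem_range]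
    have h1 : mu z w * n z.1 < n z.2 := hl.mult z (hJT z hz).1 w
    rw [← hq z hz] at h1
    exact lt_of_mul_lt_mul_right h1 (Nat.zero_le _)
  have hG2 : ncl (f u) A ≤ (G '' A).ncard := by
    unfold ncl
    have hex : ∀ d ∈ Quotient.mk (f u) '' A, ∃ v ∈ A, Quotient.mk (f u) v = d := fun d hd => hd
    choose! v hvA hv using hex
    refine Set.ncard_le_ncard_of_injOn (fun d => G (v d)) ?_ ?_ (Set.toFinite _)
    · intro d hd
      exact ⟨v d, hvA d hd, rfl⟩
    · intro d hd d' hd' h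
      have h3 : f u (v d) (v d') := by
        apply injW hc hB hl cC cu ub
        intro z hz uz
        have h4 := congrFun (congrFun h z) (hJf z hz uz)
        exact h4
      rw [← hv d hd, ← hv d' hd']
      exact Quotient.sound h3
  have hG3 : G '' A = ((Jf u b).pi (fun z => Finset.range (n z.2 / n z.1)) : Set (∀ z ∈ Jf u b, ℕ)) := by
    apply Set.eq_of_subset_of_ncard_le hG1
    rw [Set.ncard_coe_finset, Finset.card_pi]
    simp only [Finset.card_range]
    rw [hprod]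
    exact hG2
  have hkm : (fun z _ => k z : ∀ z ∈ Jf u b, ℕ) ∈ G '' A := by
    rw [hG3, Finset.mem_coe, Finset.mem_pi]
    intro z hz
    rw [Finset.mem_range]
    have h1 : k z * n z.1 < n z.2 := hk z (hJT z hz).1 (hJT z hz).2
    rw [← hq z hz] at h1
    exact lt_of_mul_lt_mul_right h1 (Nat.zero_le _)
  obtain ⟨w, _, hw⟩ := hkm
  refine ⟨w, fun z hz uz => ?_⟩
  exact congrFun (congrFun hw z) (hJf z hz uz)

end H41.SK
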