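import Pool.Agent.H41.SK.KA
import Pool.Agent.H41.SK.SurW

/-! # SK.KC : the point of a block belonging to an element (about 110 lines)

`mem_dset`: `g = res c e`. `exists_point`: case `q ∉ U`: `g = res q e₀` with `As e₀ w0` (`newE_of_not`); (1) is `as_iff`; (2) `w0` itself, by `mem_dset`; (3) `w0` itself is in `Th`. Case `q ∈ U`: `g ∈ E q` (`newE_of_mem`), `c₀ ∈ C` with `c₀ ≤ q` (`Ctx.cov`), `w0` from `surW` with `u = q`, `k z = lam z (res z.1 g)`. (1): if `res q e₁ = g` then `res b e₁ = res b g`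
and `f q w0 w₁` by `injW` (`u = q`; for `q ≤ z.1`: `mu z w₁ = lam z (res z.1 e₁) = lam z (res z.1 g) = mu z w0`); conversely `injE` for `res q e₁` and `g` (labels by `mu_eq`). (2) Let `c ∈ C`, `y = q ⊔ c ≤ b`, `y ∈ U`; `res y g ∈ E y`, by `Sys.lo` for `c ≤ y` (`exp > 0`, so `fib ≠ 0`) there is `g₁ ∈ E c` with `res y g₁ = res y g`;
`w₁` from `surW` with `u = c` and the labels of `g₁`; `w₁ ∈ Dset .. (res b g) c` as `res b g₁ = res b (res y g₁) = res b g`; `f y w0 w₁` by `injW` with `u = y`. (3) is empty for `q ∈ U`. -/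

namespace H41.SK

open H41.NU

theorem mem_dset {L W : Type} [Lattice L] {U : Set L} {a b : L} {C : Set L}
    {r : L → ℝ} {t ε : ℝ} {E : L → Set (L → ℕ)} {f : L → Setoid W} {n : L → ℕ}
    {lam : L × L → (L → ℕ) → ℕ} {mu : L × L → W → ℕ} {cd : L → W → ℕ} {Th : Set W}
    (d : Data U a b C r t ε E f n lam mu cd) {e : L → ℕ} {w : W} (h : As U a b C E lam mu cd Th e w) {c : L}
    (cC : c ∈ C) : w ∈ Dset E C b lam mu (res b e) c := by
  obtain ⟨cU, ac, cb⟩ := d.ctx.CU c cC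
  refine ⟨res c e, h.2.1 c cU ac, res_res cb e, ?_⟩
  intro z hz cz
  rw [res_res cz]
  exact h.2.2.1 z hz

theorem exists_point {L W : Type} [Lattice L] [Finite L] [Finite W] [Nonempty W] {U : Set L} {a b : L} {C : Set L}
    {r : L → ℝ} {t ε : ℝ} {E : L → Set (L → ℕ)} {f : L → Setoid W} {n : L → ℕ}
    {lam : L × L → (L → ℕ) → ℕ} {mu : L × L → W → ℕ} {cd : L → W → ℕ} {Th : Set W}
    (d : Data U a b C r t ε E f n lam mu cd) {q : L} (aq : a ≤ q) (qb : q ≤ b) {g : L → ℕ}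
    (hg : g ∈ newE U a b C E lam mu cd Th q) :
    ∃ w0 : W, res b g ∈ E b ∧
      (∀ e₁ w₁, As U a b C E lam mu cd Th e₁ w₁ → (res q e₁ = g ↔ res b e₁ = res b g ∧ f q w0 w₁)) ∧
      (∀ c ∈ C, ∃ w₁ ∈ Dset E C b lam mu (res b g) c, f (q ⊔ c) w0 w₁) ∧
      (q ∉ U → w0 ∈ Th) := by
  have hbU : b ∈ U := (d.ctx.CU b d.ctx.bC).1
  by_cases hq : q ∈ U
  · rw [newE_of_mem hq] at hg
    obtain ⟨c₀, c₀C, c₀q⟩ := d.ctx.cov q hq aq
    obtain ⟨w0, hw0⟩ := surW d.ctx d.blk d.lt d.lab c₀C c₀q qb (fun z => lam z (res z.1 g))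
      (fun z hz _ => d.lab.lamlt z hz _)
    refine ⟨w0, d.sys.map q hq b hbU qb g hg, ?_, ?_, fun h => absurd hq h⟩
    · intro e₁ w₁ h₁
      constructor
      · intro he
        refine ⟨?_, ?_⟩
        · rw [← he, res_res qb]
        · refine injW d.ctx d.blk d.lab c₀C c₀q qb ?_
          intro z hz qz
          rw [hw0 z hz qz, ← h₁.2.2.1 z hz, ← he, res_res qz]
      · rintro ⟨hb1, hf⟩
        refine injE d.ctx d.sys d.lab c₀C c₀q qb (h₁.2.1 q hq aq) hg ?_ ?_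
        · rw [res_res qb, hb1]
        · intro z hz qz
          rw [res_res qz, h₁.2.2.1 z hz, ← hw0 z hz qz]
          exact (mu_eq d.ctx d.blk d.lab aq hf hz qz).symm
    · intro c cC
      obtain ⟨cU, ac, cb⟩ := d.ctx.CU c cC
      have cy : c ≤ q ⊔ c := le_sup_right
      have qy : q ≤ q ⊔ c := le_sup_left
      have yb : q ⊔ c ≤ b := sup_le qb cb
      have yU : q ⊔ c ∈ U := d.ctx.up q hq _ qy
      have hgy : res (q ⊔ c) g ∈ E (q ⊔ c) := d.sys.map q hq _ yU qy g hg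
      have hlo := d.sys.lo c cU _ yU cy _ hgy
      have hne : fib E c (q ⊔ c) (res (q ⊔ c) g) ≠ 0 := by
        intro h0
        rw [h0] at hlo
        have hpos := Real.exp_pos (t * (r (q ⊔ c) - r c) - ε)
        rw [Nat.cast_zero] at hlo
        linarith
      obtain ⟨g₁, hg₁, hg₁y⟩ := Set.nonempty_of_ncard_ne_zero hne
      obtain ⟨w₁, hw₁⟩ := surW d.ctx d.blk d.lt d.lab cC le_rfl cb (fun z => lam z (res z.1 g₁))
        (fun z hz _ => d.lab.lamlt z hz _)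
      refine ⟨w₁, ⟨g₁, hg₁, ?_, ?_⟩, ?_⟩
      · rw [← res_res yb g₁, hg₁y, res_res yb]
      · intro z hz cz
        exact (hw₁ z hz cz).symm
      · refine injW d.ctx d.blk d.lab cC cy yb ?_
        intro z hz yz
        rw [hw0 z hz (qy.trans yz), hw₁ z hz (cy.trans yz)]
        show lam z (res z.1 g) = lam z (res z.1 g₁)
        rw [← res_res yz g, ← res_res yz g₁, hg₁y]
  · rw [newE_of_not hq] at hg
    obtain ⟨e₀, w0, _, h0, hg0⟩ := hg
    subst hg0
    refine ⟨w0, ?_, ?_, ?_, fun _ => h0.1⟩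
    · rw [res_res qb]
      exact h0.2.1 b hbU d.ctx.ab
    · intro e₁ w₁ h₁
      rw [as_iff d h₁ h0 aq qb, res_res qb]
      constructor
      · rintro ⟨h1, h2⟩
        exact ⟨h1, (f q).symm' h2⟩
      · rintro ⟨h1, h2⟩
        exact ⟨h1, (f q).symm' h2⟩
    · intro c cC
      refine ⟨w0, ?_, (f (q ⊔ c)).refl' w0⟩
      rw [res_res qb]
      exact mem_dset d h0 cC

end H41.SK
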