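import Pool.Agent.H41.SK.KA
import Pool.Agent.H41.SK.KB
import Pool.Agent.H41.SK.KC

/-! # SK.Fb : fibres of the new system inside the block (about 90 lines)

`p ∉ U`, `p` in `[a, b]`, `p ≤ q ≤ b`, `g ∈ newE q`, `w0` as in `exists_point` (only property (1) is used). The elements of `{e | e ∈ newE p ∧ res q e = g}` are the `res p e₁` with `res a e₁ = e₁`, `As e₁ w₁` and `res q e₁ = g` (`res_res`), i.e. `res b e₁ = res b g ∧ f q w0 w₁`. Then `w₁ ∈ Th` and `w₁ ∈ Dset (res b g) c` for all `c ∈ C` (`mem_dset`).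
The class of `w₁` for `f p` is determined by `res p e₁` and determines it (`as_iff` for `x = p`). Every `w` of the set on the right comes from an `e₁` (`exists_as` with `S = res b g`). So the two finite sets `{e | ..}` and `Quotient.mk (f p) '' {w | ..}` are in bijection (`ncl` is the `ncard` of the latter); e.g. `Set.ncard_congr` or two inequalities. -/

namespace H41.SK

open H41.NU

theorem fib_eq {L W : Type} [Lattice L] [Finite L] [Finite W] {U : Set L} {a b : L} {C : Set L}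
    {r : L → ℝ} {t ε : ℝ} {E : L → Set (L → ℕ)} {f : L → Setoid W} {n : L → ℕ}
    {lam : L × L → (L → ℕ) → ℕ} {mu : L × L → W → ℕ} {cd : L → W → ℕ} {Th : Set W}
    (d : Data U a b C r t ε E f n lam mu cd) {p q : L} (ap : a ≤ p) (pU : p ∉ U) (pq : p ≤ q) (qb : q ≤ b)
    {g : L → ℕ} {w0 : W}
    (h1 : ∀ e₁ w₁, As U a b C E lam mu cd Th e₁ w₁ → (res q e₁ = g ↔ res b e₁ = res b g ∧ f q w0 w₁)) :
    fib (newE U a b C E lam mu cd Th) p q g =
      ncl (f p) {w | f q w0 w ∧ w ∈ Th ∧ ∀ c ∈ C, w ∈ Dset E C b lam mu (res b g) c} := by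
  classical
  have pb : p ≤ b := pq.trans qb
  unfold fib ncl
  have key : ∀ e ∈ {e | e ∈ newE U a b C E lam mu cd Th p ∧ res q e = g},
      ∃ w, w ∈ {w | f q w0 w ∧ w ∈ Th ∧ ∀ c ∈ C, w ∈ Dset E C b lam mu (res b g) c} ∧
        ∃ e₁, res a e₁ = e₁ ∧ As U a b C E lam mu cd Th e₁ w ∧ res p e₁ = e := by
    rintro e ⟨he, heq⟩
    rw [newE_of_not pU] at he
    obtain ⟨e₁, w₁, ha, hAs, hp⟩ := he
    have hq : res q e₁ = g := by rw [← heq, ← hp, res_res pq]
    obtain ⟨hb, hf⟩ := (h1 e₁ w₁ hAs).1 hq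
    refine ⟨w₁, ⟨hf, hAs.1, fun c cC => ?_⟩, e₁, ha, hAs, hp⟩
    rw [← hb]
    exact mem_dset d hAs cC
  choose φ hφ using key
  refine Set.ncard_congr (fun e he => Quotient.mk (f p) (φ e he)) ?_ ?_ ?_
  · intro e he
    exact ⟨φ e he, (hφ e he).1, rfl⟩
  · intro e e' he he' h
    obtain ⟨hS, e₁, ha, hAs, hp⟩ := hφ e he
    obtain ⟨hS', e₁', ha', hAs', hp'⟩ := hφ e' he'
    have hf : f p (φ e he) (φ e' he') := Quotient.eq.1 h
    have hq : res q e₁ = g := by rw [← he.2, ← hp, res_res pq]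
    have hq' : res q e₁' = g := by rw [← he'.2, ← hp', res_res pq]
    have hb := ((h1 e₁ _ hAs).1 hq).1
    have hb' := ((h1 e₁' _ hAs').1 hq').1
    have := (as_iff d hAs hAs' ap pb).2 ⟨by rw [hb, hb'], hf⟩
    rw [← hp, ← hp', this]
  · rintro _ ⟨w, ⟨hfw, hTh, hD⟩, rfl⟩
    obtain ⟨e₁, ha, hAs, hb⟩ := exists_as d hTh hD
    have hq : res q e₁ = g := (h1 e₁ w hAs).2 ⟨hb, hfw⟩
    have hA : res p e₁ ∈ {e | e ∈ newE U a b C E lam mu cd Th p ∧ res q e = g} := by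
      refine ⟨?_, by rw [res_res pq, hq]⟩
      rw [newE_of_not pU]
      exact ⟨e₁, w, ha, hAs, rfl⟩
    refine ⟨res p e₁, hA, ?_⟩
    obtain ⟨hS, e₂, ha2, hAs2, hp2⟩ := hφ (res p e₁) hA
    exact Quotient.eq.2 ((as_iff d hAs2 hAs ap pb).1 hp2).2

end H41.SK
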