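import Pool.Agent.H41.SK.KA

/-! # SK.FinE : the new sets are finite, the restriction maps (about 50 lines)

`newE_fin`: for `x ∈ U` it is `E x`. For `x ∉ U`, `x` in `[a, b]`: choose for every element `e` of `newE x` some `e₁`, `w` as in `newE_of_not`; the pair (`res b e₁ ∈ E b`, `w`) determines `e = res x e₁` by `as_iff` (`f x w w`), so `newE x` injects in `E b × W`. `newE_map`: for `y ∈ U`, `x ∉ U`: `res y (res x e₁) = res y e₁ ∈ E y` (second condition in `As`,
`a ≤ x ≤ y`); for `x, y ∉ U` the same `e₁`; for `x ∈ U` also `y ∈ U` and `Sys.map`. `newE_supp`: `Sys.supp` or `res_idem`. -/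

namespace H41.SK

open H41.NU

theorem newE_fin {L W : Type} [Lattice L] [Finite L] [Finite W] {U : Set L} {a b : L} {C : Set L}
    {r : L → ℝ} {t ε : ℝ} {E : L → Set (L → ℕ)} {f : L → Setoid W} {n : L → ℕ}
    {lam : L × L → (L → ℕ) → ℕ} {mu : L × L → W → ℕ} {cd : L → W → ℕ} {Th : Set W}
    (d : Data U a b C r t ε E f n lam mu cd) {x : L} (hx : x ∈ U ∪ Set.Icc a b) :
    (newE U a b C E lam mu cd Th x).Finite := by
  classical
  by_cases hU : x ∈ U
  · rw [newE_of_mem hU]
    exact d.sys.fin x hU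
  · have hab : a ≤ x ∧ x ≤ b := by
      rcases hx with h | h
      · exact absurd h hU
      · exact h
    rw [newE_of_not hU]
    have hbU : b ∈ U := (d.ctx.CU b d.ctx.bC).1
    have hfin : (E b ×ˢ (Set.univ : Set W)).Finite := (d.sys.fin b hbU).prod Set.finite_univ
    let F : (L → ℕ) × W → (L → ℕ) := fun q =>
      if h : ∃ e₁, As U a b C E lam mu cd Th e₁ q.2 ∧ res b e₁ = q.1 then res x h.choose else fun _ => 0
    refine (hfin.image F).subset ?_
    rintro e ⟨e₁, w, _, has, rfl⟩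
    refine ⟨(res b e₁, w), ⟨has.2.1 b hbU d.ctx.ab, Set.mem_univ w⟩, ?_⟩
    have h : ∃ e₂, As U a b C E lam mu cd Th e₂ w ∧ res b e₂ = res b e₁ := ⟨e₁, has, rfl⟩
    have hF : F (res b e₁, w) = res x h.choose := dif_pos h
    rw [hF]
    exact (as_iff d h.choose_spec.1 has hab.1 hab.2).mpr ⟨h.choose_spec.2, (f x).refl w⟩

theorem newE_map {L W : Type} [Lattice L] {U : Set L} {a b : L} {C : Set L}
    {r : L → ℝ} {t ε : ℝ} {E : L → Set (L → ℕ)} {f : L → Setoid W} {n : L → ℕ}
    {lam : L × L → (L → ℕ) → ℕ} {mu : L × L → W → ℕ} {cd : L → W → ℕ} {Th : Set W}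
    (d : Data U a b C r t ε E f n lam mu cd) {x y : L} (hx : x ∈ U ∪ Set.Icc a b) (hxy : x ≤ y) {e : L → ℕ}
    (he : e ∈ newE U a b C E lam mu cd Th x) : res y e ∈ newE U a b C E lam mu cd Th y := by
  by_cases hU : x ∈ U
  · rw [newE_of_mem hU] at he
    have hyU : y ∈ U := d.ctx.up x hU y hxy
    rw [newE_of_mem hyU]
    exact d.sys.map x hU y hyU hxy e he
  · have hab : a ≤ x ∧ x ≤ b := by
      rcases hx with h | h
      · exact absurd h hU
      · exact h
    rw [newE_of_not hU] at he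
    obtain ⟨e₁, w, ha, has, rfl⟩ := he
    by_cases hyU : y ∈ U
    · rw [newE_of_mem hyU, res_res hxy]
      exact has.2.1 y hyU (hab.1.trans hxy)
    · rw [newE_of_not hyU]
      exact ⟨e₁, w, ha, has, (res_res hxy e₁).symm⟩

theorem newE_supp {L W : Type} [Lattice L] {U : Set L} {a b : L} {C : Set L}
    {r : L → ℝ} {t ε : ℝ} {E : L → Set (L → ℕ)} {f : L → Setoid W} {n : L → ℕ}
    {lam : L × L → (L → ℕ) → ℕ} {mu : L × L → W → ℕ} {cd : L → W → ℕ} {Th : Set W}
    (d : Data U a b C r t ε E f n lam mu cd) {x : L} {e : L → ℕ}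
    (he : e ∈ newE U a b C E lam mu cd Th x) : res x e = e := by
  by_cases hU : x ∈ U
  · rw [newE_of_mem hU] at he
    exact d.sys.supp x hU e he
  · rw [newE_of_not hU] at he
    obtain ⟨e₁, w, _, _, rfl⟩ := he
    exact res_idem x e₁

end H41.SK
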