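import Pool.Agent.H41.SK.Def

/-! # SK.FinG : a complete system gives a nearly uniform representation (about 90 lines)

`V` = the subtype of `E a0`, `R x v w` iff `res x v = res x w`. Meets: `Sys.inf` applied to `res (x ⊓ y) v`, `res (x ⊓ y) w` in `E (x ⊓ y)` (`res_res`), and `res_mono`. Counts: for `p ≤ q` the map `v' ↦ res p v'` is a bijection from the classes of `R p` in the `R q`-class of `v` to `{e | e ∈ E p ∧ res q e = res q v}`: surjective, because every `e ∈ E p`
is `res p v'` for some `v' ∈ E a0` (`Sys.lo` for `a0 ≤ p`: `fib E a0 p e > 0`). So `cnt (R p) (R q) v = fib E p q (res q v)`, now `Sys.lo`, `Sys.hi`. -/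

namespace H41.SK

open H41.NU

private theorem fg_cnt {L : Type} [Lattice L] [Finite L] {r : L → ℝ} {t ε : ℝ} {E : L → Set (L → ℕ)}
    (hS : Sys Set.univ r t ε E) (a0 : L) (h0 : ∀ x, a0 ≤ x) {p q : L} (hpq : p ≤ q) (v : {e // e ∈ E a0}) :
    cnt (Setoid.ker (fun v : {e // e ∈ E a0} => res p v.1)) (Setoid.ker (fun v : {e // e ∈ E a0} => res q v.1)) v =
      fib E p q (res q v.1) := by
  unfold cnt ncl fib
  let φ : Quotient (Setoid.ker (fun v : {e // e ∈ E a0} => res p v.1)) → (L → ℕ) :=
    Quotient.lift (fun v : {e // e ∈ E a0} => res p v.1) (fun _ _ h => h)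
  have hφ : Function.Injective φ := by
    intro c c' h
    induction c using Quotient.inductionOn with
    | _ w =>
      induction c' using Quotient.inductionOn with
      | _ w' => exact Quotient.sound h
  rw [← Set.ncard_image_of_injective _ hφ, Set.image_image]
  congr 1
  ext e
  constructor
  · rintro ⟨w, hw, rfl⟩
    refine ⟨hS.map a0 trivial p trivial (h0 p) w.1 w.2, ?_⟩
    have h1 : res q v.1 = res q w.1 := hw
    change res q (res p w.1) = res q v.1
    rw [res_res hpq, h1]
  · rintro ⟨he, hq⟩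
    have h1 := hS.lo a0 trivial p trivial (h0 p) e he
    have h2 : 0 < fib E a0 p e := by
      have h3 : (0 : ℝ) < fib E a0 p e := lt_of_lt_of_le (Real.exp_pos _) h1
      exact_mod_cast h3
    unfold fib at h2
    obtain ⟨w, hw, hwp⟩ := Set.nonempty_of_ncard_ne_zero h2.ne'
    refine ⟨⟨w, hw⟩, ?_, hwp⟩
    change res q v.1 = res q w
    rw [← hq, ← hwp, res_res hpq]

theorem nearly_of_sys {L : Type} [Lattice L] [Finite L] {r : L → ℝ} {t ε : ℝ} {E : L → Set (L → ℕ)}
    (hS : Sys Set.univ r t ε E) (a0 : L) (h0 : ∀ x, a0 ≤ x) :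
    ∃ (V : Type) (_ : Finite V) (_ : Nonempty V) (R : L → Setoid V), Nearly Set.univ r t ε R := by
  have hne := hS.ne a0 trivial
  refine ⟨{e // e ∈ E a0}, (hS.fin a0 trivial).to_subtype, hne.to_subtype,
    fun x => Setoid.ker (fun v => res x v.1), ?_, ?_, ?_⟩
  · intro x _ y _
    ext v w
    constructor
    · intro h
      have h1 : res (x ⊓ y) v.1 = res (x ⊓ y) w.1 := h
      exact ⟨res_mono inf_le_left h1, res_mono inf_le_right h1⟩
    · rintro ⟨h1, h2⟩
      have h1' : res x v.1 = res x w.1 := h1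
      have h2' : res y v.1 = res y w.1 := h2
      refine hS.inf x trivial y trivial trivial _ (hS.map a0 trivial _ trivial (h0 _) v.1 v.2) _
        (hS.map a0 trivial _ trivial (h0 _) w.1 w.2) ?_ ?_
      · rw [res_res inf_le_left, res_res inf_le_left, h1']
      · rw [res_res inf_le_right, res_res inf_le_right, h2']
  · intro p _ q _ hpq v
    rw [fg_cnt hS a0 h0 hpq v]
    exact hS.lo p trivial q trivial hpq _ (hS.map a0 trivial q trivial (h0 q) v.1 v.2)
  · intro p _ q _ hpq v
    rw [fg_cnt hS a0 h0 hpq v]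
    exact hS.hi p trivial q trivial hpq _ (hS.map a0 trivial q trivial (h0 q) v.1 v.2)

end H41.SK
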