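import Pool.Agent.H41.SK.Def

/-! # SK.GC1 : joins of upper covers and meets of lower covers in a modular lattice (about 120 lines)

`⩿` is `WCovBy`: equal or covered. Claim (*): if `m ⋖ y` then there is `p` with `l ⋖ p`, `p ≤ y`, not `p ≤ m` (`l` = meet of `y` and its lower covers). Let `P` = the set of `p ≤ y` which are greatest lower bounds of some set of elements `z ⩿ y` (with `y` in the set) and not `≤ m`; `y ∈ P`. Let `p` be minimal in `P` (`L` finite). `p ⊓ m ⋖ p` since `p ⊔ m = y`, `m ⋖ y`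
(modular). For every `m' ⋖ y`: `p ⊓ m ≤ m'`: clear if `p ≤ m'`; otherwise `p ⊓ m' < p` is a meet of such elements, so by minimality `p ⊓ m' ≤ m`, and `p ⊓ m' ⋖ p` (`p ⊔ m' = y`), `p ⊓ m' ≤ p ⊓ m < p`, so `p ⊓ m' = p ⊓ m`. So `p ⊓ m ≤ l`, and `l ≤ p ⊓ m`, so `l = p ⊓ m ⋖ p`. Now let `s` be the join of `l` and all `p` with
`l ⋖ p ≤ y`; if `s < y` there is `m` with `s ≤ m ⋖ y`, a contradiction to (*). So `y = s`. Let `l ≤ x`. For every `p` with `l ⋖ p`: `l ≤ p ⊓ x ≤ p`, so `p ≤ x`, or `p ⊓ x = l ⋖ p` and then `x ⋖ x ⊔ p` (modular, `covBy_sup_of_inf_covBy_left` or similar); in both cases `x ⩿ x ⊔ p`, so `p ≤ x ⊔ p ≤ u`. So `y = s ≤ u`. (If it is easier: work with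
finite sets and `Finset.inf'`, or use `ComplementedLattice`/`IsAtomistic` for the interval `[l, y]`.) `le_of_lub` is `le_of_glb` in the dual lattice. -/

namespace H41.SK

open H41.NU

/-- claim (*) of the header -/
theorem gc1_star {L : Type} [Lattice L] [Finite L] [IsModularLattice L] {y l : L}
    (hl : IsGLB {z | z ⩿ y} l) {m : L} (hm : m ⋖ y) : ∃ p, l ⋖ p ∧ p ≤ y ∧ ¬ p ≤ m := by
  have hly : l ≤ y := hl.1 (show y ∈ {z | z ⩿ y} from WCovBy.refl y)
  have hlm : ∀ m' : L, m' ⋖ y → l ≤ m' := fun m' h => hl.1 (show m' ∈ {z | z ⩿ y} from h.wcovBy)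
  have hne : ({p | l ≤ p ∧ p ≤ y ∧ ¬ p ≤ m} : Set L).Nonempty :=
    ⟨y, hly, le_rfl, fun h => absurd (lt_of_le_of_lt h hm.lt) (lt_irrefl _)⟩
  obtain ⟨p, hp⟩ := (Set.toFinite {p | l ≤ p ∧ p ≤ y ∧ ¬ p ≤ m}).exists_minimal hne
  obtain ⟨⟨hlp, hpy, hpm⟩, hmin⟩ := hp
  have hcov : ∀ m' : L, m' ⋖ y → ¬ p ≤ m' → p ⊓ m' ⋖ p := by
    intro m' hm' hpm'
    have h1 : p ⊔ m' = y := by
      have h2 : m' < p ⊔ m' := lt_of_le_of_ne le_sup_right fun h => hpm' (h ▸ le_sup_left)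
      exact (eq_or_lt_of_le (sup_le hpy hm'.le)).resolve_right fun h4 => hm'.2 h2 h4
    have h3 : m' ⋖ p ⊔ m' := by rw [h1]; exact hm'
    exact inf_covBy_of_covBy_sup_right h3
  have hinf : ∀ m' : L, m' ⋖ y → p ⊓ m ≤ m' := by
    intro m' hm'
    by_cases hpm' : p ≤ m'
    · exact inf_le_left.trans hpm'
    · have h1 := hcov m' hm' hpm'
      have h2 : p ⊓ m' ≤ m := by
        by_contra hc
        have h3 : p ≤ p ⊓ m' :=
          hmin ⟨le_inf hlp (hlm m' hm'), inf_le_left.trans hpy, hc⟩ inf_le_left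
        exact absurd h1.lt (not_lt_of_ge h3)
      have h4 : p ⊓ m' ≤ p ⊓ m := le_inf inf_le_left h2
      have h5 : p ⊓ m < p := (hcov m hm hpm).lt
      have h6 : p ⊓ m' = p ⊓ m := by
        by_contra hc
        exact h1.2 (lt_of_le_of_ne h4 hc) h5
      rw [← h6]
      exact inf_le_right
  have hle : p ⊓ m ≤ l := by
    refine hl.2 ?_
    intro z hz
    rcases eq_or_lt_of_le (show z ≤ y from hz.le) with h | h
    · rw [h]
      exact inf_le_left.trans hpy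
    · exact hinf z (hz.covBy_of_lt h)
  have heq : l = p ⊓ m := le_antisymm (le_inf hlp (hlm m hm)) hle
  exact ⟨p, heq ▸ hcov m hm hpm, hpy, hpm⟩

theorem le_of_glb {L : Type} [Lattice L] [Finite L] [IsModularLattice L] {x y l u : L}
    (hl : IsGLB {z | z ⩿ y} l) (hu : IsLUB {z | x ⩿ z} u) (h : l ≤ x) : y ≤ u := by
  have hpu : ∀ p : L, l ⋖ p → p ≤ u := by
    intro p hp
    have h1 : l ≤ p ⊓ x := le_inf hp.le h
    rcases eq_or_lt_of_le (inf_le_left : p ⊓ x ≤ p) with h2 | h2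
    · have h3 : p ≤ x := inf_eq_left.mp h2
      exact h3.trans (hu.1 (show x ∈ {z | x ⩿ z} from WCovBy.refl x))
    · have h3 : p ⊓ x = l := by
        by_contra hc
        exact hp.2 (lt_of_le_of_ne h1 (Ne.symm hc)) h2
      have h4 : p ⊓ x ⋖ p := by rw [h3]; exact hp
      have h5 : x ⋖ p ⊔ x := covBy_sup_of_inf_covBy_left h4
      exact le_sup_left.trans (hu.1 (show p ⊔ x ∈ {z | x ⩿ z} from h5.wcovBy))
  by_contra hc
  have hlt : y ⊓ u < y := lt_of_le_of_ne inf_le_left fun h => hc (inf_eq_left.mp h)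
  obtain ⟨m, hm1, hm2⟩ := exists_le_covBy_of_lt hlt
  obtain ⟨p, hp1, hp2, hp3⟩ := gc1_star hl hm2
  exact hp3 ((le_inf hp2 (hpu p hp1)).trans hm1)

theorem le_of_lub {L : Type} [Lattice L] [Finite L] [IsModularLattice L] {x y l u : L}
    (hl : IsGLB {z | z ⩿ y} l) (hu : IsLUB {z | x ⩿ z} u) (h : y ≤ u) : l ≤ x := by
  have hl' : IsLUB {z : Lᵒᵈ | OrderDual.toDual y ⩿ z} (OrderDual.toDual l) := by
    constructor
    · intro z hz
      exact hl.1 (show OrderDual.ofDual z ∈ {z | z ⩿ y} from toDual_wcovBy_toDual_iff.mp hz)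
    · intro w hw
      exact hl.2 (fun z hz => hw (show OrderDual.toDual z ∈ {z : Lᵒᵈ | OrderDual.toDual y ⩿ z} from
        toDual_wcovBy_toDual_iff.mpr hz))
  have hu' : IsGLB {z : Lᵒᵈ | z ⩿ OrderDual.toDual x} (OrderDual.toDual u) := by
    constructor
    · intro z hz
      exact hu.1 (show OrderDual.ofDual z ∈ {z | x ⩿ z} from toDual_wcovBy_toDual_iff.mp hz)
    · intro w hw
      exact hu.2 (fun z hz => hw (show OrderDual.toDual z ∈ {z : Lᵒᵈ | z ⩿ OrderDual.toDual x} from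
        toDual_wcovBy_toDual_iff.mpr hz))
  exact le_of_glb (L := Lᵒᵈ) (x := OrderDual.toDual y) (y := OrderDual.toDual x) hu' hl' h

end H41.SK
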