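import Pool.Agent.H41.SK.Def

/-! # SK.Hgt : the height function of a finite modular lattice (about 120 lines)

`r x` = length of the longest chain below `x` (`Order.height x`, finite as `L` is finite; or any definition by recursion). (1) If `z ⋖ y` then `r y = r z + 1`, by induction on `y`: `r y = 1 + max` over the lower covers, and two different lower covers `z, z'` of `y` have `z ⊓ z' ⋖ z`, `z ⊓ z' ⋖ z'` (modular, `inf_covBy_of_covBy_sup_...`), so
`r z = r (z ⊓ z') + 1 = r z'`. (2) `r` is strictly increasing. (3) `r x + r y = r (x ⊔ y) + r (x ⊓ y)`: by induction on a chain from `x ⊓ y` to `y`: if `x ⊓ y ≤ z ⋖ z' ≤ y` then `x ⊔ z ⋖ x ⊔ z'` (the intervals `[x ⊓ y, y]` and `[x, x ⊔ y]` are isomorphic by `z ↦ x ⊔ z`: `infIccOrderIsoIccSup`), so both steps raise `r` by one. -/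

namespace H41.SK

open H41.NU

private lemma hgt_lt_top {L : Type} [Lattice L] [Finite L] (x : L) : Order.height x < ⊤ := by
  classical
  have : Fintype L := Fintype.ofFinite L
  have h : Order.height x ≤ (Fintype.card L : ℕ∞) := by
    refine Order.height_le (fun p _ => ?_)
    have := p.length_lt_card
    exact_mod_cast this.le
  exact lt_of_le_of_lt h (ENat.natCast_lt_top _)

private lemma hgt_cov {L : Type} [Lattice L] [Finite L] [IsModularLattice L] (y : L) :
    ∀ z, z ⋖ y → Order.height y = Order.height z + 1 := by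
  induction y using WellFoundedLT.induction with
  | _ y ih =>
    intro z hz
    refine le_antisymm ?_ (Order.height_add_one_le hz.lt)
    rw [Order.height_eq_iSup_lt_height]
    refine iSup₂_le (fun w hw => ?_)
    obtain ⟨z', hwz', hz'⟩ := exists_le_covBy_of_lt hw
    refine (add_le_add_left (Order.height_mono hwz') 1).trans ?_
    by_cases he : z' = z
    · rw [he]
    · have hs : z ⊔ z' = y := by
        rcases hz.eq_or_eq le_sup_left (sup_le hz.le hz'.le) with h | h
        · exfalso
          have h1 : z' ≤ z := by rw [← h]; exact le_sup_right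
          rcases hz'.eq_or_eq h1 hz.le with h2 | h2
          · exact he h2.symm
          · exact hz.lt.ne h2
        · exact h
      have h1 : z ⊓ z' ⋖ z' := by
        apply IsLowerModularLattice.inf_covBy_of_covBy_sup
        rw [hs]; exact hz
      have h2 : z ⊓ z' ⋖ z := by
        rw [inf_comm]
        apply IsLowerModularLattice.inf_covBy_of_covBy_sup
        rw [sup_comm, hs]; exact hz'
      rw [ih z' hz'.lt _ h1, ih z hz.lt _ h2]

private noncomputable def hgt {L : Type} [Lattice L] (x : L) : ℝ := ((Order.height x).toNat : ℝ)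

private lemma hgt_cov' {L : Type} [Lattice L] [Finite L] [IsModularLattice L] {x y : L} (h : x ⋖ y) :
    hgt y = hgt x + 1 := by
  have h1 := hgt_cov y x h
  have hx := hgt_lt_top x
  unfold hgt
  rw [h1, ENat.toNat_add hx.ne (by simp)]
  simp

private lemma hgt_lt {L : Type} [Lattice L] [Finite L] {x y : L} (h : x < y) : hgt x < hgt y := by
  have h1 := Order.height_add_one_le h
  have hx := hgt_lt_top x
  have hy := hgt_lt_top y
  have h2 : (Order.height x + 1).toNat ≤ (Order.height y).toNat := ENat.toNat_le_toNat h1 hy.ne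
  rw [ENat.toNat_add hx.ne (by simp)] at h2
  unfold hgt
  have h3 : (Order.height x).toNat < (Order.height y).toNat := by
    simp only [ENat.toNat_one] at h2
    omega
  exact_mod_cast h3

private lemma hgt_step {L : Type} [Lattice L] [Finite L] [IsModularLattice L] (x y : L) (z : L) :
    x ⊓ y ≤ z → z ≤ y → hgt (x ⊔ z) - hgt x = hgt z - hgt (x ⊓ y) := by
  induction z using WellFoundedLT.induction with
  | _ z ih =>
    intro h1 h2
    rcases eq_or_lt_of_le h1 with h | h
    · rw [← h, sup_eq_left.2 inf_le_left]
      ring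
    · obtain ⟨z', hz1, hz2⟩ := exists_le_covBy_of_lt h
      have h3 := ih z' hz2.lt hz1 (hz2.le.trans h2)
      have hm : (x ⊔ z') ⊓ z = z' := by
        have h4 : (z' ⊔ x) ⊓ z = z' ⊔ x ⊓ z := sup_inf_assoc_of_le x hz2.le
        rw [sup_comm, h4]
        exact sup_eq_left.2 ((inf_le_inf_left x h2).trans hz1)
      have h5 : x ⊔ z' ⋖ x ⊔ z := by
        have h6 : z ⊓ (x ⊔ z') ⋖ z := by rw [inf_comm, hm]; exact hz2
        have h7 := IsUpperModularLattice.covBy_sup_of_inf_covBy h6
        have h8 : z ⊔ (x ⊔ z') = x ⊔ z := by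
          rw [sup_left_comm, sup_eq_left.2 hz2.le]
        rw [h8] at h7
        exact h7
      have h9 := hgt_cov' h5
      have h10 := hgt_cov' hz2
      linarith

theorem exists_height (L : Type) [Lattice L] [Finite L] [IsModularLattice L] :
    ∃ r : L → ℝ, Val Set.univ r ∧ ∀ x y, x ⋖ y → r y = r x + 1 := by
  refine ⟨hgt, ⟨fun x _ y _ h => hgt_lt h, fun x _ y _ => ?_⟩, fun x y h => hgt_cov' h⟩
  have h := hgt_step x y y inf_le_right le_rfl
  linarith

end H41.SK
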