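import Pool.Agent.H41.SK.Skl

/-! # SK.Idx : combinatorics of a skeleton (about 80 lines)

`F ⊆ A` is closed upwards in `A`, `a ∈ A` is not in `F`, all greater elements of `A` are in `F`. (0) If `a ≤ z` then `z ≤ β a` or `z ∈ UF F m` (`cov`, `hmax`). (1) `β a ∈ UF F m`: `cov` for `z = m`: `m ≤ β a`, so `β a = m`, or there is `a' ∈ A`, `a < a' ≤ β a`, so `a' ∈ F`. `Ctx.cov`: let `z ∈ UF F m`, `a ≤ z`. If `z = m` take
`c = β a`. If `a' ≤ z`, `a' ∈ F`: `a'' = a ⊔ a' ∈ A`, `a'' ≤ z`, `a < a''` (otherwise `a' ≤ a` and `a ∈ F`); `cov` for `a''`: `a'' ≤ β a` (take `c = a''`) or there is `a₃ ∈ A` with `a < a₃ ≤ β a`, `a₃ ≤ a''`. `Ctx.sup`: `c ⊔ β a = β a`. `Ctx.dist`: for `c = β a` all three elements are `β a`. `uf_insert`: by (0). `ov_of_jt`: for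
`z ∈ JT (CF A β a) (β a)`: `c ≤ z.1 < z.2 ≤ β a`, so `c ≠ β a`, `c ∈ A`, `a < c`; `z.1 ⋖ z.2` as `z.1 < y ≤ β a` implies `z.2 ≤ y`. `ov_new`: `a' < a'' ≤ z.1`, `z.2 ≤ β a'`; `a ⊔ a'' ∈ A` is `≤ z.1`, so not in `F` (`z.1 ∉ UF F m`), so not greater than `a`, so `a'' ≤ a`, `β a' ≤ β a` by `mono`. -/

namespace H41.SK

open H41.NU

theorem ctx_of_skel {L : Type} [Lattice L] {A : Set L} {β : L → L} (hs : Skel A β) {m : L} (hm : ∀ x, x ≤ m)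
    {F : Set L} (hFA : F ⊆ A) (hF : ∀ a ∈ F, ∀ a' ∈ A, a ≤ a' → a' ∈ F) {a : L} (aA : a ∈ A) (aF : a ∉ F)
    (hmax : ∀ a' ∈ A, a < a' → a' ∈ F) : Ctx (UF F m) a (β a) (CF A β a) := by
  have hb : β a ∈ UF F m := by
    rcases hs.cov a aA m (hm a) with h | ⟨a', ha', h1, h2, _⟩
    · exact Or.inl (le_antisymm (hm _) h)
    · exact Or.inr ⟨a', hmax a' ha' h1, h2⟩
  refine ⟨?_, hs.le a aA, Or.inl rfl, ?_, ?_, ?_, ?_, ?_⟩
  · rintro x (rfl | ⟨a', ha', h⟩) y hxy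
    · exact Or.inl (le_antisymm (hm y) hxy)
    · exact Or.inr ⟨a', ha', h.trans hxy⟩
  · rintro c (rfl | ⟨hc, h1, h2⟩)
    · exact ⟨hb, hs.le a aA, le_rfl⟩
    · exact ⟨Or.inr ⟨c, hmax c hc h1, le_rfl⟩, h1.le, h2⟩
  · rintro c (rfl | ⟨hc, h1, h2⟩) c' (rfl | ⟨hc', h1', h2'⟩)
    · exact Or.inl (sup_idem _)
    · exact Or.inl (sup_eq_left.2 h2')
    · exact Or.inl (sup_eq_right.2 h2)
    · exact Or.inr ⟨hs.sup c hc c' hc', h1.trans_le le_sup_left, sup_le h2 h2'⟩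
  · rintro z (rfl | ⟨a', ha', h⟩) haz
    · exact ⟨β a, Or.inl rfl, hm _⟩
    · have h3 : a ⊔ a' ∈ A := hs.sup a aA a' (hFA ha')
      have h4 : a < a ⊔ a' := by
        refine lt_of_le_of_ne le_sup_left fun h5 => aF ?_
        exact hF a' ha' a aA (by rw [h5]; exact le_sup_right)
      have h5 : a ⊔ a' ≤ z := sup_le haz h
      rcases hs.cov a aA (a ⊔ a') h4.le with h6 | ⟨a₃, ha₃, h6, h7, h8⟩
      · exact ⟨a ⊔ a', Or.inr ⟨h3, h4, h6⟩, h5⟩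
      · exact ⟨a₃, Or.inr ⟨ha₃, h6, h7⟩, h8.trans h5⟩
  · intro z haz
    rcases hs.cov a aA z haz with h | ⟨a', ha', h1, _, h3⟩
    · exact Or.inl h
    · exact Or.inr (Or.inr ⟨a', hmax a' ha' h1, h3⟩)
  · rintro c (rfl | ⟨hc, h1, h2⟩) x y z hx hx' hy hy' hz hz'
    · rw [le_antisymm hx' hx, le_antisymm hy' hy, le_antisymm hz' hz]
      simp
    · exact hs.dist a aA c hc h1 h2 x y z hx hx' hy hy' hz hz'

theorem uf_insert {L : Type} [Lattice L] {A : Set L} {β : L → L} (hs : Skel A β) {m : L}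
    {F : Set L} {a : L} (aA : a ∈ A) (hmax : ∀ a' ∈ A, a < a' → a' ∈ F) :
    UF (insert a F) m = UF F m ∪ Set.Icc a (β a) := by
  ext x
  constructor
  · rintro (rfl | ⟨a', (rfl | ha'), h⟩)
    · exact Or.inl (Or.inl rfl)
    · rcases hs.cov a' aA x h with h1 | ⟨a₂, ha₂, h2, _, h4⟩
      · exact Or.inr ⟨h, h1⟩
      · exact Or.inl (Or.inr ⟨a₂, hmax a₂ ha₂ h2, h4⟩)
    · exact Or.inl (Or.inr ⟨a', ha', h⟩)
  · rintro ((rfl | ⟨a', ha', h⟩) | h)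
    · exact Or.inl rfl
    · exact Or.inr ⟨a', Set.mem_insert_of_mem _ ha', h⟩
    · exact Or.inr ⟨a, Set.mem_insert _ _, h.1⟩

theorem ov_of_jt {L : Type} [Lattice L] {A : Set L} {β : L → L} {a : L} (aA : a ∈ A) {z : L × L}
    (hz : z ∈ JT (CF A β a) (β a)) : z ∈ Ov A β := by
  obtain ⟨⟨c, hc, hcz⟩, h1, h2, h3⟩ := hz
  rcases hc with rfl | ⟨hcA, h4, _⟩
  · exact absurd (hcz.trans_lt (h1.trans_le h2)) (lt_irrefl _)
  · refine ⟨⟨h1, fun y hy hy' => ?_⟩, a, aA, c, hcA, h4, hcz, h2⟩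
    exact absurd (h3 y (hy'.le.trans h2) hy) (not_le_of_gt hy')

theorem ov_new {L : Type} [Lattice L] {A : Set L} {β : L → L} (hs : Skel A β) {m : L}
    {F : Set L} {a : L} (aA : a ∈ A) (hmax : ∀ a' ∈ A, a < a' → a' ∈ F) {z : L × L} (hz : z ∈ Ov A β)
    (h1 : a ≤ z.1) (h2 : z.1 ∉ UF F m) : z.2 ≤ β a := by
  obtain ⟨_, a', ha', a'', ha'', h3, h4, h5⟩ := hz
  have h6 : a ⊔ a'' ∈ A := hs.sup a aA a'' ha''
  have h7 : ¬ a < a ⊔ a'' := fun h8 => h2 (Or.inr ⟨a ⊔ a'', hmax _ h6 h8, sup_le h1 h4⟩)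
  have h8 : a'' ≤ a := by
    by_contra h9
    exact h7 (left_lt_sup.2 h9)
  exact h5.trans (hs.mono a' ha' a aA (h3.le.trans h8))

end H41.SK
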