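import Pool.Agent.H41.SK.Def

/-! # SK.Num : numbers of labels (about 60 lines)

With `ε1 = δ0 / 8`, `s = t ω ≥ t g`: for large `t` `exp (-(t g)) ≤ δ0 / 2`, `t g > ε1`, `t g - ε1 ≥ log 2`. `k = ⌊exp (s - ε1)⌋₊ ≥ exp (s - ε1) - 1`. (i) `k x ≤ exp (s - ε1) x ≤ y`. (ii) `(1 - δ0) y ≤ (1 - δ0) exp (s + ε1) x` and `(1 - δ0) exp (s + ε1) ≤ exp (s - ε1) - 1`: divide by `exp (s + ε1)`:
`1 - δ0 ≤ 1 - 2 ε1 - δ0 / 2 ≤ exp (-2 ε1) - exp (-s - ε1)`. -/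

namespace H41.SK

open H41.NU

theorem num_labels {g δ0 : ℝ} (hg : 0 < g) (h0 : 0 < δ0) (h1 : δ0 ≤ 1) :
    ∃ T : ℝ, 1 ≤ T ∧ ∀ t, T ≤ t → ∀ ω, g ≤ ω → δ0 / 8 < t * ω ∧ 0 < ⌊Real.exp (t * ω - δ0 / 8)⌋₊ ∧
      ∀ x y : ℕ, Real.exp (t * ω - δ0 / 8) * x ≤ y → (y : ℝ) ≤ Real.exp (t * ω + δ0 / 8) * x →
        ⌊Real.exp (t * ω - δ0 / 8)⌋₊ * x ≤ y ∧ (1 - δ0) * y ≤ (⌊Real.exp (t * ω - δ0 / 8)⌋₊ : ℝ) * x := by
  refine ⟨max 1 (2 / (δ0 * g)), le_max_left _ _, ?_⟩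
  intro t ht ω hω
  have ht1 : 1 ≤ t := (le_max_left _ _).trans ht
  have ht2 : 2 / (δ0 * g) ≤ t := (le_max_right _ _).trans ht
  have hu : 2 / δ0 ≤ t * g := by
    rw [div_le_iff₀ (by positivity)] at ht2 ⊢
    linarith [mul_comm δ0 g, mul_assoc t g δ0]
  have hs : 2 / δ0 ≤ t * ω := hu.trans (mul_le_mul_of_nonneg_left hω (by linarith))
  have h2 : 2 ≤ 2 / δ0 := by
    rw [le_div_iff₀ h0]; linarith
  generalize t * ω = s at hs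
  have hs2 : 2 ≤ s := h2.trans hs
  have hE1 : 1 ≤ Real.exp (s - δ0 / 8) := Real.one_le_exp (by linarith)
  refine ⟨by linarith, Nat.floor_pos.2 hE1, ?_⟩
  intro x y hxy hyx
  have hx0 : (0 : ℝ) ≤ x := Nat.cast_nonneg _
  have hfl : (⌊Real.exp (s - δ0 / 8)⌋₊ : ℝ) ≤ Real.exp (s - δ0 / 8) := Nat.floor_le (Real.exp_pos _).le
  have hfl2 : Real.exp (s - δ0 / 8) - 1 ≤ (⌊Real.exp (s - δ0 / 8)⌋₊ : ℝ) := by
    have := Nat.lt_floor_add_one (Real.exp (s - δ0 / 8))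
    linarith
  constructor
  · have h3 : ((⌊Real.exp (s - δ0 / 8)⌋₊ * x : ℕ) : ℝ) ≤ (y : ℝ) := by
      push_cast
      exact (mul_le_mul_of_nonneg_right hfl hx0).trans hxy
    exact_mod_cast h3
  · have hP : 0 < Real.exp (s + δ0 / 8) := Real.exp_pos _
    have hP2 : 2 / δ0 ≤ Real.exp (s + δ0 / 8) := by
      have := Real.add_one_le_exp (s + δ0 / 8)
      linarith
    have hP3 : 1 ≤ Real.exp (s + δ0 / 8) * (δ0 / 2) := by
      have h4 := mul_le_mul_of_nonneg_right hP2 (show 0 ≤ δ0 / 2 by positivity)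
      have h5 : 2 / δ0 * (δ0 / 2) = 1 := by field_simp
      linarith
    have hE : Real.exp (s + δ0 / 8) * (1 - δ0 / 4) ≤ Real.exp (s - δ0 / 8) := by
      have h6 : Real.exp (s - δ0 / 8) = Real.exp (s + δ0 / 8) * Real.exp (-(δ0 / 4)) := by
        rw [← Real.exp_add]; congr 1; ring
      rw [h6]
      refine mul_le_mul_of_nonneg_left ?_ hP.le
      have := Real.add_one_le_exp (-(δ0 / 4))
      linarith
    have hmain : (1 - δ0) * Real.exp (s + δ0 / 8) ≤ Real.exp (s - δ0 / 8) - 1 := by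
      nlinarith
    calc (1 - δ0) * (y : ℝ) ≤ (1 - δ0) * (Real.exp (s + δ0 / 8) * x) :=
          mul_le_mul_of_nonneg_left hyx (by linarith)
      _ = ((1 - δ0) * Real.exp (s + δ0 / 8)) * x := by ring
      _ ≤ (Real.exp (s - δ0 / 8) - 1) * x := mul_le_mul_of_nonneg_right hmain hx0
      _ ≤ (⌊Real.exp (s - δ0 / 8)⌋₊ : ℝ) * x := mul_le_mul_of_nonneg_right hfl2 hx0

end H41.SK
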