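import Pool.Agent.H41.SK.Step
import Pool.Agent.H41.SK.Idx
import Pool.Agent.H41.SK.Base
import Pool.Agent.H41.SK.Num
import Pool.Agent.H41.SK.FinG
import Pool.Agent.H41.NU.GG

/-! # SK.Ind : the skeleton theorem -/

namespace H41.SK

open H41.NU

theorem Sys.weaken {L : Type} [Lattice L] {U : Set L} {r : L → ℝ} {t ε ε' : ℝ} {E : L → Set (L → ℕ)}
    (h : Sys U r t ε E) (he : ε ≤ ε') : Sys U r t ε' E :=
  ⟨h.fin, h.ne, h.supp, h.map, h.inf,
    fun p hp q hq pq g hg => (Real.exp_le_exp.2 (by linarith)).trans (h.lo p hp q hq pq g hg),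
    fun p hp q hq pq g hg => (h.hi p hp q hq pq g hg).trans (Real.exp_le_exp.2 (by linarith))⟩

theorem exists_gap2 {L : Type} [Lattice L] [Finite L] {r : L → ℝ} (hr : Val Set.univ r) :
    ∃ g : ℝ, 0 < g ∧ ∀ p q : L, p < q → g ≤ r q - r p := by
  by_cases hs : {z : L × L | z.1 < z.2}.Nonempty
  · obtain ⟨z, hz, hmin⟩ := Set.exists_min_image {z : L × L | z.1 < z.2} (fun z => r z.2 - r z.1)
      (Set.toFinite _) hs
    refine ⟨r z.2 - r z.1, ?_, fun p q hpq => hmin (p, q) hpq⟩
    have := hr.lt _ (Set.mem_univ _) _ (Set.mem_univ _) hz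
    linarith
  · exact ⟨1, one_pos, fun p q hpq => absurd ⟨(p, q), hpq⟩ hs⟩

theorem exists_bound {L : Type} [Lattice L] [Finite L] [Nonempty L] (r : L → ℝ) :
    ∃ G : ℝ, ∀ p q : L, r q - r p ≤ G := by
  obtain ⟨z, hz⟩ := Finite.exists_max (fun z : L × L => r z.2 - r z.1)
  exact ⟨r z.2 - r z.1, fun p q => hz (p, q)⟩

theorem good_skel {L : Type} [Lattice L] [Finite L] {r : L → ℝ} (hr : Val Set.univ r) {A : Set L} {β : L → L}
    (hs : Skel A β) {m a0 : L} (hm : ∀ x, x ≤ m) (h0 : ∀ x, a0 ≤ x) (ha0 : a0 ∈ A)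
    (hblk : ∀ a ∈ A, Exact a (β a) r) : Good L r := by
  classical
  have := Fintype.ofFinite L
  have hne : Nonempty L := ⟨a0⟩
  -- the data of the blocks
  have hblk' : ∀ a : L, ∃ F : Finset ℝ, a ∈ A → ∀ ε : ℝ, 0 < ε → ∃ η : ℝ, 0 < η ∧ ∀ t : ℝ, 1 / η ≤ t →
      (∀ β' ∈ F, ∃ n : ℤ, |t * β' - n| ≤ η) →
      ∃ (W : Type) (_ : Finite W) (_ : Nonempty W) (f : L → Setoid W) (n : L → ℕ),
        Blk a (β a) f n ∧ Near a (β a) r t ε n := by
    intro a
    by_cases ha : a ∈ A
    · obtain ⟨F, hF⟩ := hblk a ha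
      exact ⟨F, fun _ => hF⟩
    · exact ⟨∅, fun h => absurd h ha⟩
  choose F hF using hblk'
  refine ⟨inferInstance, hr, Finset.univ.biUnion F, ?_⟩
  intro ε hε
  -- parameters
  set K : ℝ := (Nat.card L : ℝ) + Nat.card (L × L) with hK
  have hL1 : (1 : ℝ) ≤ Nat.card L := by
    have : 0 < Nat.card L := Nat.card_pos
    exact_mod_cast this
  have hLL : (0 : ℝ) ≤ Nat.card (L × L) := Nat.cast_nonneg _
  have hK1 : 1 ≤ K := by linarith
  set R : ℝ := 2 + 4 * K with hR
  have hR1 : 1 ≤ R := by linarith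
  set N : ℕ := Nat.card L with hN
  have hRN : 0 < R ^ N := by positivity
  set ε0 : ℝ := min (min (ε / R ^ N) (1 / (4 * K * R ^ N))) 1 with hε0
  have e0 : 0 < ε0 := lt_min (lt_min (by positivity) (by positivity)) one_pos
  have e01 : ε0 ≤ 1 := min_le_right _ _
  have e1 : R ^ N * ε0 ≤ ε := by
    have h1 : ε0 ≤ ε / R ^ N := (min_le_left _ _).trans (min_le_left _ _)
    rw [le_div_iff₀ hRN] at h1
    linarith
  have e2 : K * (2 * (R ^ N * ε0)) ≤ 1 / 2 := by
    have h1 : ε0 ≤ 1 / (4 * K * R ^ N) := (min_le_left _ _).trans (min_le_right _ _)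
    rw [le_div_iff₀ (by positivity)] at h1
    linarith
  obtain ⟨x₀, hx₀, hx⟩ := exists_small ε0 e0
  set δ0 : ℝ := min x₀ ε0 with hδ0
  have d0 : 0 < δ0 := lt_min hx₀ e0
  have d1 : δ0 ≤ ε0 := min_le_right _ _
  have d01 : δ0 ≤ 1 := d1.trans e01
  have d2 : δ0 ^ ε0 ≤ 1 / 4 := hx δ0 d0 (min_le_left _ _)
  obtain ⟨g, hg, hgap⟩ := exists_gap2 hr
  obtain ⟨G, hG⟩ := exists_bound r
  obtain ⟨T1, hT11, hT1⟩ := num_labels hg d0 d01
  obtain ⟨T2, hT21, hT2⟩ := exists_large (Nat.card L) G g (by linarith) hg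
  have hη : ∀ a : L, ∃ η : ℝ, 0 < η ∧ (a ∈ A → ∀ t : ℝ, 1 / η ≤ t →
      (∀ β' ∈ F a, ∃ n : ℤ, |t * β' - n| ≤ η) →
      ∃ (W : Type) (_ : Finite W) (_ : Nonempty W) (f : L → Setoid W) (n : L → ℕ),
        Blk a (β a) f n ∧ Near a (β a) r t (δ0 / 8) n) := by
    intro a
    by_cases ha : a ∈ A
    · obtain ⟨η, h1, h2⟩ := hF a ha (δ0 / 8) (by positivity)
      exact ⟨η, h1, fun _ => h2⟩
    · exact ⟨1, one_pos, fun h => absurd h ha⟩
  choose ηf hηf hηf' using hη
  obtain ⟨a1, ha1⟩ := Finite.exists_min ηf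
  set η : ℝ := min (ηf a1) (min (1 / T1) (1 / T2)) with hηd
  have hT1p : 0 < T1 := by linarith
  have hT2p : 0 < T2 := by linarith
  have η0 : 0 < η := lt_min (hηf a1) (lt_min (by positivity) (by positivity))
  refine ⟨η, η0, ?_⟩
  intro t ht hFt
  have tT1 : T1 ≤ t := by
    have h1 := (one_div_le_one_div_of_le η0 ((min_le_right _ _).trans (min_le_left _ _))).trans ht
    rwa [one_div_one_div] at h1
  have tT2 : T2 ≤ t := by
    have h1 := (one_div_le_one_div_of_le η0 ((min_le_right _ _).trans (min_le_right _ _))).trans ht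
    rwa [one_div_one_div] at h1
  have ht1 : 1 ≤ t := hT11.trans tT1
  have hB : ∀ a ∈ A, ∃ (W : Type) (_ : Finite W) (_ : Nonempty W) (f : L → Setoid W) (n : L → ℕ),
        Blk a (β a) f n ∧ Near a (β a) r t (δ0 / 8) n := by
    intro a ha
    have h1 : η ≤ ηf a := (min_le_left _ _).trans (ha1 a)
    refine hηf' a ha t ((one_div_le_one_div_of_le η0 h1).trans ht) ?_
    intro β' hβ'
    obtain ⟨n, hn⟩ := hFt β' (Finset.mem_biUnion.2 ⟨a, Finset.mem_univ _, hβ'⟩)
    exact ⟨n, hn.trans h1⟩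
  set kk : L × L → ℕ := fun z => ⌊Real.exp (t * (r z.2 - r z.1) - δ0 / 8)⌋₊ with hkk
  have main : ∀ j : ℕ, ∀ S : Set L, S ⊆ A → (∀ a ∈ S, ∀ a' ∈ A, a ≤ a' → a' ∈ S) → S.ncard = j → j ≤ N →
      ∃ E : L → Set (L → ℕ), Sys (UF S m) r t (R ^ j * ε0) E ∧
        ∀ z ∈ Ov A β, z.1 ∈ UF S m → ∀ g ∈ E z.2, fib E z.1 z.2 g ≤ kk z := by
    intro j
    induction j with
    | zero =>
      intro S _ _ hS0 _
      have hS : S = ∅ := (Set.ncard_eq_zero (Set.toFinite S)).1 hS0
      have hU : UF S m = {m} := by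
        ext x
        simp [UF, hS]
      refine ⟨fun _ => {(fun _ => 0 : L → ℕ)}, ?_, ?_⟩
      · rw [hU]
        exact sys_top (by positivity)
      · intro z hz hz1
        rw [hU] at hz1
        have h1 : z.1 = m := hz1
        exact absurd (h1 ▸ hm z.2) (not_le_of_gt hz.1.lt)
    | succ j ih =>
      intro S hSA hSup hSj hjN
      have hSne : S.Nonempty := by
        rw [← Set.ncard_pos (Set.toFinite S)]
        omega
      obtain ⟨a, haS, hamin⟩ := (Set.toFinite S).exists_minimal hSne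
      have hamin' : ∀ x ∈ S, x ≤ a → x = a := fun x hx hxa => le_antisymm hxa (hamin hx hxa)
      have aA : a ∈ A := hSA haS
      have hF'A : S \ {a} ⊆ A := fun x hx => hSA hx.1
      have hF'up : ∀ x ∈ S \ {a}, ∀ y ∈ A, x ≤ y → y ∈ S \ {a} := by
        intro x hx y hy hxy
        refine ⟨hSup x hx.1 y hy hxy, ?_⟩
        intro hya
        rw [Set.mem_singleton_iff] at hya
        exact hx.2 (hamin' x hx.1 (hya ▸ hxy))
      have hmax : ∀ a' ∈ A, a < a' → a' ∈ S \ {a} := fun a' ha' haa' =>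
        ⟨hSup a haS a' ha' haa'.le, fun h => haa'.ne' h⟩
      have haF : a ∉ S \ {a} := fun h => h.2 rfl
      have hcard : (S \ {a}).ncard = j := by
        rw [Set.ncard_diff_singleton_of_mem haS, hSj]
        rfl
      obtain ⟨E, hE, hsz⟩ := ih (S \ {a}) hF'A hF'up hcard (by omega)
      have hc := ctx_of_skel hs hm hF'A hF'up aA haF hmax
      obtain ⟨W, fW, nW, f, n, hb, hn⟩ := hB a aA
      have hUF : UF S m = UF (S \ {a}) m ∪ Set.Icc a (β a) := by
        rw [← uf_insert hs aA hmax, Set.insert_diff_singleton, Set.insert_eq_of_mem haS]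
      have hnum : ∀ x y, a ≤ x → x < y → y ≤ β a → δ0 / 8 < t * (r y - r x) ∧ 0 < kk (x, y) ∧
          kk (x, y) * n x ≤ n y ∧ (1 - δ0) * n y ≤ (kk (x, y) : ℝ) * n x := by
        intro x y h1 h2 h3
        obtain ⟨h4, h5, h6⟩ := hT1 t tT1 (r y - r x) (hgap x y h2)
        obtain ⟨h7, h8⟩ := hn x y h1 h2.le h3
        obtain ⟨h9, h10⟩ := h6 (n x) (n y) h7 h8
        exact ⟨h4, h5, h9, h10⟩
      have hlt : ∀ x y, a ≤ x → x < y → y ≤ β a → n x < n y := by
        intro x y h1 h2 h3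
        obtain ⟨h4, -⟩ := hnum x y h1 h2 h3
        have h5 := (hn x y h1 h2.le h3).1
        have h6 : (0 : ℝ) < n x := by exact_mod_cast hb.pos h1 (h2.le.trans h3)
        have h7 : (1 : ℝ) < Real.exp (t * (r y - r x) - δ0 / 8) := by
          rw [← Real.exp_zero]
          exact Real.exp_lt_exp.2 (by linarith)
        have h8 : (n x : ℝ) < n y := by nlinarith
        exact_mod_cast h8
      have hRj : 1 ≤ R ^ j := one_le_pow₀ hR1
      have hRjN : R ^ j ≤ R ^ N := pow_le_pow_right₀ hR1 (by omega)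
      have hεj : ε0 ≤ R ^ j * ε0 := by nlinarith
      have hεjN : R ^ j * ε0 ≤ R ^ N * ε0 := mul_le_mul_of_nonneg_right hRjN e0.le
      obtain ⟨E', h1, h2, h3⟩ := step (ε1 := δ0 / 8) (δ0 := δ0) hr hc hE hb hn hlt (by
          intro z hz g' hg'
          obtain ⟨⟨c, cC, cz⟩, hz12, hz2, _⟩ := id hz
          obtain ⟨c1, c2, c3⟩ := hc.CU c cC
          have h4 := hsz z (ov_of_jt aA hz) (hc.up c c1 _ cz) g' hg'
          exact (Nat.mul_le_mul_right _ h4).trans (hnum z.1 z.2 (c2.trans cz) hz12 hz2).2.2.1)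
        {z | z ∈ Ov A β ∧ a ≤ z.1 ∧ z.1 ∉ UF (S \ {a}) m} (by
          rintro z ⟨h4, h5, h6⟩
          exact ⟨h5, h6, h4.1, ov_new hs aA hmax h4 h5 h6⟩) kk
        (by
          rintro z ⟨h4, h5, h6⟩
          exact (hnum z.1 z.2 h5 h4.1.lt (ov_new hs aA hmax h4 h5 h6)).2.1)
        (by
          rintro z ⟨h4, h5, h6⟩
          exact (hnum z.1 z.2 h5 h4.1.lt (ov_new hs aA hmax h4 h5 h6)).2.2.1)
        (by
          rintro z ⟨h4, h5, h6⟩
          exact (hnum z.1 z.2 h5 h4.1.lt (ov_new hs aA hmax h4 h5 h6)).2.2.2)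
        d0 d01 (d1.trans hεj) (by
          refine le_trans ?_ d2
          exact Real.rpow_le_rpow_of_exponent_ge d0 d01 hεj)
        (by
          intro m' y am' hm'y yb i hi
          have ab := hc.ab
          have n1 := hb.pos am' (hm'y.le.trans yb)
          have n2 := hb.pos le_rfl ab
          have h4 := (hn m' y am' hm'y.le yb).1
          have h5 : Real.exp (g * t - 1) ≤ i := by
            have h6 : (0 : ℝ) < n m' := by exact_mod_cast n1
            have h7 : Real.exp (t * (r y - r m') - δ0 / 8) ≤ i := by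
              have h8 : (i : ℝ) * n m' = n y := by exact_mod_cast hi
              rw [← h8] at h4
              exact le_of_mul_le_mul_right h4 h6
            refine le_trans (Real.exp_le_exp.2 ?_) h7
            have h9 := hgap m' y hm'y
            nlinarith
          have h6 := hT2 t tT2 i h5
          refine lt_of_le_of_lt ?_ h6
          apply mul_le_mul_of_nonneg_right ?_ (by positivity)
          apply mul_le_mul_of_nonneg_left ?_ (by positivity)
          have h7 := (hn a (β a) le_rfl ab le_rfl).2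
          have h8 : (0 : ℝ) < n a := by exact_mod_cast n2
          rw [div_le_iff₀ h8]
          refine h7.trans (mul_le_mul_of_nonneg_right (Real.exp_le_exp.2 ?_) h8.le)
          have h9 := hG a (β a)
          nlinarith)
        (by positivity) (by linarith) (by
          rw [← hK]
          have : K * (2 * (R ^ j * ε0)) ≤ K * (2 * (R ^ N * ε0)) := by
            apply mul_le_mul_of_nonneg_left _ (by linarith)
            linarith
          linarith)
      refine ⟨E', ?_, ?_⟩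
      · rw [hUF, pow_succ]
        rw [← hK, ← hR] at h1
        have e3 : R ^ j * R * ε0 = R * (R ^ j * ε0) := by ring
        rw [e3]
        exact h1
      · intro z hz hz1 g' hg'
        by_cases hzU : z.1 ∈ UF (S \ {a}) m
        · have hz2 := hc.up _ hzU z.2 hz.1.le
          have e3 : fib E' z.1 z.2 g' = fib E z.1 z.2 g' := by
            unfold fib
            rw [h2 _ hzU]
          rw [e3]
          rw [h2 _ hz2] at hg'
          exact hsz z hz hzU g' hg'
        · rw [hUF] at hz1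
          have hzI := hz1.resolve_left hzU
          exact h3 z ⟨hz, hzI.1, hzU⟩ g' hg'
  obtain ⟨E, hE, -⟩ := main A.ncard A subset_rfl (fun _ _ a' ha' _ => ha') rfl (by
    rw [hN, ← Set.ncard_univ]
    exact Set.ncard_le_ncard (Set.subset_univ A) (Set.toFinite _))
  have hU : UF A m = Set.univ := by
    apply Set.eq_univ_of_forall
    intro x
    exact Or.inr ⟨a0, ha0, h0 x⟩
  rw [hU] at hE
  have hE' := hE.weaken (ε' := ε) (by
    refine le_trans ?_ e1
    apply mul_le_mul_of_nonneg_right _ e0.le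
    apply pow_le_pow_right₀ hR1
    rw [hN, ← Set.ncard_univ]
    exact Set.ncard_le_ncard (Set.subset_univ A) (Set.toFinite _))
  exact nearly_of_sys hE' a0 h0

end H41.SK
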