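import Pool.Agent.H41.SK.KA
import Pool.Agent.H41.SK.KC

/-! # SK.InfS : the new system preserves meets (about 90 lines)

If `x ⊓ y ∈ U` this is `d.sys.inf` (`newE_of_mem`; `x, y ∈ U` by `Ctx.up`). Otherwise `x ⊓ y` is in `[a, b]` (`hxy`), `e = res (x ⊓ y) e₁`, `e' = res (x ⊓ y) e₂` with `As e₁ w₁`, `As e₂ w₂`, and `res x e₁ = res x e₂`, `res y e₁ = res y e₂`. Step 1: `res b e₁ = res b e₂`. If `x ≤ b` or `y ≤ b`: `res_mono`. Otherwise `x, y ∈ U` (`cov2`), there is `c ∈ C`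
with `c ≤ x` (`cov`); let `m = y ⊔ c ≥ y`, so `res m e₁ = res m e₂`; `x ⊓ m ≥ c` is in `U` and `Sys.inf` for `x`, `m` and the elements `res (x ⊓ m) e₁`, `res (x ⊓ m) e₂` of `E (x ⊓ m)` gives `res (x ⊓ m) e₁ = res (x ⊓ m) e₂`; by the modular law (`hr`: a lattice with a strictly increasing modular valuation is modular; `c ≤ x`)
`x ⊓ (y ⊔ c) = (x ⊓ y) ⊔ c ≤ b`. Step 2: replace `x` by `x ⊓ b` if not `x ≤ b`: `Sys.inf` for `x`, `b` and the elements `res (x ⊓ b) e₁`, `res (x ⊓ b) e₂` of `E (x ⊓ b)` (`x ⊓ b ≥ c` is in `U`), similarly `y`; `(x ⊓ b) ⊓ (y ⊓ b) = x ⊓ y`. Step 3: for `x, y ≤ b`: `as_iff` gives `f x w₁ w₂` and `f y w₁ w₂`, so `f (x ⊓ y) w₁ w₂` (`Blk.inf`) and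
`res (x ⊓ y) e₁ = res (x ⊓ y) e₂` (`as_iff`). `mod_law`: `x ⊓ (y ⊔ c) ≥ (x ⊓ y) ⊔ c` and both sides have the same value of `r`: `r (x ⊓ (y ⊔ c)) = r x + r (y ⊔ c) - r (x ⊔ y)`, `r ((x ⊓ y) ⊔ c) = r (x ⊓ y) + r c - r (y ⊓ c)`, `x ⊔ (y ⊔ c) = x ⊔ y`, `x ⊓ y ⊓ c = y ⊓ c`. -/

namespace H41.SK

open H41.NU

theorem mod_law {L : Type} [Lattice L] {r : L → ℝ} (hr : Val Set.univ r) {x y c : L} (h : c ≤ x) :
    x ⊓ (y ⊔ c) = (x ⊓ y) ⊔ c := by
  have hle : (x ⊓ y) ⊔ c ≤ x ⊓ (y ⊔ c) :=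
    sup_le (le_inf inf_le_left (inf_le_right.trans le_sup_left)) (le_inf h le_sup_right)
  rcases hle.lt_or_eq with hlt | heq
  · exfalso
    have h0 := hr.lt _ (Set.mem_univ _) _ (Set.mem_univ _) hlt
    have h1 := hr.add x (Set.mem_univ _) (y ⊔ c) (Set.mem_univ _)
    have h2 := hr.add (x ⊓ y) (Set.mem_univ _) c (Set.mem_univ _)
    have h3 := hr.add y (Set.mem_univ _) c (Set.mem_univ _)
    have h4 := hr.add x (Set.mem_univ _) y (Set.mem_univ _)
    have e1 : x ⊔ (y ⊔ c) = x ⊔ y :=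
      le_antisymm (sup_le le_sup_left (sup_le le_sup_right (h.trans le_sup_left)))
        (sup_le le_sup_left (le_sup_left.trans le_sup_right))
    have e2 : x ⊓ y ⊓ c = y ⊓ c :=
      le_antisymm (le_inf (inf_le_left.trans inf_le_right) inf_le_right)
        (le_inf (le_inf (inf_le_right.trans h) inf_le_left) inf_le_right)
    rw [e1] at h1
    rw [e2] at h2
    linarith
  · exact heq.symm

theorem newE_inf {L W : Type} [Lattice L] [Finite L] {U : Set L} {a b : L} {C : Set L}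
    {r : L → ℝ} (hr : Val Set.univ r) {t ε : ℝ} {E : L → Set (L → ℕ)} {f : L → Setoid W} {n : L → ℕ}
    {lam : L × L → (L → ℕ) → ℕ} {mu : L × L → W → ℕ} {cd : L → W → ℕ} {Th : Set W}
    (d : Data U a b C r t ε E f n lam mu cd) (x y : L) (hxy : x ⊓ y ∈ U ∪ Set.Icc a b)
    {e e' : L → ℕ} (he : e ∈ newE U a b C E lam mu cd Th (x ⊓ y)) (he' : e' ∈ newE U a b C E lam mu cd Th (x ⊓ y))
    (h1 : res x e = res x e') (h2 : res y e = res y e') : e = e' := by
  have hup := d.ctx.up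
  have hbU : b ∈ U := (d.ctx.CU b d.ctx.bC).1
  by_cases hU : x ⊓ y ∈ U
  · rw [newE_of_mem hU] at he he'
    exact d.sys.inf x (hup _ hU _ inf_le_left) y (hup _ hU _ inf_le_right) hU e he e' he' h1 h2
  · have hab : x ⊓ y ∈ Set.Icc a b := hxy.resolve_left hU
    rw [newE_of_not hU] at he he'
    obtain ⟨e₁, w₁, _, A1, rfl⟩ := he
    obtain ⟨e₂, w₂, _, A2, rfl⟩ := he'
    have ax : a ≤ x := hab.1.trans inf_le_left
    have ay : a ≤ y := hab.1.trans inf_le_right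
    rw [res_res inf_le_left, res_res inf_le_left] at h1
    rw [res_res inf_le_right, res_res inf_le_right] at h2
    -- a general use of `Sys.inf`
    have key : ∀ u v : L, u ∈ U → v ∈ U → u ⊓ v ∈ U → a ≤ u ⊓ v → res u e₁ = res u e₂ →
        res v e₁ = res v e₂ → res (u ⊓ v) e₁ = res (u ⊓ v) e₂ := by
      intro u v hu hv huv auv g1 g2
      refine d.sys.inf u hu v hv huv _ (A1.2.1 _ huv auv) _ (A2.2.1 _ huv auv) ?_ ?_
      · rw [res_res inf_le_left, res_res inf_le_left]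
        exact g1
      · rw [res_res inf_le_right, res_res inf_le_right]
        exact g2
    -- step 1
    have hb : res b e₁ = res b e₂ := by
      by_cases xb : x ≤ b
      · exact res_mono xb h1
      · by_cases yb : y ≤ b
        · exact res_mono yb h2
        · have xU : x ∈ U := (d.ctx.cov2 x ax).resolve_left xb
          have yU : y ∈ U := (d.ctx.cov2 y ay).resolve_left yb
          obtain ⟨c, cC, cx⟩ := d.ctx.cov x xU ax
          obtain ⟨cU, ac, cb⟩ := d.ctx.CU c cC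
          have cm : c ≤ x ⊓ (y ⊔ c) := le_inf cx le_sup_right
          have h3 := key x (y ⊔ c) xU (hup _ yU _ le_sup_left) (hup _ cU _ cm) (ac.trans cm) h1
            (res_mono le_sup_left h2)
          refine res_mono ?_ h3
          rw [mod_law hr cx]
          exact sup_le hab.2 cb
    -- step 2
    have red : ∀ u : L, a ≤ u → res u e₁ = res u e₂ → res (u ⊓ b) e₁ = res (u ⊓ b) e₂ := by
      intro u au hu
      by_cases ub : u ≤ b
      · rw [inf_eq_left.2 ub]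
        exact hu
      · have uU : u ∈ U := (d.ctx.cov2 u au).resolve_left ub
        obtain ⟨c, cC, cu⟩ := d.ctx.cov u uU au
        obtain ⟨cU, ac, cb⟩ := d.ctx.CU c cC
        have cm : c ≤ u ⊓ b := le_inf cu cb
        exact key u b uU hbU (hup _ cU _ cm) (ac.trans cm) hu hb
    have hx' := red x ax h1
    have hy' := red y ay h2
    -- step 3
    have ax' : a ≤ x ⊓ b := le_inf ax d.ctx.ab
    have ay' : a ≤ y ⊓ b := le_inf ay d.ctx.ab
    have fx := ((as_iff d A1 A2 ax' inf_le_right).1 hx').2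
    have fy := ((as_iff d A1 A2 ay' inf_le_right).1 hy').2
    have hm : (x ⊓ b) ⊓ (y ⊓ b) = x ⊓ y :=
      le_antisymm (le_inf (inf_le_left.trans inf_le_left) (inf_le_right.trans inf_le_left))
        (le_inf (le_inf inf_le_left hab.2) (le_inf inf_le_right hab.2))
    have hf : f ((x ⊓ b) ⊓ (y ⊓ b)) w₁ w₂ := by
      rw [d.blk.inf _ _ ax' inf_le_right ay' inf_le_right]
      exact ⟨fx, fy⟩
    rw [hm] at hf
    exact (as_iff d A1 A2 hab.1 hab.2).2 ⟨hb, hf⟩

end H41.SK
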