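import Pool.Agent.H41.SK.BlkB

/-! # SK.InjW : classes of the block are determined by their labels (about 50 lines)

`injW`: as in `SK.InjE` (read its header): the set of `x` in `[u, b]` with `f x w w'` contains `b` (`Blk.top`) and is closed under meets (`Blk.inf`); if its least element `x` is not `u`, `exists_J` gives `z` with `u ≤ z.1`, not `x ≤ z.1`, `x ≤ z.2`, and `muinj` gives a contradiction. `mu_eq`: `f z.1 w w'` and `f z.2 w w'` by `Blk.mono`, then `muinj`. -/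

namespace H41.SK

open H41.NU

theorem injW {L W : Type} [Lattice L] [Finite L] {U : Set L} {a b : L} {C : Set L}
    {E : L → Set (L → ℕ)} {f : L → Setoid W} {n : L → ℕ} {lam : L × L → (L → ℕ) → ℕ} {mu : L × L → W → ℕ}
    (hc : Ctx U a b C) (hB : Blk a b f n) (hl : Lab E C b f n lam mu) {c u : L} (cC : c ∈ C) (cu : c ≤ u)
    (ub : u ≤ b) {w w' : W} (h2 : ∀ z ∈ JT C b, u ≤ z.1 → mu z w = mu z w') : f u w w' := by
  have au : a ≤ u := (hc.CU c cC).2.1.trans cu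
  have hne : ({x : L | u ≤ x ∧ x ≤ b ∧ f x w w'}).Nonempty := ⟨b, ub, le_refl b, hB.top w w'⟩
  obtain ⟨x, hx⟩ := (Set.toFinite {x : L | u ≤ x ∧ x ≤ b ∧ f x w w'}).exists_minimal hne
  obtain ⟨ux, xb, hxw⟩ := hx.1
  rcases eq_or_lt_of_le ux with h | h
  · rw [h]
    exact hxw
  · obtain ⟨z, hz, uz, nxz, xz2⟩ := exists_J (le_refl u) h xb
    rw [mem_Jf] at hz
    obtain ⟨_, hz12, hz2b, hzmin⟩ := hz
    have hzJ : z ∈ JT C b := ⟨⟨c, cC, cu.trans uz⟩, hz12, hz2b, hzmin⟩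
    have h3 : f z.2 w w' := hB.mono (au.trans ux) xz2 hz2b hxw
    have h4 : f z.1 w w' := (hl.muinj z hzJ w w' h3).2 (h2 z hzJ uz)
    have h5 : f (x ⊓ z.1) w w' := by
      rw [hB.inf x z.1 (au.trans ux) xb (au.trans uz) (hz12.le.trans hz2b)]
      exact ⟨hxw, h4⟩
    have h6 : x ⊓ z.1 ∈ {x : L | u ≤ x ∧ x ≤ b ∧ f x w w'} :=
      ⟨le_inf ux uz, inf_le_left.trans xb, h5⟩
    exact absurd ((hx.2 h6 inf_le_left).trans inf_le_right) nxz

theorem mu_eq {L W : Type} [Lattice L] {U : Set L} {a b : L} {C : Set L}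
    {E : L → Set (L → ℕ)} {f : L → Setoid W} {n : L → ℕ} {lam : L × L → (L → ℕ) → ℕ} {mu : L × L → W → ℕ}
    (hc : Ctx U a b C) (hB : Blk a b f n) (hl : Lab E C b f n lam mu) {u : L} (au : a ≤ u) {w w' : W}
    (h : f u w w') {z : L × L} (hz : z ∈ JT C b) (hu : u ≤ z.1) : mu z w = mu z w' := by
  have _ := hc
  obtain ⟨_, hz12, hz2b, _⟩ := id hz
  have h1 : f z.1 w w' := hB.mono au hu (hz12.le.trans hz2b) h
  have h2 : f z.2 w w' := hB.mono au (hu.trans hz12.le) hz2b h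
  exact (hl.muinj z hz w w' h2).1 h1

end H41.SK
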