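import Pool.Agent.H41.SK.InjE
import Pool.Agent.H41.SK.InjW

/-! # SK.KA : when do two new elements agree on a filter (about 70 lines)

Let `x` in `[a, b]`, `As e w`, `As e' w'`. From left to right: `res b e = res b e'` by `res_mono`. If `x ∉ U`: `cd x w = e x = e' x = cd x w'` (`res_iff` at `z = x`), so `f x w w'` by `d.cd`. If `x ∈ U`: `Ctx.cov` gives `c ∈ C`, `c ≤ x`, and `injW` with `u = x`: for `z ∈ JT`, `x ≤ z.1`: `mu z w = lam z (res z.1 e) = lam z (res z.1 e') = mu z w'`.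
From right to left: `res_iff`; let `x ≤ z`. If `z ∉ U` then `z ≤ b` (`cov2`), `e z = cd z w`, `e' z = cd z w'`, and `f z w w'` by `Blk.mono`. If `z ∈ U`: `c ∈ C`, `c ≤ z` (`cov`), `u = x ⊔ c ≤ z`, `u ≤ b`, `u ∈ U`, `f u w w'`; `injE` with `g = res u e`, `g' = res u e'` (labels: `lam z' (res z'.1 e) = mu z' w = mu z' w' = lam z' (res z'.1 e')` by
`mu_eq`), so `res u e = res u e'` and `e z = e' z`. -/

namespace H41.SK

open H41.NU

theorem as_iff {L W : Type} [Lattice L] [Finite L] {U : Set L} {a b : L} {C : Set L}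
    {r : L → ℝ} {t ε : ℝ} {E : L → Set (L → ℕ)} {f : L → Setoid W} {n : L → ℕ}
    {lam : L × L → (L → ℕ) → ℕ} {mu : L × L → W → ℕ} {cd : L → W → ℕ} {Th : Set W}
    (d : Data U a b C r t ε E f n lam mu cd) {e e' : L → ℕ} {w w' : W}
    (h : As U a b C E lam mu cd Th e w) (h' : As U a b C E lam mu cd Th e' w') {x : L} (ax : a ≤ x) (xb : x ≤ b) :
    res x e = res x e' ↔ res b e = res b e' ∧ f x w w' := by
  obtain ⟨_, hE, hL, hN⟩ := h
  obtain ⟨_, hE', hL', hN'⟩ := h'
  constructor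
  · intro he
    refine ⟨res_mono xb he, ?_⟩
    by_cases hx : x ∈ U
    · obtain ⟨c, cC, cx⟩ := d.ctx.cov x hx ax
      apply injW d.ctx d.blk d.lab cC cx xb
      intro z hz xz
      rw [← hL z hz, ← hL' z hz, res_mono xz he]
    · rw [d.cd x ax xb, ← hN x ax xb hx, ← hN' x ax xb hx]
      exact res_iff.1 he x le_rfl
  · rintro ⟨hb, hf⟩
    rw [res_iff]
    intro z xz
    by_cases hz : z ∈ U
    · obtain ⟨c, cC, cz⟩ := d.ctx.cov z hz (ax.trans xz)
      obtain ⟨cU, ac, cb⟩ := d.ctx.CU c cC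
      have cu : c ≤ x ⊔ c := le_sup_right
      have ub : x ⊔ c ≤ b := sup_le xb cb
      have uU : x ⊔ c ∈ U := d.ctx.up c cU _ cu
      have au : a ≤ x ⊔ c := ac.trans cu
      have fu : f (x ⊔ c) w w' := d.blk.mono ax le_sup_left ub hf
      have key : res (x ⊔ c) e = res (x ⊔ c) e' := by
        apply injE d.ctx d.sys d.lab cC cu ub (hE _ uU au) (hE' _ uU au)
        · rw [res_res ub, res_res ub, hb]
        · intro z' hz' uz'
          rw [res_res uz', res_res uz', hL z' hz', hL' z' hz']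
          exact mu_eq d.ctx d.blk d.lab au fu hz' uz'
      exact res_iff.1 key z (sup_le xz cz)
    · have zb : z ≤ b := (d.ctx.cov2 z (ax.trans xz)).resolve_right hz
      rw [hN z (ax.trans xz) zb hz, hN' z (ax.trans xz) zb hz]
      exact (d.cd z (ax.trans xz) zb w w').1 (d.blk.mono ax xz zb hf)

end H41.SK
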