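import Pool.Agent.H41.SK.Def

/-! # SK.LabE : labels of the elements of the system (about 50 lines)

For every `g` the fibre `{e | e ∈ E p ∧ res q e = g}` has at most `k` elements, so there is a function on it to `{0, ..., k - 1}` which is injective (`Set.ncard` of a finite set, or `Lab_inj` in `Pool/Agent/H41/NU/Lab.lean`); `lam e` = this function for `g = res q e` at `e`, and `0` outside `E p`. -/

namespace H41.SK

open H41.NU

private theorem labE_inj {α : Type} (C : Set α) (hf : C.Finite) (k : ℕ) (h0 : 0 < k) (hC : C.ncard ≤ k) :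
    ∃ f : α → ℕ, (∀ x, f x < k) ∧ Set.InjOn f C := by
  classical
  have : Finite C := hf
  have : Fintype C := Fintype.ofFinite C
  have h1 : Fintype.card C ≤ Fintype.card (Fin k) := by
    rw [Fintype.card_fin, ← Nat.card_eq_fintype_card, Nat.card_coe_set_eq]
    exact hC
  obtain ⟨e⟩ := Function.Embedding.nonempty_of_card_le h1
  refine ⟨fun x => if h : x ∈ C then (e ⟨x, h⟩ : ℕ) else 0, ?_, ?_⟩
  · intro x
    by_cases h : x ∈ C
    · simp only [dif_pos h]
      exact (e ⟨x, h⟩).2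
    · simp only [dif_neg h]
      exact h0
  · intro x hx y hy hxy
    have h2 : (if h : x ∈ C then (e ⟨x, h⟩ : ℕ) else 0) = (if h : y ∈ C then (e ⟨y, h⟩ : ℕ) else 0) := hxy
    rw [dif_pos hx, dif_pos hy] at h2
    exact congrArg Subtype.val (e.injective (Fin.ext h2))

theorem exists_labE {L : Type} [Lattice L] {E : L → Set (L → ℕ)} {p q : L} (hfin : (E p).Finite) {k : ℕ}
    (h0 : 0 < k) (hk : ∀ e ∈ E p, fib E p q (res q e) ≤ k) :
    ∃ lam : (L → ℕ) → ℕ, (∀ e, lam e < k) ∧
      ∀ e ∈ E p, ∀ e' ∈ E p, res q e = res q e' → lam e = lam e' → e = e' := by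
  classical
  have hex : ∀ g : L → ℕ, ∃ f : (L → ℕ) → ℕ, (∀ e, f e < k) ∧
      ((∃ e ∈ E p, res q e = g) → Set.InjOn f {e | e ∈ E p ∧ res q e = g}) := by
    intro g
    by_cases hg : ∃ e ∈ E p, res q e = g
    · obtain ⟨e, he, hge⟩ := hg
      have h1 : ({e | e ∈ E p ∧ res q e = g} : Set (L → ℕ)).ncard ≤ k := by
        have h2 := hk e he
        rw [hge] at h2
        exact h2
      obtain ⟨f, hf1, hf2⟩ := labE_inj {e | e ∈ E p ∧ res q e = g} (hfin.subset fun x hx => hx.1) k h0 h1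
      exact ⟨f, hf1, fun _ => hf2⟩
    · exact ⟨fun _ => 0, fun _ => h0, fun h => absurd h hg⟩
  choose f hf1 hf2 using hex
  refine ⟨fun e => f (res q e) e, fun e => hf1 _ _, ?_⟩
  intro e he e' he' h1 h2
  have h3 : f (res q e) e = f (res q e') e' := h2
  rw [← h1] at h3
  exact hf2 (res q e) ⟨e, he, rfl⟩ ⟨he, rfl⟩ ⟨he', h1.symm⟩ h3

end H41.SK
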