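import Pool.Agent.H41.SK.Def

/-! # SK.LabW : labels and codes of classes (about 50 lines)

`exists_labW`: in every class of `T` there are at most `k` classes of `S`, number them by `0, ..., k - 1` (see `exists_label` in `Pool/Agent/H41/NU/Lab.lean`, which gives values in `ZMod k`; use `ZMod.val`). `exists_code`: an injection of the finite type `Quotient S` in `ℕ`. -/

namespace H41.SK

open H41.NU

private theorem labW_inj {α : Type} [Finite α] (C : Set α) (k : ℕ) (h0 : 0 < k) (hC : C.ncard ≤ k) :
    ∃ f : α → ℕ, (∀ x, f x < k) ∧ Set.InjOn f C := by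
  classical
  have : Fintype C := Fintype.ofFinite C
  have h1 : Fintype.card C ≤ Fintype.card (Fin k) := by
    rw [Fintype.card_fin, ← Nat.card_eq_fintype_card, Nat.card_coe_set_eq]
    exact hC
  obtain ⟨e⟩ := Function.Embedding.nonempty_of_card_le h1
  refine ⟨fun x => if h : x ∈ C then (e ⟨x, h⟩ : ℕ) else 0, ?_, ?_⟩
  · intro x
    by_cases h : x ∈ C
    · simp only [dif_pos h]
      exact (e ⟨x, h⟩).2
    · simp only [dif_neg h]
      exact h0
  · intro x hx y hy hxy
    have h2 : (if h : x ∈ C then (e ⟨x, h⟩ : ℕ) else 0) = (if h : y ∈ C then (e ⟨y, h⟩ : ℕ) else 0) := hxy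
    rw [dif_pos hx, dif_pos hy] at h2
    exact congrArg Subtype.val (e.injective (Fin.ext h2))

theorem exists_labW {W : Type} [Finite W] {S T : Setoid W} (h : S ≤ T) (k : ℕ) (h0 : 0 < k)
    (hk : ∀ w, ncl S {u | T w u} ≤ k) :
    ∃ mu : W → ℕ, (∀ w, mu w < k) ∧ ∀ v w, T v w → (S v w ↔ mu v = mu w) := by
  have hex : ∀ q : Quotient T, ∃ f : Quotient S → ℕ, (∀ x, f x < k) ∧
      Set.InjOn f (Quotient.mk S '' {w | Quotient.mk T w = q}) := by
    intro q
    refine labW_inj _ k h0 ?_
    obtain ⟨v, rfl⟩ := Quotient.exists_rep q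
    have h1 : {w | Quotient.mk T w = Quotient.mk T v} = {w | T v w} := by
      ext w
      simp only [Set.mem_ofPred_eq]
      constructor
      · intro h2
        exact T.symm (Quotient.exact h2)
      · intro h2
        exact Quotient.sound (T.symm h2)
    rw [h1]
    exact hk v
  choose f hf1 hf using hex
  refine ⟨fun v => f (Quotient.mk T v) (Quotient.mk S v), fun v => hf1 _ _, fun v w hvw => ?_⟩
  have e1 : Quotient.mk T w = Quotient.mk T v := Quotient.sound (T.symm hvw)
  constructor
  · intro h1
    have e2 : Quotient.mk S w = Quotient.mk S v := Quotient.sound (S.symm h1)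
    show f (Quotient.mk T v) (Quotient.mk S v) = f (Quotient.mk T w) (Quotient.mk S w)
    rw [e1, e2]
  · intro h1
    have h2 : f (Quotient.mk T v) (Quotient.mk S v) = f (Quotient.mk T w) (Quotient.mk S w) := h1
    rw [e1] at h2
    have h3 := hf (Quotient.mk T v) (Set.mem_image_of_mem _ (show v ∈ {w | Quotient.mk T w =
      Quotient.mk T v} from rfl)) (Set.mem_image_of_mem _ (show w ∈ {w | Quotient.mk T w =
      Quotient.mk T v} from e1)) h2
    exact Quotient.exact h3

theorem exists_code {W : Type} [Finite W] (S : Setoid W) : ∃ cd : W → ℕ, ∀ v w, S v w ↔ cd v = cd w := by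
  classical
  have : Fintype (Quotient S) := Fintype.ofFinite _
  refine ⟨fun v => (Fintype.equivFin (Quotient S) (Quotient.mk S v) : ℕ), fun v w => ?_⟩
  constructor
  · intro h
    have e2 : Quotient.mk S v = Quotient.mk S w := Quotient.sound h
    show ((Fintype.equivFin (Quotient S) (Quotient.mk S v) : ℕ)) = _
    rw [e2]
  · intro h
    have h1 := (Fintype.equivFin (Quotient S)).injective (Fin.ext h)
    exact Quotient.exact h1

end H41.SK
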