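import Pool.Agent.H41.SK.Def

/-! # SK.Skl : skeletons -/

namespace H41.SK

open H41.NU

/-- a skeleton: the lattice is covered by the intervals `[a, β a]`, `a ∈ A`, with distributive overlaps -/
structure Skel {L : Type} [Lattice L] (A : Set L) (β : L → L) : Prop where
  sup : ∀ a ∈ A, ∀ a' ∈ A, a ⊔ a' ∈ A
  le : ∀ a ∈ A, a ≤ β a
  mono : ∀ a ∈ A, ∀ a' ∈ A, a ≤ a' → β a ≤ β a'
  cov : ∀ a ∈ A, ∀ z, a ≤ z → z ≤ β a ∨ ∃ a' ∈ A, a < a' ∧ a' ≤ β a ∧ a' ≤ z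
  dist : ∀ a ∈ A, ∀ a' ∈ A, a < a' → a' ≤ β a → ∀ x y z, a' ≤ x → x ≤ β a → a' ≤ y → y ≤ β a → a' ≤ z →
    z ≤ β a → x ⊓ (y ⊔ z) = (x ⊓ y) ⊔ (x ⊓ z)

/-- the up-set generated by `F` and the top element `m` -/
def UF {L : Type} [Lattice L] (F : Set L) (m : L) : Set L := {x | x = m ∨ ∃ a ∈ F, a ≤ x}

/-- the bottoms of the overlaps of the block `[a, β a]` with higher blocks -/
def CF {L : Type} [Lattice L] (A : Set L) (β : L → L) (a : L) : Set L := {c | c = β a ∨ (c ∈ A ∧ a < c ∧ c ≤ β a)}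

/-- the coverings contained in an overlap -/
def Ov {L : Type} [Lattice L] (A : Set L) (β : L → L) : Set (L × L) :=
  {z | z.1 ⋖ z.2 ∧ ∃ a' ∈ A, ∃ a'' ∈ A, a' < a'' ∧ a'' ≤ z.1 ∧ z.2 ≤ β a'}

end H41.SK
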