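import Pool.Agent.H41.SK.GC1
import Pool.Agent.H41.SK.Skl

/-! # SK.SkM : the skeleton of the maximal complemented intervals (about 90 lines)

`exists_lo_up`: finite non-empty subsets of a lattice have least upper and greatest lower bounds, choose them. `skel_max`: by `le_of_glb`, `le_of_lub` `lo y ≤ x ↔ y ≤ up x` (a Galois connection, `GaloisConnection lo up`), so `lo`, `up` are monotone, `lo (up x) ≤ x`, `x ≤ up (lo x)`, `lo (x ⊔ y) = lo x ⊔ lo y`, `lo (up (lo x)) = lo x`. Also `lo x ≤ x ≤ up x`.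
`sup`: `x, y ∈ A`: `lo (up x ⊔ up y) = x ⊔ y`, so `lo (up (x ⊔ y)) = x ⊔ y`. `mono`, `le`: clear. `cov`: let `x ∈ A`, `x ≤ z`, not `z ≤ up x`. `y₀ = x ⊔ lo z ∈ A`, `y₀ ≤ z`, `x < y₀` (otherwise `lo z ≤ x` and `z ≤ up x`). Let `y` be minimal in `{y ∈ A | x < y, y ≤ y₀}` (`L` finite). `y ≤ up x`, i.e. `lo y ≤ x`: `x ⊔ lo y ∈ A` (`lo y ∈ A`) is
between `x` and `y`, so it is `x` (then done) or `y`; in the second case take a lower cover `k ⋖ y` with `x ≤ k` (`x < y`, `L` finite), `lo y ≤ k`, so `x ⊔ lo y ≤ k < y`, a contradiction. `dist` is the assumption. `bot_mem`: `lo (up a0) ≤ a0`. -/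

namespace H41.SK

open H41.NU

theorem exists_lo_up (L : Type) [Lattice L] [Finite L] :
    ∃ lo up : L → L, (∀ x, IsGLB {z | z ⩿ x} (lo x)) ∧ ∀ x, IsLUB {z | x ⩿ z} (up x) := by
  classical
  have := Fintype.ofFinite L
  refine ⟨fun x => (Finset.univ.filter (fun z => z ⩿ x)).inf' ⟨x, by simp⟩ id,
    fun x => (Finset.univ.filter (fun z => x ⩿ z)).sup' ⟨x, by simp⟩ id, ?_, ?_⟩
  · intro x
    constructor
    · intro z hz
      exact Finset.inf'_le id (by simpa using hz)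
    · intro y hy
      apply Finset.le_inf'
      intro z hz
      exact hy (by simpa using hz)
  · intro x
    constructor
    · intro z hz
      exact Finset.le_sup' id (by simpa using hz)
    · intro y hy
      apply Finset.sup'_le
      intro z hz
      exact hy (by simpa using hz)

theorem skel_gc {L : Type} [Lattice L] [Finite L] [IsModularLattice L] {lo up : L → L}
    (hlo : ∀ x, IsGLB {z | z ⩿ x} (lo x)) (hup : ∀ x, IsLUB {z | x ⩿ z} (up x)) : GaloisConnection lo up :=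
  fun y x => ⟨fun h => le_of_glb (hlo y) (hup x) h, fun h => le_of_lub (hlo y) (hup x) h⟩

theorem skel_max {L : Type} [Lattice L] [Finite L] [IsModularLattice L] {lo up : L → L}
    (hlo : ∀ x, IsGLB {z | z ⩿ x} (lo x)) (hup : ∀ x, IsLUB {z | x ⩿ z} (up x))
    (hd : ∀ a, lo (up a) = a → ∀ a', lo (up a') = a' → a < a' → a' ≤ up a → ∀ x y z, a' ≤ x → x ≤ up a →
      a' ≤ y → y ≤ up a → a' ≤ z → z ≤ up a → x ⊓ (y ⊔ z) = (x ⊓ y) ⊔ (x ⊓ z)) :
    Skel {x | lo (up x) = x} up := by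
  have gc := skel_gc hlo hup
  have hlo_le : ∀ x, lo x ≤ x := fun x => (hlo x).1 (WCovBy.refl x)
  have hle_up : ∀ x, x ≤ up x := fun x => (hup x).1 (WCovBy.refl x)
  have hmem : ∀ x, lo x ∈ {x | lo (up x) = x} := fun x => gc.l_u_l_eq_l x
  have hsup : ∀ x ∈ {x | lo (up x) = x}, ∀ y ∈ {x | lo (up x) = x}, x ⊔ y ∈ {x | lo (up x) = x} := by
    intro x hx y hy
    have hx' : lo (up x) = x := hx
    have hy' : lo (up y) = y := hy
    have h1 : lo (up x ⊔ up y) = x ⊔ y := by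
      rw [gc.l_sup, hx', hy']
    rw [← h1]
    exact hmem _
  refine ⟨hsup, fun a _ => hle_up a, fun a _ a' _ h => gc.monotone_u h, ?_, fun a ha a' ha' => hd a ha a' ha'⟩
  intro a ha z haz
  by_cases hz : z ≤ up a
  · exact Or.inl hz
  right
  have hlz : ¬ lo z ≤ a := fun h => hz ((gc z a).1 h)
  set y0 : L := a ⊔ lo z with hy0
  have y0A : y0 ∈ {x | lo (up x) = x} := hsup a ha _ (hmem z)
  have y0z : y0 ≤ z := sup_le haz (hlo_le z)
  have ay0 : a < y0 := lt_of_le_of_ne le_sup_left (fun h => hlz (by rw [h]; exact le_sup_right))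
  obtain ⟨y, hy⟩ := (Set.toFinite {y : L | y ∈ {x | lo (up x) = x} ∧ a < y ∧ y ≤ y0}).exists_minimal
    ⟨y0, y0A, ay0, le_rfl⟩
  obtain ⟨yA, ay, yy0⟩ := hy.1
  refine ⟨y, yA, ay, ?_, yy0.trans y0z⟩
  rw [← gc y a]
  have h1 : a ⊔ lo y ∈ {x | lo (up x) = x} := hsup a ha _ (hmem y)
  have h2 : a ⊔ lo y ≤ y := sup_le ay.le (hlo_le y)
  by_contra hcon
  have h3 : a < a ⊔ lo y := lt_of_le_of_ne le_sup_left (fun h => hcon (by rw [h]; exact le_sup_right))
  have h4 : y ≤ a ⊔ lo y := hy.2 ⟨h1, h3, h2.trans yy0⟩ h2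
  -- a lower cover of `y` above `a`
  obtain ⟨k, hk⟩ := (Set.toFinite {k : L | a ≤ k ∧ k < y}).exists_maximal ⟨a, le_rfl, ay⟩
  obtain ⟨ak, ky⟩ := hk.1
  have hcov : k ⋖ y := ⟨ky, fun c hkc hcy => absurd (hk.2 ⟨ak.trans hkc.le, hcy⟩ hkc.le) (not_le_of_gt hkc)⟩
  have h5 : lo y ≤ k := (hlo y).1 hcov.wcovBy
  exact absurd (h4.trans (sup_le ak h5)) (not_le_of_gt ky)

theorem bot_mem {L : Type} [Lattice L] [Finite L] [IsModularLattice L] {lo up : L → L}
    (hlo : ∀ x, IsGLB {z | z ⩿ x} (lo x)) (hup : ∀ x, IsLUB {z | x ⩿ z} (up x)) {a0 : L} (h0 : ∀ x, a0 ≤ x) :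
    lo (up a0) = a0 := by
  have gc := skel_gc hlo hup
  exact le_antisymm (gc.l_u_le a0) (h0 _)

end H41.SK
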