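import Pool.Agent.H41.SK.Ind
import Pool.Agent.H41.SK.SkM
import Pool.Agent.H41.SK.Hgt
import Pool.Agent.H41.SK.ExS
import Pool.Agent.H41.NU.Cls

/-! # SK.Max : finite modular lattices whose maximal complemented intervals are Desarguesian -/

namespace H41.SK

open H41.NU

/-- `[x, u]` is a maximal complemented interval of the finite modular lattice `L`: `u` is the join of `x` and its
upper covers and `x` is the meet of `u` and its lower covers (`x ⩿ z` means that `x` is equal to or covered by `z`) -/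
def MaxBlock {L : Type} [Lattice L] (x u : L) : Prop := IsLUB {z | x ⩿ z} u ∧ IsGLB {z | z ⩿ u} x

/-- The interval `[x, u]` of `L` has a lattice homomorphism `g` to a product of finitely many lattices of subspaces
of finite vector spaces over finite fields (the fields may be different) which maps coverings to coverings. -/
def Desarg {L : Type} [Lattice L] (x u : L) : Prop :=
  ∃ (k : ℕ) (K V : Fin k → Type) (_ : ∀ i, Field (K i)) (_ : ∀ i, Finite (K i)) (_ : ∀ i, AddCommGroup (V i))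
    (_ : ∀ i, Module (K i) (V i)) (_ : ∀ i, Finite (V i)) (g : L → ∀ i, Submodule (K i) (V i)),
    (∀ y z, x ≤ y → y ≤ u → x ≤ z → z ≤ u → g (y ⊓ z) = g y ⊓ g z ∧ g (y ⊔ z) = g y ⊔ g z) ∧
    ∀ y z, x ≤ y → y ⋖ z → z ≤ u → g y ⋖ g z

theorem exists_bot (L : Type) [Lattice L] [Finite L] [Nonempty L] : ∃ m : L, ∀ x : L, m ≤ x := by
  classical
  have := Fintype.ofFinite L
  exact ⟨Finset.univ.inf' Finset.univ_nonempty id, fun x => Finset.inf'_le id (Finset.mem_univ x)⟩

theorem good_max (L : Type) [Lattice L] [Finite L] [Nonempty L] [IsModularLattice L]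
    (h1 : ∀ x u : L, MaxBlock x u → Desarg x u)
    (h2 : ∀ x u y v : L, MaxBlock x u → MaxBlock y v → x < y → y ≤ u →
      ∀ p q s, y ≤ p → p ≤ u → y ≤ q → q ≤ u → y ≤ s → s ≤ u → p ⊓ (q ⊔ s) = (p ⊓ q) ⊔ (p ⊓ s)) :
    ∃ r : L → ℝ, Good L r := by
  obtain ⟨m, hm⟩ := exists_top L
  obtain ⟨a0, h0⟩ := exists_bot L
  obtain ⟨r, hr, hcov⟩ := exists_height L
  obtain ⟨lo, up, hlo, hup⟩ := exists_lo_up L
  have hmb : ∀ a, lo (up a) = a → MaxBlock a (up a) := by
    intro a ha
    refine ⟨hup a, ?_⟩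
    have := hlo (up a)
    rwa [ha] at this
  have hs := skel_max hlo hup (fun a ha a' ha' haa' h3 x y z => h2 a (up a) a' (up a') (hmb a ha) (hmb a' ha')
    haa' h3 x y z)
  refine ⟨r, good_skel hr hs hm h0 (bot_mem hlo hup h0) ?_⟩
  intro a ha
  obtain ⟨k, K, V, _, _, _, _, _, g, g1, g2⟩ := h1 a (up a) (hmb a ha)
  exact exact_desarg (hs.le a ha) hcov k K V g (fun x y h3 h4 h5 h6 => (g1 x y h3 h4 h5 h6).1)
    (fun x y h3 h4 h5 h6 => (g1 x y h3 h4 h5 h6).2) g2

end H41.SK
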