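import Pool.Agent.H41.SK.Prp

/-! # SK.Mul : several full sets (about 50 lines)

`Q` = the `f q`-class of `w0`, `|Q| = n q`. By `fullD_inter` the set `Q \ D i` has at most `δ n q` points, so `{w | f q w0 w ∧ ∀ i, w ∈ D i}` has at least `(1 - |ι| δ) n q` points, and by `Blk.cover` (with `x = p`) it meets at least this number divided by `n p` of the classes of `f p`. -/

namespace H41.SK

open H41.NU

theorem multi {L W ι : Type} [Lattice L] [Finite W] [Finite ι] {a b : L} {f : L → Setoid W} {n : L → ℕ}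
    (h : Blk a b f n) (z : ι → L) (D : ι → Set W) {δ : ℝ} (hz : ∀ i, a ≤ z i ∧ z i ≤ b)
    (hD : ∀ i, FullD b f n (z i) (D i) δ) {p q : L} (ap : a ≤ p) (pq : p ≤ q) (qb : q ≤ b) (w0 : W)
    (hit : ∀ i, ∃ w ∈ D i, f (q ⊔ z i) w0 w) :
    (1 - Nat.card ι * δ) * n q ≤ (ncl (f p) {w | f q w0 w ∧ ∀ i, w ∈ D i} : ℝ) * n p := by
  classical
  haveI := Fintype.ofFinite ι
  have aq := ap.trans pq
  have hQ : {w | f q w0 w}.ncard = n q := h.card q aq qb w0
  have hsub : {w | f q w0 w} ⊆ {w | f q w0 w ∧ ∀ i, w ∈ D i} ∪ ⋃ i, ({w | f q w0 w} \ D i) := by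
    intro w hw
    by_cases hh : ∀ i, w ∈ D i
    · exact Or.inl ⟨hw, hh⟩
    · push Not at hh
      obtain ⟨i, hi⟩ := hh
      exact Or.inr (Set.mem_iUnion.2 ⟨i, hw, hi⟩)
  have hD' : ∀ i, (({w | f q w0 w} \ D i).ncard : ℝ) ≤ δ * n q := by
    intro i
    obtain ⟨w1, h1, h2⟩ := hit i
    have h3 := fullD_inter h (hz i).1 (hz i).2 aq qb (hD i) h1 h2
    have hs := Set.ncard_inter_add_ncard_diff_eq_ncard {w | f q w0 w} (D i)
    have h4 : {u | u ∈ D i ∧ f q w0 u} = {w | f q w0 w} ∩ D i := by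
      ext u
      exact and_comm
    rw [h4] at h3
    rw [hQ] at hs
    have hs' : (({w | f q w0 w} ∩ D i).ncard : ℝ) + (({w | f q w0 w} \ D i).ncard : ℝ) = n q := by
      exact_mod_cast hs
    linarith
  have h5 : {w | f q w0 w}.ncard ≤ {w | f q w0 w ∧ ∀ i, w ∈ D i}.ncard
      + ∑ i, ({w | f q w0 w} \ D i).ncard :=
    (Set.ncard_le_ncard hsub (Set.toFinite _)).trans ((Set.ncard_union_le _ _).trans
      (Nat.add_le_add_left (Set.ncard_iUnion_le_of_fintype _) _))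
  have h6 : (n q : ℝ) ≤ ({w | f q w0 w ∧ ∀ i, w ∈ D i}.ncard : ℝ)
      + ∑ i, (({w | f q w0 w} \ D i).ncard : ℝ) := by
    rw [hQ] at h5
    exact_mod_cast h5
  have h7 : ∑ i, (({w | f q w0 w} \ D i).ncard : ℝ) ≤ Nat.card ι * (δ * n q) := by
    calc ∑ i, (({w | f q w0 w} \ D i).ncard : ℝ) ≤ ∑ _i : ι, δ * n q := Finset.sum_le_sum fun i _ => hD' i
      _ = Nat.card ι * (δ * n q) := by simp
  have h8 : (({w | f q w0 w ∧ ∀ i, w ∈ D i}.ncard : ℕ) : ℝ)
      ≤ (ncl (f p) {w | f q w0 w ∧ ∀ i, w ∈ D i} : ℝ) * n p := by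
    exact_mod_cast h.cover ap (pq.trans qb) {w | f q w0 w ∧ ∀ i, w ∈ D i}
  nlinarith

end H41.SK
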