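import Pool.Agent.H41.SK.BlkB

/-! # SK.Prp : intersection of a full set with a class (about 60 lines)

Let `D` be a union of `f z`-classes. Every `f z`-class contained in the `f (q ⊔ z)`-class `Y` of `w0` meets the `f q`-class `Q` of `w0` (`sup`) in a class of `f q ⊓ f z = f (q ⊓ z)`, i.e. in `n (q ⊓ z)` points. So `|D ∩ Q| n z = |D ∩ Y| n (q ⊓ z)`, with `Blk.modular` `|D ∩ Q| n (q ⊔ z) = |D ∩ Y| n q`, and
`|D ∩ Y| ≥ (1 - δ) n (q ⊔ z)` by `FullD` for `y = q ⊔ z` and the point `w1 ∈ D ∩ Y`. (For the counting: `|D ∩ Y| = N n z` and `|D ∩ Q| = N n (q ⊓ z)` with `N = ncl (f z) (D ∩ Y)`.) -/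

namespace H41.SK

open H41.NU

/-- a set which is a union of classes of `S`, all with `k` elements -/
private theorem ncard_eq {V : Type} [Finite V] (S : Setoid V) (A : Set V) (k : ℕ)
    (hA : ∀ v ∈ A, ∀ w, S v w → w ∈ A) (hk : ∀ v, {w | S v w}.ncard = k) : A.ncard = ncl S A * k := by
  classical
  have := Fintype.ofFinite V
  have : Finite (Quotient S) := Quotient.finite _
  have := Fintype.ofFinite (Quotient S)
  have e : A.toFinset.card = ∑ c ∈ (Quotient.mk S '' A).toFinset, (A.toFinset.filter (fun v => Quotient.mk S v = c)).card := by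
    apply Finset.card_eq_sum_card_fiberwise
    intro v hv
    rw [Finset.mem_coe, Set.mem_toFinset] at hv
    simp only [Set.coe_toFinset]
    exact ⟨v, hv, rfl⟩
  rw [Set.ncard_eq_toFinset_card' A, e]
  unfold ncl
  rw [Set.ncard_eq_toFinset_card']
  rw [Finset.sum_const_nat (m := k)]
  intro c hc
  rw [Set.mem_toFinset] at hc
  obtain ⟨v, hv, rfl⟩ := hc
  rw [← hk v, Set.ncard_eq_toFinset_card']
  congr 1
  ext w
  simp only [Finset.mem_filter, Set.mem_toFinset, Set.mem_ofPred_eq]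
  constructor
  · rintro ⟨_, h⟩
    exact Setoid.symm' _ (Quotient.exact h)
  · intro h
    exact ⟨hA v hv w h, Quotient.sound (Setoid.symm' _ h)⟩

theorem fullD_inter {L W : Type} [Lattice L] [Finite W] {a b : L} {f : L → Setoid W} {n : L → ℕ}
    (h : Blk a b f n) {z q : L} (az : a ≤ z) (zb : z ≤ b) (aq : a ≤ q) (qb : q ≤ b) {D : Set W} {δ : ℝ}
    (hD : FullD b f n z D δ) {w0 w1 : W} (h1 : w1 ∈ D) (h2 : f (q ⊔ z) w0 w1) :
    (1 - δ) * n q ≤ ({u | u ∈ D ∧ f q w0 u}.ncard : ℝ) := by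
  have hne : Nonempty W := ⟨w0⟩
  have hsb : q ⊔ z ≤ b := sup_le qb zb
  have hai : a ≤ q ⊓ z := le_inf aq az
  have haz : a ≤ q ⊔ z := aq.trans le_sup_left
  have h3 : ncl (f z) {u | u ∈ D ∧ f (q ⊔ z) w1 u} ≤ ncl (f (q ⊓ z)) {u | u ∈ D ∧ f q w0 u} := by
    refine ncl_le_rel (f z) (f (q ⊓ z)) _ _ (fun v w => f z v w) ?_ ?_
    · rintro v ⟨hv, hv'⟩
      obtain ⟨w, hw1, hw2⟩ := h.sup q z aq qb az zb w0 v (Setoid.trans' _ h2 hv')
      exact ⟨w, ⟨hD.1 v hv w (Setoid.symm' _ hw2), hw1⟩, Setoid.symm' _ hw2⟩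
    · intro v _ v' _ w _ w' _ h4 h5 h6
      have h7 : f z w w' := h.mono hai inf_le_right zb h6
      exact Setoid.trans' _ h4 (Setoid.trans' _ h7 (Setoid.symm' _ h5))
  have h4 : {u | u ∈ D ∧ f q w0 u}.ncard = ncl (f (q ⊓ z)) {u | u ∈ D ∧ f q w0 u} * n (q ⊓ z) := by
    refine ncard_eq (f (q ⊓ z)) _ (n (q ⊓ z)) ?_ (h.card (q ⊓ z) hai (inf_le_left.trans qb))
    rintro v ⟨hv, hv'⟩ u hu
    exact ⟨hD.1 v hv u (h.mono hai inf_le_right zb hu), Setoid.trans' _ hv' (h.mono hai inf_le_left qb hu)⟩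
  have h5 := h.cover az zb {u | u ∈ D ∧ f (q ⊔ z) w1 u}
  have h6 := hD.2 (q ⊔ z) le_sup_right hsb w1 h1
  have h7 := h.modular aq qb az zb
  have hz0 := h.pos az zb
  set N := ncl (f z) {u | u ∈ D ∧ f (q ⊔ z) w1 u} with hN
  set N' := ncl (f (q ⊓ z)) {u | u ∈ D ∧ f q w0 u} with hN'
  rw [h4]
  push_cast
  have h3' : (N : ℝ) ≤ N' := by exact_mod_cast h3
  have h5' : ({u | u ∈ D ∧ f (q ⊔ z) w1 u}.ncard : ℝ) ≤ N * n z := by exact_mod_cast h5
  have h7' : (n (q ⊔ z) : ℝ) * n (q ⊓ z) = n q * n z := by exact_mod_cast h7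
  have hz0' : (0 : ℝ) < n z := by exact_mod_cast hz0
  have hi0 : (0 : ℝ) ≤ n (q ⊓ z) := Nat.cast_nonneg _
  refine le_of_mul_le_mul_right ?_ hz0'
  calc (1 - δ) * n q * n z = ((1 - δ) * n (q ⊔ z)) * n (q ⊓ z) := by
        rw [mul_assoc, ← h7']
        ring
    _ ≤ (N * n z) * n (q ⊓ z) := mul_le_mul_of_nonneg_right (h6.trans h5') hi0
    _ = N * (n (q ⊓ z) * n z) := by ring
    _ ≤ N' * (n (q ⊓ z) * n z) := mul_le_mul_of_nonneg_right h3' (mul_nonneg hi0 hz0'.le)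
    _ = N' * n (q ⊓ z) * n z := by ring

end H41.SK
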