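import Pool.Agent.H41.SK.Def

/-! # SK.Sum : fibres over an intermediate element (about 60 lines)

`{e | e ∈ E p ∧ res q e = g}` is the disjoint union over the `e' ∈ E u` with `res q e' = g` (finitely many) of the sets `{e | e ∈ E p ∧ res u e = e'}` (`res q e = res q (res u e)` by `res_res`). `Finset.card_eq_sum_card_fiberwise` or `Set.ncard` with finite sets. -/

namespace H41.SK

open H41.NU

open Classical in
private theorem fib_card {L : Type} [Lattice L] {E : L → Set (L → ℕ)} {p : L} (fp : (E p).Finite) (q : L)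
    (g : L → ℕ) : fib E p q g = (fp.toFinset.filter (fun e => res q e = g)).card := by
  unfold fib
  rw [← Set.ncard_coe_finset]
  congr 1
  ext e
  simp [Set.Finite.mem_toFinset]

open Classical in
private theorem fib_sum {L : Type} [Lattice L] {E : L → Set (L → ℕ)} {p u q : L} (huq : u ≤ q)
    (fp : (E p).Finite) (fu : (E u).Finite) (hm : ∀ e ∈ E p, res u e ∈ E u) (g : L → ℕ) :
    fib E p q g = ∑ e' ∈ fu.toFinset.filter (fun e' => res q e' = g), fib E p u e' := by
  rw [fib_card fp q g]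
  rw [Finset.card_eq_sum_card_fiberwise (f := fun e => res u e)
    (t := fu.toFinset.filter (fun e' => res q e' = g))]
  · refine Finset.sum_congr rfl fun e' he' => ?_
    rw [fib_card fp u e']
    congr 1
    rw [Finset.mem_filter] at he'
    ext e
    simp only [Finset.mem_filter]
    constructor
    · rintro ⟨⟨h1, _⟩, h3⟩
      exact ⟨h1, h3⟩
    · rintro ⟨h1, h3⟩
      refine ⟨⟨h1, ?_⟩, h3⟩
      rw [← res_res huq e, h3]
      exact he'.2
  · intro e he
    have he' := Finset.mem_filter.1 (Finset.mem_coe.1 he)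
    refine Finset.mem_coe.2 (Finset.mem_filter.2 ⟨?_, ?_⟩)
    · rw [Set.Finite.mem_toFinset]
      exact hm e ((Set.Finite.mem_toFinset fp).1 he'.1)
    · rw [res_res huq e]
      exact he'.2

theorem fib_ge {L : Type} [Lattice L] {E : L → Set (L → ℕ)} {p u q : L} (hpu : p ≤ u) (huq : u ≤ q)
    (fp : (E p).Finite) (fu : (E u).Finite) (hm : ∀ e ∈ E p, res u e ∈ E u) {g : L → ℕ} {k : ℝ} (hk0 : 0 ≤ k)
    (hk : ∀ e' ∈ E u, res q e' = g → k ≤ fib E p u e') : (fib E u q g : ℝ) * k ≤ fib E p q g := by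
  classical
  rw [fib_sum huq fp fu hm g, fib_card fu q g]
  push_cast
  rw [← nsmul_eq_mul]
  refine Finset.card_nsmul_le_sum _ _ _ fun e' he' => ?_
  rw [Finset.mem_filter, Set.Finite.mem_toFinset] at he'
  exact hk e' he'.1 he'.2

theorem fib_le {L : Type} [Lattice L] {E : L → Set (L → ℕ)} {p u q : L} (hpu : p ≤ u) (huq : u ≤ q)
    (fp : (E p).Finite) (fu : (E u).Finite) (hm : ∀ e ∈ E p, res u e ∈ E u) {g : L → ℕ} {k : ℝ}
    (hk : ∀ e' ∈ E u, res q e' = g → (fib E p u e' : ℝ) ≤ k) : (fib E p q g : ℝ) ≤ fib E u q g * k := by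
  classical
  rw [fib_sum huq fp fu hm g, fib_card fu q g]
  push_cast
  rw [← nsmul_eq_mul]
  refine Finset.sum_le_card_nsmul _ _ _ fun e' he' => ?_
  rw [Finset.mem_filter, Set.Finite.mem_toFinset] at he'
  exact hk e' he'.1 he'.2

end H41.SK
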