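import Pool.Agent.H41.SK.BlkB
import Pool.Agent.H41.NU.Sel
import Pool.Agent.H41.NU.Lab

/-! # SK.Thin : thinning (about 120 lines)

Let `Q = n m' / n m` (exact division by `Blk.ratio`), every class `c` of `f m'` consists of `Q` classes of `f m`, label them by `ZMod Q` (bijectively in every `c`): `lab : W → ZMod Q` with `f m' v w → (f m v w ↔ lab v = lab w)`. Fix `Del ⊆ ZMod Q` with `Q - k` elements and for `g : (classes of f m') → ZMod Q` let
`D = {w | lab w + g [w] ∉ Del}`: every class of `f m'` contains exactly `k` classes of `f m` of `D`. Let `y ≥ m`, `y ≤ b`, `y ≠ m`. If `m' ≤ y` a class of `f y` is a union of classes of `f m'` and contains exactly the part `k / Q ≥ 1 - δ0 ≥ 1 - δ` of `D`. Otherwise `y ⊓ m' = m` (`m ⋖ m'`), a class `Y` of `f y` meets every class of `f m'` in at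
most one class of `f m` (`f y ⊓ f m' = f m`), so `Y` consists of `n y / n m` classes of `f m` in different classes of `f m'`. Apply `select` (`Pool/Agent/H41/NU/Sel.lean`) with `C` = classes of `f m'`, `K = ZMod Q`, `ι` = pairs (`y`, class of `f y`) with `y` in `[m, b]`, not `m' ≤ y`, `y ≠ m`, `S` = the classes of `f m'` which meet `Y`,
`B` = the values `g c` for which the class of `f m` in `Y ∩ c` is deleted (`|B| = Q - k ≤ δ0 Q`). Number of classes of `f y` is at most `n b / n a`. For `y = m` the condition of `FullD` is trivial (`D` contains the class). If `k = n m' / n m` nothing is deleted, this is included. `δ0 > 0` is used as the `δ` of `select`, `δ` as `δ'`. -/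

namespace H41.SK

open H41.NU

/-- a set which is a union of classes of `S`, all with `k` elements -/
private theorem thin_ncard_eq {V : Type} [Finite V] (S : Setoid V) (A : Set V) (k : ℕ)
    (hA : ∀ v ∈ A, ∀ w, S v w → w ∈ A) (hk : ∀ v, {w | S v w}.ncard = k) : A.ncard = ncl S A * k := by
  classical
  have := Fintype.ofFinite V
  have : Finite (Quotient S) := Quotient.finite _
  have := Fintype.ofFinite (Quotient S)
  have e : A.toFinset.card = ∑ c ∈ (Quotient.mk S '' A).toFinset, (A.toFinset.filter (fun v => Quotient.mk S v = c)).card := by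
    apply Finset.card_eq_sum_card_fiberwise
    intro v hv
    rw [Finset.mem_coe, Set.mem_toFinset] at hv
    simp only [Set.coe_toFinset]
    exact ⟨v, hv, rfl⟩
  rw [Set.ncard_eq_toFinset_card' A, e]
  unfold ncl
  rw [Set.ncard_eq_toFinset_card']
  rw [Finset.sum_const_nat (m := k)]
  intro c hc
  rw [Set.mem_toFinset] at hc
  obtain ⟨v, hv, rfl⟩ := hc
  rw [← hk v, Set.ncard_eq_toFinset_card']
  congr 1
  ext w
  simp only [Finset.mem_filter, Set.mem_toFinset, Set.mem_ofPred_eq]
  constructor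
  · rintro ⟨_, h⟩
    exact Setoid.symm' _ (Quotient.exact h)
  · intro h
    exact ⟨hA v hv w h, Quotient.sound (Setoid.symm' _ h)⟩

private theorem thin_ncl_map {V K : Type} [Finite V] (S : Setoid V) (A : Set V) (φ : V → K)
    (h : ∀ v ∈ A, ∀ w ∈ A, (S v w ↔ φ v = φ w)) : ncl S A = (φ '' A).ncard := by
  have h1 : ncl S A = ncl (Setoid.ker φ) A := ncl_congr S (Setoid.ker φ) A h
  rw [h1]
  unfold ncl
  rw [← Set.ncard_image_of_injective _ (Setoid.kerLift_injective φ), Set.image_image]
  rfl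

/-- number of kept classes -/
private theorem thin_keep {W : Type} [Finite W] {S T : Setoid W} {Q : ℕ} [NeZero Q]
    {lam : W → ZMod Q} (hlam : ∀ v w, T v w → (S v w ↔ lam v = lam w)) (hQ : ∀ v, cnt S T v = Q)
    (Keep : Finset (ZMod Q)) (g : Quotient T → ZMod Q) (v : W) :
    ncl S {u | u ∈ {w | lam w + g (Quotient.mk T w) ∈ Keep} ∧ T v u} = Keep.card := by
  classical
  let φ : W → ZMod Q := fun u => lam u + g (Quotient.mk T v)
  have hφ : ∀ u, T v u → ∀ u', T v u' → (S u u' ↔ φ u = φ u') := by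
    intro u hu u' hu'
    rw [hlam u u' (T.trans' (T.symm' hu) hu')]
    constructor
    · intro h
      show lam u + _ = lam u' + _
      rw [h]
    · intro h
      exact add_right_cancel h
  have h1 : (φ '' {u | T v u}).ncard = Q := by
    rw [← thin_ncl_map S {u | T v u} φ (fun u hu u' hu' => hφ u hu u' hu')]
    exact hQ v
  have h2 : φ '' {u | T v u} = Set.univ := by
    apply Set.eq_of_subset_of_ncard_le (Set.subset_univ _) _ (Set.toFinite _)
    rw [h1, Set.ncard_univ, Nat.card_zmod]
  have h3 : ∀ u, T v u → (lam u + g (Quotient.mk T u) = φ u) := by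
    intro u hu
    have : Quotient.mk T u = Quotient.mk T v := Quotient.sound (T.symm' hu)
    show lam u + g (Quotient.mk T u) = lam u + g (Quotient.mk T v)
    rw [this]
  rw [thin_ncl_map S _ φ (fun u hu u' hu' => hφ u hu.2 u' hu'.2)]
  rw [← Set.ncard_coe_finset]
  congr 1
  ext z
  constructor
  · rintro ⟨u, ⟨hu1, hu2⟩, rfl⟩
    rw [← h3 u hu2]
    exact hu1
  · intro hz
    have h4 : z ∈ φ '' {u | T v u} := by
      rw [h2]
      trivial
    obtain ⟨u, hu, rfl⟩ := h4
    refine ⟨u, ⟨?_, hu⟩, rfl⟩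
    show lam u + g (Quotient.mk T u) ∈ Keep
    rw [h3 u hu]
    exact hz

theorem exists_thin {L W : Type} [Lattice L] [Finite L] [Finite W] [Nonempty W] {a b : L} {f : L → Setoid W}
    {n : L → ℕ} (h : Blk a b f n) {m m' : L} (am : a ≤ m) (hm : m ⋖ m') (mb : m' ≤ b) (k : ℕ)
    (hk : k * n m ≤ n m') {δ δ0 : ℝ} (h0 : 0 < δ0) (h1 : δ0 ≤ 1) (hδ : δ0 ≤ δ) (h4 : δ0 ^ δ ≤ 1 / 4)
    (hk' : (1 - δ0) * n m' ≤ (k : ℝ) * n m) (hk1 : 0 < k) (hδ1 : δ < 1)
    (hbig : ∀ y, m < y → y ≤ b → ∀ j : ℕ, j * n m = n y →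
      (Nat.card L : ℝ) * ((n b : ℝ) / n a) * (1 / 2) ^ j < 1) :
    ∃ D : Set W, FullD b f n m D δ ∧ (∀ w, ncl (f m) {u | u ∈ D ∧ f m' w u} ≤ k) ∧
      ∀ y, m < y → y ≤ b → ∀ w, ∃ u ∈ D, f y w u := by
  classical
  obtain ⟨w0⟩ := id ‹Nonempty W›
  have am' : a ≤ m' := am.trans hm.le
  have mb' : m ≤ b := hm.le.trans mb
  have ab : a ≤ b := am.trans mb'
  have hmm : f m ≤ f m' := h.mono am hm.le mb
  have pm : 0 < n m := h.pos am mb'
  have pm' : 0 < n m' := h.pos am' mb
  set Q : ℕ := cnt (f m) (f m') w0 with hQdef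
  have hQm : Q * n m = n m' := h.ratio am hm.le mb w0
  have hQc : ∀ v, cnt (f m) (f m') v = Q := by
    intro v
    have e1 : cnt (f m) (f m') v * n m = n m' := h.ratio am hm.le mb v
    exact Nat.eq_of_mul_eq_mul_right pm (e1.trans hQm.symm)
  have hQ0 : 0 < Q := cnt_pos _ _ _
  haveI : NeZero Q := ⟨hQ0.ne'⟩
  obtain ⟨lam, hlam⟩ := exists_label hmm Q hQ0 (fun v => (hQc v).le)
  have hkQ : k ≤ Q := by
    by_contra hcon
    push Not at hcon
    have := Nat.mul_lt_mul_of_pos_right hcon pm
    omega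
  haveI : Fintype (ZMod Q) := ZMod.fintype Q
  obtain ⟨Keep, -, hKeep⟩ := Finset.exists_subset_card_eq (s := (Finset.univ : Finset (ZMod Q))) (n := k)
    (by rw [Finset.card_univ, ZMod.card]; exact hkQ)
  haveI : Fintype (Quotient (f m')) := Fintype.ofFinite _
  haveI : Fintype (Σ y : {y : L // m < y ∧ y ≤ b ∧ ¬ m' ≤ y}, Quotient (f y.1)) := Fintype.ofFinite _
  set ι := (Σ y : {y : L // m < y ∧ y ≤ b ∧ ¬ m' ≤ y}, Quotient (f y.1)) with hι
  have hexW : ∀ (i : ι) (c : Quotient (f m')), ∃ w : W,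
      (∃ w : W, Quotient.mk (f i.1.1) w = i.2 ∧ Quotient.mk (f m') w = c) →
        (Quotient.mk (f i.1.1) w = i.2 ∧ Quotient.mk (f m') w = c) := by
    intro i c
    by_cases hex : ∃ w : W, Quotient.mk (f i.1.1) w = i.2 ∧ Quotient.mk (f m') w = c
    · obtain ⟨w, hw⟩ := hex
      exact ⟨w, fun _ => hw⟩
    · exact ⟨w0, fun hh => absurd hh hex⟩
  choose wt hwt using hexW
  let S : ι → Finset (Quotient (f m')) := fun i =>
    Finset.univ.filter (fun c => ∃ w : W, Quotient.mk (f i.1.1) w = i.2 ∧ Quotient.mk (f m') w = c)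
  let B : ι → Quotient (f m') → Finset (ZMod Q) := fun i c =>
    Finset.univ.filter (fun z => lam (wt i c) + z ∉ Keep)
  have hScard : ∀ (y : {y : L // m < y ∧ y ≤ b ∧ ¬ m' ≤ y}) (v : W),
      (S ⟨y, Quotient.mk (f y.1) v⟩).card = cnt (f m') (f y.1) v := by
    intro q v
    have h1 : Quotient.mk (f m') '' {w | (f q.1) v w} =
        ((S ⟨q, Quotient.mk (f q.1) v⟩ : Finset (Quotient (f m'))) : Set (Quotient (f m'))) := by
      ext c
      simp only [Set.mem_image, Set.mem_ofPred_eq, Finset.mem_coe, S, Finset.mem_filter,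
        Finset.mem_univ, true_and]
      constructor
      · rintro ⟨w, hw, rfl⟩
        exact ⟨w, Quotient.sound ((f q.1).symm hw), rfl⟩
      · rintro ⟨w, hw, rfl⟩
        exact ⟨w, (f q.1).symm (Quotient.exact hw), rfl⟩
    unfold cnt ncl
    rw [h1, Set.ncard_coe_finset]
  have hinfy : ∀ y, m < y → y ≤ b → ¬ m' ≤ y → f m' ⊓ f y = f m := by
    intro y hy hyb hny
    have e1 : m' ⊓ y = m := by
      rcases hm.eq_or_eq (le_inf hm.le hy.le) inf_le_left with e | e
      · exact e
      · exact absurd (inf_eq_left.1 e) hny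
    rw [← h.inf m' y am' mb (am.trans hy.le) hyb, e1]
  have hcnty : ∀ y, m < y → y ≤ b → ¬ m' ≤ y → ∀ v, cnt (f m') (f y) v * n m = n y := by
    intro y hy hyb hny v
    rw [← cnt_inf, hinfy y hy hyb hny]
    exact h.ratio am hy.le hyb v
  have hB : ∀ i, ∀ c ∈ S i, ((B i c).card : ℝ) ≤ δ0 * Fintype.card (ZMod Q) := by
    intro i c _
    have e2 : (B i c).card = (Finset.univ.filter (fun z : ZMod Q => z ∉ Keep)).card := by
      refine Finset.card_bij (fun z _ => lam (wt i c) + z) ?_ ?_ ?_
      · intro z hz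
        rw [Finset.mem_filter] at hz ⊢
        exact ⟨Finset.mem_univ _, hz.2⟩
      · intro z _ z' _ hh
        exact add_left_cancel hh
      · intro z hz
        refine ⟨-lam (wt i c) + z, ?_, ?_⟩
        · rw [Finset.mem_filter] at hz ⊢
          refine ⟨Finset.mem_univ _, ?_⟩
          rw [add_neg_cancel_left]
          exact hz.2
        · rw [add_neg_cancel_left]
    have e3 : (Finset.univ.filter (fun z : ZMod Q => z ∈ Keep)) = Keep := by
      ext z
      simp
    have e4 := Finset.card_filter_add_card_filter_not (s := (Finset.univ : Finset (ZMod Q))) (fun z : ZMod Q => z ∈ Keep)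
    rw [e3, hKeep, Finset.card_univ, ZMod.card] at e4
    rw [e2, ZMod.card]
    have e5 : (k : ℝ) + ((Finset.univ.filter (fun z : ZMod Q => z ∉ Keep)).card : ℝ) = Q := by
      exact_mod_cast e4
    have e6 : (n m' : ℝ) = Q * n m := by exact_mod_cast hQm.symm
    have e7 : (0 : ℝ) < n m := by exact_mod_cast pm
    rw [e6] at hk'
    have e8 : (1 - δ0) * Q ≤ k := by
      by_contra hcon
      push Not at hcon
      have := mul_lt_mul_of_pos_right hcon e7
      linarith [mul_assoc (1 - δ0) (Q : ℝ) (n m : ℝ)]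
    linarith
  -- the number of classes
  have hWb : Nat.card W = n b := by
    rw [← h.card b ab le_rfl w0]
    have e1 : {u | f b w0 u} = Set.univ := by
      ext u
      simp only [Set.mem_ofPred_eq, Set.mem_univ, iff_true]
      exact h.top w0 u
    rw [e1, Set.ncard_univ]
  have hpa : (0 : ℝ) < n a := by exact_mod_cast h.pos le_rfl ab
  have hpb : (0 : ℝ) < n b := by exact_mod_cast h.pos ab le_rfl
  have hquo : ∀ y, a ≤ y → y ≤ b → (Nat.card (Quotient (f y)) : ℝ) ≤ (n b : ℝ) / n a := by
    intro y ay yb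
    have e1 : (Set.univ : Set W).ncard = ncl (f y) Set.univ * n y :=
      thin_ncard_eq (f y) Set.univ (n y) (fun _ _ _ _ => Set.mem_univ _) (h.card y ay yb)
    have e2 : ncl (f y) Set.univ = Nat.card (Quotient (f y)) := by
      unfold ncl
      rw [Set.image_univ_of_surjective Quotient.mk_surjective, Set.ncard_univ]
    rw [e2, Set.ncard_univ, hWb] at e1
    have e3 : n a ≤ n y := by
      rw [← h.card a le_rfl ab w0, ← h.card y ay yb w0]
      exact Set.ncard_le_ncard (fun u hu => h.mono le_rfl ay yb hu) (Set.toFinite _)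
    rw [le_div_iff₀ hpa]
    have e4 : Nat.card (Quotient (f y)) * n a ≤ n b := by
      rw [e1]
      exact Nat.mul_le_mul_left _ e3
    exact_mod_cast e4
  have hsum : ∑ i : ι, (1 / 2 : ℝ) ^ (S i).card < 1 := by
    rcases isEmpty_or_nonempty ι with hemp | hne
    · rw [Finset.univ_eq_empty, Finset.sum_empty]
      exact one_pos
    · have hcardι : (Fintype.card ι : ℝ) ≤ (Nat.card L : ℝ) * ((n b : ℝ) / n a) := by
        haveI : Fintype {y : L // m < y ∧ y ≤ b ∧ ¬ m' ≤ y} := Fintype.ofFinite _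
        have e1 : Fintype.card ι = ∑ y : {y : L // m < y ∧ y ≤ b ∧ ¬ m' ≤ y}, Nat.card (Quotient (f y.1)) := by
          rw [← Nat.card_eq_fintype_card, hι, Nat.card_sigma]
        rw [e1]
        push_cast
        calc ∑ y : {y : L // m < y ∧ y ≤ b ∧ ¬ m' ≤ y}, (Nat.card (Quotient (f y.1)) : ℝ)
            ≤ ∑ _y : {y : L // m < y ∧ y ≤ b ∧ ¬ m' ≤ y}, ((n b : ℝ) / n a) :=
              Finset.sum_le_sum (fun y _ => hquo y.1 (am.trans y.2.1.le) y.2.2.1)
          _ = (Fintype.card {y : L // m < y ∧ y ≤ b ∧ ¬ m' ≤ y} : ℝ) * ((n b : ℝ) / n a) := by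
              rw [Finset.sum_const, Finset.card_univ, nsmul_eq_mul]
          _ ≤ (Nat.card L : ℝ) * ((n b : ℝ) / n a) := by
              refine mul_le_mul_of_nonneg_right ?_ (by positivity)
              rw [← Nat.card_eq_fintype_card]
              exact_mod_cast Nat.card_le_card_of_injective _ Subtype.val_injective
      have hpos : (0 : ℝ) < Fintype.card ι := by exact_mod_cast Fintype.card_pos
      have hterm : ∀ i : ι, (1 / 2 : ℝ) ^ (S i).card < 1 / Fintype.card ι := by
        rintro ⟨q, Y⟩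
        induction Y using Quotient.inductionOn with
        | h v =>
          have e1 := hbig q.1 q.2.1 q.2.2.1 (S ⟨q, Quotient.mk (f q.1) v⟩).card (by
            rw [hScard q v]
            exact hcnty q.1 q.2.1 q.2.2.1 q.2.2.2 v)
          rw [lt_div_iff₀ hpos, mul_comm]
          refine lt_of_le_of_lt ?_ e1
          exact mul_le_mul_of_nonneg_right hcardι (by positivity)
      calc ∑ i : ι, (1 / 2 : ℝ) ^ (S i).card < ∑ _i : ι, (1 : ℝ) / Fintype.card ι :=
            Finset.sum_lt_sum_of_nonempty Finset.univ_nonempty (fun i _ => hterm i)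
        _ = 1 := by
            rw [Finset.sum_const, Finset.card_univ, nsmul_eq_mul]
            field_simp
  obtain ⟨g, hg⟩ := select S B δ0 δ h0 h1 (h0.trans_le hδ) hB h4 hsum
  set D : Set W := {w | lam w + g (Quotient.mk (f m') w) ∈ Keep} with hD
  have hDm : ∀ v ∈ D, ∀ w, f m v w → w ∈ D := by
    intro v hv w hvw
    have e1 : f m' v w := hmm hvw
    have e2 : Quotient.mk (f m') w = Quotient.mk (f m') v := Quotient.sound ((f m').symm' e1)
    have e3 : lam w = lam v := ((hlam v w e1).1 hvw).symm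
    show lam w + g (Quotient.mk (f m') w) ∈ Keep
    rw [e2, e3]
    exact hv
  have hF2 : ∀ v, ncl (f m) {u | u ∈ D ∧ f m' v u} = k := by
    intro v
    rw [← hKeep]
    exact thin_keep hlam hQc Keep g v
  have hF2n : ∀ v, ∃ u ∈ D, f m' v u := by
    intro v
    by_contra hcon
    push Not at hcon
    have e1 : {u | u ∈ D ∧ f m' v u} = ∅ := by
      ext u
      simp only [Set.mem_ofPred_eq, Set.mem_empty_iff_false, iff_false, not_and]
      exact hcon u
    have e2 := hF2 v
    rw [e1] at e2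
    simp only [ncl, Set.image_empty, Set.ncard_empty] at e2
    omega
  have key : ∀ y, m < y → y ≤ b → ∀ w, (1 - δ) * n y ≤ ({u | u ∈ D ∧ f y w u}.ncard : ℝ) := by
    intro y hy hyb w
    have hmy : f m ≤ f y := h.mono am hy.le hyb
    have e1 : {u | u ∈ D ∧ f y w u}.ncard = ncl (f m) {u | u ∈ D ∧ f y w u} * n m := by
      refine thin_ncard_eq (f m) _ (n m) ?_ (h.card m am mb')
      rintro v ⟨hv1, hv2⟩ u hvu
      exact ⟨hDm v hv1 u hvu, (f y).trans' hv2 (hmy hvu)⟩
    have e7 : (0 : ℝ) < n m := by exact_mod_cast pm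
    rw [e1]
    push_cast
    by_cases hmy' : m' ≤ y
    · have hm'y : f m' ≤ f y := h.mono am' hmy' hyb
      have e2 := ncl_fiber_ge hmm {u | u ∈ D ∧ f y w u} {u | u ∈ D ∧ f y w u} subset_rfl (k : ℝ)
        (Nat.cast_nonneg _) (by
          rintro v ⟨_, hv2⟩
          have e3 : {u | u ∈ D ∧ f y w u} ∩ {u | f m' v u} = {u | u ∈ D ∧ f m' v u} := by
            ext u
            simp only [Set.mem_inter_iff, Set.mem_ofPred_eq]
            constructor
            · rintro ⟨⟨h5, _⟩, h6⟩
              exact ⟨h5, h6⟩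
            · rintro ⟨h5, h6⟩
              exact ⟨⟨h5, (f y).trans' hv2 (hm'y h6)⟩, h6⟩
          rw [e3, hF2 v])
      have e4 : cnt (f m') (f y) w ≤ ncl (f m') {u | u ∈ D ∧ f y w u} := by
        refine ncl_le_rel (f m') (f m') _ _ (fun v u => f m' v u) ?_ ?_
        · intro v hv
          obtain ⟨u, hu, hvu⟩ := hF2n v
          exact ⟨u, ⟨hu, (f y).trans' hv (hm'y hvu)⟩, hvu⟩
        · intro v _ v' _ u _ u' _ h5 h6 h7
          exact (f m').trans' h5 ((f m').trans' h7 ((f m').symm' h6))
      have e5 : (cnt (f m') (f y) w : ℝ) * n m' = n y := by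
        exact_mod_cast h.ratio am' hmy' hyb w
      have e6 : (cnt (f m') (f y) w : ℝ) ≤ ncl (f m') {u | u ∈ D ∧ f y w u} := by exact_mod_cast e4
      calc (1 - δ) * (n y : ℝ) ≤ (1 - δ0) * n y :=
            mul_le_mul_of_nonneg_right (by linarith) (Nat.cast_nonneg _)
        _ = cnt (f m') (f y) w * ((1 - δ0) * n m') := by rw [← e5]; ring
        _ ≤ cnt (f m') (f y) w * ((k : ℝ) * n m) := mul_le_mul_of_nonneg_left hk' (Nat.cast_nonneg _)
        _ = (cnt (f m') (f y) w * (k : ℝ)) * n m := by ring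
        _ ≤ (ncl (f m') {u | u ∈ D ∧ f y w u} * (k : ℝ)) * n m :=
            mul_le_mul_of_nonneg_right (mul_le_mul_of_nonneg_right e6 (Nat.cast_nonneg _)) e7.le
        _ ≤ _ := mul_le_mul_of_nonneg_right e2 e7.le
    · have e2 : ncl (f m) {u | u ∈ D ∧ f y w u} = ncl (f m') {u | u ∈ D ∧ f y w u} := by
        apply ncl_congr
        rintro v ⟨_, hv⟩ u ⟨_, hu⟩
        rw [← hinfy y hy hyb hmy']
        constructor
        · intro hh
          exact hh.1
        · intro hh
          exact ⟨hh, (f y).trans' ((f y).symm' hv) hu⟩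
      have e3 := hg ⟨⟨y, hy, hyb, hmy'⟩, Quotient.mk (f y) w⟩
      have e4 : (S ⟨⟨y, hy, hyb, hmy'⟩, Quotient.mk (f y) w⟩).card = cnt (f m') (f y) w :=
        hScard ⟨y, hy, hyb, hmy'⟩ w
      set i : ι := ⟨⟨y, hy, hyb, hmy'⟩, Quotient.mk (f y) w⟩ with hi
      have e5 := Finset.card_filter_add_card_filter_not (s := S i) (fun c => g c ∈ B i c)
      have e6 : ((S i).filter (fun c => ¬ g c ∈ B i c)).card ≤ ncl (f m') {u | u ∈ D ∧ f y w u} := by
        unfold ncl
        rw [← Set.ncard_coe_finset]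
        refine Set.ncard_le_ncard ?_ (Set.toFinite _)
        intro c hc
        rw [Finset.mem_coe, Finset.mem_filter] at hc
        obtain ⟨hc1, hc2⟩ := hc
        obtain ⟨h5, h6⟩ := hwt i c (Finset.mem_filter.1 hc1).2
        refine ⟨wt i c, ⟨?_, (f y).symm' (Quotient.exact h5)⟩, h6⟩
        by_contra hcon
        apply hc2
        simp only [B]
        rw [Finset.mem_filter]
        refine ⟨Finset.mem_univ _, ?_⟩
        intro hcon2
        apply hcon
        show lam (wt i c) + g (Quotient.mk (f m') (wt i c)) ∈ Keep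
        rw [h6]
        exact hcon2
      have e3' : (((S i).filter (fun c => g c ∈ B i c)).card : ℝ) ≤ δ * cnt (f m') (f y) w := by
        rw [← e4]
        convert e3
      rw [e4] at e5
      have e8 : (cnt (f m') (f y) w : ℝ) * n m = n y := by
        exact_mod_cast hcnty y hy hyb hmy' w
      have e9 : (((S i).filter (fun c => g c ∈ B i c)).card : ℝ) +
          (((S i).filter (fun c => ¬ g c ∈ B i c)).card : ℝ) = cnt (f m') (f y) w := by
        exact_mod_cast e5
      have e10 : (((S i).filter (fun c => ¬ g c ∈ B i c)).card : ℝ) ≤ ncl (f m') {u | u ∈ D ∧ f y w u} := by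
        exact_mod_cast e6
      rw [e2, ← e8, ← mul_assoc]
      refine mul_le_mul_of_nonneg_right ?_ e7.le
      have e11 : (1 - δ) * (cnt (f m') (f y) w : ℝ) = cnt (f m') (f y) w - δ * cnt (f m') (f y) w := by ring
      rw [e11]
      linarith
  refine ⟨D, ⟨hDm, ?_⟩, fun w => (hF2 w).le, ?_⟩
  · intro y hmy hyb w hw
    rcases hmy.eq_or_lt with e | e
    · subst e
      have e1 : {u | u ∈ D ∧ f m w u} = {u | f m w u} := by
        ext u
        simp only [Set.mem_ofPred_eq]
        exact ⟨fun hh => hh.2, fun hh => ⟨hDm w hw u hh, hh⟩⟩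
      rw [e1, h.card m am mb' w]
      have e2 : (0 : ℝ) ≤ n m := Nat.cast_nonneg _
      nlinarith
    · exact key y e hyb w
  · intro y hy hyb w
    by_contra hcon
    push Not at hcon
    have e1 : {u | u ∈ D ∧ f y w u} = ∅ := by
      ext u
      simp only [Set.mem_ofPred_eq, Set.mem_empty_iff_false, iff_false, not_and]
      exact hcon u
    have e2 := key y hy hyb w
    rw [e1, Set.ncard_empty, Nat.cast_zero] at e2
    have e3 : (0 : ℝ) < n y := by exact_mod_cast h.pos (am.trans hy.le) hyb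
    nlinarith

end H41.SK
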