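import Pool.Agent.H41.SK.Mul
import Pool.Agent.H41.SK.Thin
import Pool.Agent.H41.SK.LabE
import Pool.Agent.H41.SK.LabW
import Pool.Agent.H41.SK.DFull
import Pool.Agent.H41.SK.Fb
import Pool.Agent.H41.SK.Sum
import Pool.Agent.H41.SK.InfS
import Pool.Agent.H41.SK.FinE
import Pool.Agent.H41.NU.Core

/-! # SK.Step : adding a block to a system -/

namespace H41.SK

open H41.NU

theorem FullD.weaken {L W : Type} [Lattice L] {b : L} {f : L → Setoid W} {n : L → ℕ} {z : L} {D : Set W} {δ δ' : ℝ}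
    (h : FullD b f n z D δ) (hd : δ ≤ δ') : FullD b f n z D δ' := by
  refine ⟨h.1, fun y h1 h2 w hw => le_trans ?_ (h.2 y h1 h2 w hw)⟩
  exact mul_le_mul_of_nonneg_right (by linarith) (Nat.cast_nonneg _)

theorem step {L W : Type} [Lattice L] [Finite L] [Finite W] [Nonempty W] {r : L → ℝ} (hr : Val Set.univ r)
    {U : Set L} {a b : L} {C : Set L} (hc : Ctx U a b C) {t ε ε1 δ0 : ℝ} {E : L → Set (L → ℕ)}
    (hS : Sys U r t ε E) {f : L → Setoid W} {n : L → ℕ} (hB : Blk a b f n) (hn : Near a b r t ε1 n)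
    (hlt : ∀ x y, a ≤ x → x < y → y ≤ b → n x < n y)
    (hsz : ∀ z ∈ JT C b, ∀ g ∈ E z.2, fib E z.1 z.2 g * n z.1 ≤ n z.2)
    (Θ : Set (L × L)) (hΘ : ∀ z ∈ Θ, a ≤ z.1 ∧ z.1 ∉ U ∧ z.1 ⋖ z.2 ∧ z.2 ≤ b) (kk : L × L → ℕ)
    (hk0 : ∀ z ∈ Θ, 0 < kk z) (hk1 : ∀ z ∈ Θ, kk z * n z.1 ≤ n z.2)
    (hk2 : ∀ z ∈ Θ, (1 - δ0) * n z.2 ≤ (kk z : ℝ) * n z.1)
    (h0 : 0 < δ0) (h01 : δ0 ≤ 1) (hδ : δ0 ≤ ε) (h4 : δ0 ^ ε ≤ 1 / 4)
    (hbig : ∀ m y, a ≤ m → m < y → y ≤ b → ∀ j : ℕ, j * n m = n y →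
      (Nat.card L : ℝ) * ((n b : ℝ) / n a) * (1 / 2) ^ j < 1)
    (hε1 : 0 ≤ ε1) (hε1' : ε1 ≤ ε)
    (hsmall : ((Nat.card L : ℝ) + Nat.card (L × L)) * (2 * ε) ≤ 1 / 2) :
    ∃ E' : L → Set (L → ℕ), Sys (U ∪ Set.Icc a b) r t ((2 + 4 * ((Nat.card L : ℝ) + Nat.card (L × L))) * ε) E' ∧
      (∀ x ∈ U, E' x = E x) ∧ ∀ z ∈ Θ, ∀ g ∈ E' z.2, fib E' z.1 z.2 g ≤ kk z := by
  classical
  set K : ℝ := (Nat.card L : ℝ) + Nat.card (L × L) with hK
  have : Nonempty L := ⟨a⟩
  have hL1 : (1 : ℝ) ≤ Nat.card L := by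
    have : 0 < Nat.card L := Nat.card_pos
    exact_mod_cast this
  have hLL : (0 : ℝ) ≤ Nat.card (L × L) := Nat.cast_nonneg _
  have hK1 : 1 ≤ K := by linarith
  have hε : 0 < ε := lt_of_lt_of_le h0 hδ
  have hε8 : ε < 1 := by nlinarith
  have hpos : ∀ x, a ≤ x → x ≤ b → 0 < n x := fun x h1 h2 => hB.pos h1 h2
  have bU : b ∈ U := (hc.CU b hc.bC).1
  -- facts on `JT`
  have hJ : ∀ z ∈ JT C b, a ≤ z.1 ∧ z.1 < z.2 ∧ z.2 ≤ b ∧ z.1 ∈ U ∧ z.2 ∈ U := by
    rintro z ⟨⟨c, cC, cz⟩, h1, h2, _⟩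
    obtain ⟨c1, c2, c3⟩ := hc.CU c cC
    exact ⟨c2.trans cz, h1, h2, hc.up c c1 _ cz, hc.up c c1 _ (cz.trans h1.le)⟩
  -- labels
  have hq : ∀ z ∈ JT C b, 0 < n z.2 / n z.1 := by
    intro z hz
    obtain ⟨z1, z2, z3, _, _⟩ := hJ z hz
    exact Nat.div_pos (hlt _ _ z1 z2 z3).le (hpos _ z1 (z2.le.trans z3))
  have hE : ∀ z : L × L, ∃ lam : (L → ℕ) → ℕ, z ∈ JT C b → (∀ e, lam e < n z.2 / n z.1) ∧
      ∀ e ∈ E z.1, ∀ e' ∈ E z.1, res z.2 e = res z.2 e' → lam e = lam e' → e = e' := by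
    intro z
    by_cases hz : z ∈ JT C b
    · obtain ⟨z1, z2, z3, z4, z5⟩ := hJ z hz
      obtain ⟨lam, h1, h2⟩ := exists_labE (hS.fin z.1 z4) (p := z.1) (q := z.2) (hq z hz) (by
        intro e he
        rw [Nat.le_div_iff_mul_le (hpos _ z1 (z2.le.trans z3))]
        exact hsz z hz _ (hS.map _ z4 _ z5 z2.le e he))
      exact ⟨lam, fun _ => ⟨h1, h2⟩⟩
    · exact ⟨fun _ => 0, fun h => absurd h hz⟩
  have hW : ∀ z : L × L, ∃ mu : W → ℕ, z ∈ JT C b → (∀ w, mu w < n z.2 / n z.1) ∧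
      ∀ v w, f z.2 v w → (f z.1 v w ↔ mu v = mu w) := by
    intro z
    by_cases hz : z ∈ JT C b
    · obtain ⟨z1, z2, z3, z4, z5⟩ := hJ z hz
      obtain ⟨mu, h1, h2⟩ := exists_labW (hB.mono z1 z2.le z3) _ (hq z hz) (by
        intro w
        rw [Nat.le_div_iff_mul_le (hpos _ z1 (z2.le.trans z3))]
        exact (hB.ratio z1 z2.le z3 w).le)
      exact ⟨mu, fun _ => ⟨h1, h2⟩⟩
    · exact ⟨fun _ => 0, fun h => absurd h hz⟩
  have hCd : ∀ x : L, ∃ cd : W → ℕ, ∀ v w, f x v w ↔ cd v = cd w := fun x => exists_code _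
  choose lam hlam using hE
  choose mu hmu using hW
  choose cd hcd using hCd
  have hl : Lab E C b f n lam mu := by
    refine ⟨?_, fun z hz => (hlam z hz).2, ?_, fun z hz => (hmu z hz).2⟩
    · intro z hz e
      obtain ⟨z1, z2, z3, _, _⟩ := hJ z hz
      have h1 := (hlam z hz).1 e
      rw [Nat.lt_div_iff_mul_lt' (Dvd.intro_left _ (hB.ratio z1 z2.le z3 (Classical.arbitrary W)))] at h1
      rwa [mul_comm] at h1
    · intro z hz e
      obtain ⟨z1, z2, z3, _, _⟩ := hJ z hz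
      have h1 := (hmu z hz).1 e
      rw [Nat.lt_div_iff_mul_lt' (Dvd.intro_left _ (hB.ratio z1 z2.le z3 (Classical.arbitrary W)))] at h1
      rwa [mul_comm] at h1
  have d : Data U a b C r t ε E f n lam mu cd := ⟨hc, hS, hB, hlt, hl, fun x _ _ => hcd x⟩
  -- thinning
  have hTh : ∀ z : L × L, ∃ D : Set W, z ∈ Θ → FullD b f n z.1 D (2 * ε) ∧
      (∀ w, ncl (f z.1) {u | u ∈ D ∧ f z.2 w u} ≤ kk z) ∧ ∀ y, z.1 < y → y ≤ b → ∀ w, ∃ u ∈ D, f y w u := by
    intro z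
    by_cases hz : z ∈ Θ
    · obtain ⟨z1, z2, z3, z4⟩ := hΘ z hz
      obtain ⟨D, h1, h2, h3⟩ := exists_thin hB z1 z3 z4 (kk z) (hk1 z hz) h0 h01 hδ h4 (hk2 z hz) (hk0 z hz)
        hε8 (fun y h5 h6 j hj => hbig z.1 y z1 h5 h6 j hj)
      exact ⟨D, fun _ => ⟨h1.weaken (by linarith), h2, h3⟩⟩
    · exact ⟨∅, fun h => absurd h hz⟩
  choose D hD using hTh
  set Th : Set W := {w | ∀ z ∈ Θ, w ∈ D z} with hThd
  -- the counts inside the block
  have key : ∀ p q, a ≤ p → p ∉ U → p ≤ q → q ≤ b → ∀ g ∈ newE U a b C E lam mu cd Th q,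
      ∃ w0, fib (newE U a b C E lam mu cd Th) p q g =
        ncl (f p) {w | f q w0 w ∧ w ∈ Th ∧ ∀ c ∈ C, w ∈ Dset E C b lam mu (res b g) c} ∧
        (1 - K * (2 * ε)) * n q ≤ (fib (newE U a b C E lam mu cd Th) p q g : ℝ) * n p ∧
        fib (newE U a b C E lam mu cd Th) p q g * n p ≤ n q := by
    intro p q ap pU pq qb g hg
    obtain ⟨w0, h1, h2, h3, h5⟩ := exists_point d (ap.trans pq) qb hg
    have e1 := fib_eq d ap pU pq qb h2
    refine ⟨w0, e1, ?_, ?_⟩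
    · have h6 := multi hB (ι := C ⊕ Θ) (Sum.elim (fun c => c.1) (fun z => z.1.1))
        (Sum.elim (fun c => Dset E C b lam mu (res b g) c.1) (fun z => D z.1)) (δ := 2 * ε) (by
          rintro (c | z)
          · exact ⟨(hc.CU c.1 c.2).2.1, (hc.CU c.1 c.2).2.2⟩
          · obtain ⟨z1, z2, z3, z4⟩ := hΘ z.1 z.2
            exact ⟨z1, z3.le.trans z4⟩) (by
          rintro (c | z)
          · refine dset_full d hn ?_ _ c.2
            have := Real.add_one_le_exp (-(ε + ε1))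
            linarith
          · exact (hD z.1 z.2).1) ap pq qb w0 (by
          rintro (c | z)
          · exact h3 c.1 c.2
          · obtain ⟨z1, z2, z3, z4⟩ := hΘ z.1 z.2
            simp only [Sum.elim_inr]
            by_cases hqU : q ∈ U
            · have h7 : z.1.1 < q ⊔ z.1.1 := by
                refine lt_of_le_of_ne le_sup_right (fun h => z2 ?_)
                rw [h]
                exact hc.up q hqU _ le_sup_left
              exact (hD z.1 z.2).2.2 _ h7 (sup_le qb (z3.le.trans z4)) w0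
            · exact ⟨w0, h5 hqU z.1 z.2, Setoid.refl' _ _⟩)
      have e2 : {w | f q w0 w ∧ ∀ i : C ⊕ Θ, w ∈ (Sum.elim (fun c : C => Dset E C b lam mu (res b g) c.1)
          (fun z : Θ => D z.1)) i} =
          {w | f q w0 w ∧ w ∈ Th ∧ ∀ c ∈ C, w ∈ Dset E C b lam mu (res b g) c} := by
        ext w
        simp only [Set.mem_ofPred_eq, Sum.forall, Sum.elim_inl, Sum.elim_inr, Subtype.forall, hThd]
        tauto
      rw [e2, ← e1] at h6
      refine le_trans ?_ h6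
      apply mul_le_mul_of_nonneg_right ?_ (Nat.cast_nonneg _)
      have h8 : (Nat.card (C ⊕ Θ) : ℝ) ≤ K := by
        rw [Nat.card_sum, hK]
        push_cast
        have h9 : Nat.card C ≤ Nat.card L := Nat.card_le_card_of_injective _ Subtype.val_injective
        have h10 : Nat.card Θ ≤ Nat.card (L × L) := Nat.card_le_card_of_injective _ Subtype.val_injective
        have h9' : (Nat.card C : ℝ) ≤ Nat.card L := by exact_mod_cast h9
        have h10' : (Nat.card Θ : ℝ) ≤ Nat.card (L × L) := by exact_mod_cast h10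
        linarith
      nlinarith
    · rw [e1, ← hB.ratio ap pq qb w0]
      apply Nat.mul_le_mul_right
      apply ncl_mono
      exact fun w hw => hw.1
  have hs0 : 0 ≤ K * (2 * ε) := by positivity
  have keylo : ∀ p q, a ≤ p → p ∉ U → p ≤ q → q ≤ b → ∀ g ∈ newE U a b C E lam mu cd Th q,
      Real.exp (t * (r q - r p) - (ε1 + 4 * K * ε)) ≤ fib (newE U a b C E lam mu cd Th) p q g := by
    intro p q ap pU pq qb g hg
    obtain ⟨w0, -, h1, -⟩ := key p q ap pU pq qb g hg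
    have h2 := (hn p q ap pq qb).1
    have h3 := core_real hs0 hsmall
    have hp0 : (0 : ℝ) < n p := by exact_mod_cast hpos p ap (pq.trans qb)
    have h5 : Real.exp (t * (r q - r p) - (ε1 + 4 * K * ε)) * n p ≤
        (fib (newE U a b C E lam mu cd Th) p q g : ℝ) * n p := by
      refine le_trans ?_ h1
      have e1 : t * (r q - r p) - (ε1 + 4 * K * ε) = -(2 * (K * (2 * ε))) + (t * (r q - r p) - ε1) := by ring
      rw [e1, Real.exp_add, mul_assoc]
      have h6 : (0 : ℝ) ≤ 1 - K * (2 * ε) := le_trans (Real.exp_pos _).le h3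
      exact mul_le_mul h3 h2 (by positivity) h6
    exact le_of_mul_le_mul_right h5 hp0
  have keyhi : ∀ p q, a ≤ p → p ∉ U → p ≤ q → q ≤ b → ∀ g ∈ newE U a b C E lam mu cd Th q,
      (fib (newE U a b C E lam mu cd Th) p q g : ℝ) ≤ Real.exp (t * (r q - r p) + ε1) := by
    intro p q ap pU pq qb g hg
    obtain ⟨w0, -, -, h1⟩ := key p q ap pU pq qb g hg
    have h2 := (hn p q ap pq qb).2
    have hp0 : (0 : ℝ) < n p := by exact_mod_cast hpos p ap (pq.trans qb)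
    have h3 : (fib (newE U a b C E lam mu cd Th) p q g : ℝ) * n p ≤ Real.exp (t * (r q - r p) + ε1) * n p := by
      refine le_trans ?_ h2
      exact_mod_cast h1
    exact le_of_mul_le_mul_right h3 hp0
  have hEU : ∀ x ∈ U, newE U a b C E lam mu cd Th x = E x := fun x hx => newE_of_mem hx
  have hfibU : ∀ p ∈ U, ∀ q g, fib (newE U a b C E lam mu cd Th) p q g = fib E p q g := by
    intro p hp q g
    unfold fib
    rw [hEU p hp]
  have hmid : ∀ q, a ≤ q → q ∈ U → a ≤ q ⊓ b ∧ q ⊓ b ∈ U := by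
    intro q aq hq
    obtain ⟨c, cC, cq⟩ := hc.cov q hq aq
    obtain ⟨c1, c2, c3⟩ := hc.CU c cC
    exact ⟨le_inf aq hc.ab, hc.up c c1 _ (le_inf cq c3)⟩
  set ε' : ℝ := (2 + 4 * K) * ε with hε'
  have he1 : ε ≤ ε' := by rw [hε']; nlinarith
  have he2 : ε1 + 4 * K * ε ≤ ε' := by rw [hε']; nlinarith
  have he3 : ε + (ε1 + 4 * K * ε) ≤ ε' := by rw [hε']; nlinarith
  have he4 : ε + ε1 ≤ ε' := by rw [hε']; nlinarith
  have hlo : ∀ p ∈ U ∪ Set.Icc a b, ∀ q ∈ U ∪ Set.Icc a b, p ≤ q → ∀ g ∈ newE U a b C E lam mu cd Th q,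
      Real.exp (t * (r q - r p) - ε') ≤ fib (newE U a b C E lam mu cd Th) p q g := by
    intro p hp q hq pq g hg
    by_cases pU : p ∈ U
    · have qU := hc.up p pU q pq
      rw [hfibU p pU]
      rw [hEU q qU] at hg
      exact (Real.exp_le_exp.2 (by linarith)).trans (hS.lo p pU q qU pq g hg)
    · have hpI : p ∈ Set.Icc a b := hp.resolve_left pU
      rcases hc.cov2 q (hpI.1.trans pq) with qb | qU
      · exact (Real.exp_le_exp.2 (by linarith)).trans (keylo p q hpI.1 pU pq qb g hg)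
      · obtain ⟨h1, h2⟩ := hmid q (hpI.1.trans pq) qU
        have pu : p ≤ q ⊓ b := le_inf pq hpI.2
        have h3 := fib_ge (E := newE U a b C E lam mu cd Th) (k := Real.exp (t * (r (q ⊓ b) - r p) - (ε1 + 4 * K * ε)))
          pu inf_le_left (newE_fin d (Or.inr hpI)) (newE_fin d (Or.inl h2)) (fun e he => newE_map d (Or.inr hpI) pu he)
          (g := g) (Real.exp_pos _).le (fun e' he' _ => keylo p (q ⊓ b) hpI.1 pU pu inf_le_right e' he')
        refine le_trans ?_ h3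
        rw [hfibU _ h2]
        rw [hEU q qU] at hg
        have h5 := hS.lo (q ⊓ b) h2 q qU inf_le_left g hg
        refine le_trans ?_ (mul_le_mul_of_nonneg_right h5 (Real.exp_pos _).le)
        rw [← Real.exp_add]
        apply Real.exp_le_exp.2
        linarith [mul_sub t (r q) (r p), mul_sub t (r q) (r (q ⊓ b)), mul_sub t (r (q ⊓ b)) (r p)]
  have hhi : ∀ p ∈ U ∪ Set.Icc a b, ∀ q ∈ U ∪ Set.Icc a b, p ≤ q → ∀ g ∈ newE U a b C E lam mu cd Th q,
      (fib (newE U a b C E lam mu cd Th) p q g : ℝ) ≤ Real.exp (t * (r q - r p) + ε') := by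
    intro p hp q hq pq g hg
    by_cases pU : p ∈ U
    · have qU := hc.up p pU q pq
      rw [hfibU p pU]
      rw [hEU q qU] at hg
      exact (hS.hi p pU q qU pq g hg).trans (Real.exp_le_exp.2 (by linarith))
    · have hpI : p ∈ Set.Icc a b := hp.resolve_left pU
      rcases hc.cov2 q (hpI.1.trans pq) with qb | qU
      · exact (keyhi p q hpI.1 pU pq qb g hg).trans (Real.exp_le_exp.2 (by linarith))
      · obtain ⟨h1, h2⟩ := hmid q (hpI.1.trans pq) qU
        have pu : p ≤ q ⊓ b := le_inf pq hpI.2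
        have h3 := fib_le (E := newE U a b C E lam mu cd Th) (k := Real.exp (t * (r (q ⊓ b) - r p) + ε1))
          pu inf_le_left (newE_fin d (Or.inr hpI)) (newE_fin d (Or.inl h2)) (fun e he => newE_map d (Or.inr hpI) pu he)
          (g := g) (fun e' he' _ => keyhi p (q ⊓ b) hpI.1 pU pu inf_le_right e' he')
        refine h3.trans ?_
        rw [hfibU _ h2]
        rw [hEU q qU] at hg
        have h5 := hS.hi (q ⊓ b) h2 q qU inf_le_left g hg
        refine (mul_le_mul_of_nonneg_right h5 (Real.exp_pos _).le).trans ?_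
        rw [← Real.exp_add]
        apply Real.exp_le_exp.2
        linarith [mul_sub t (r q) (r p), mul_sub t (r q) (r (q ⊓ b)), mul_sub t (r (q ⊓ b)) (r p)]
  refine ⟨newE U a b C E lam mu cd Th, ⟨fun x hx => newE_fin d hx, ?_, fun x _ e he => newE_supp d he,
    fun x hx y _ hxy e he => newE_map d hx hxy he, fun x _ y _ hxy e he e' he' h1 h2 =>
      newE_inf hr d x y hxy he he' h1 h2, hlo, hhi⟩, hEU, ?_⟩
  · intro x hx
    by_cases xU : x ∈ U
    · rw [hEU x xU]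
      exact hS.ne x xU
    · have hxI : x ∈ Set.Icc a b := hx.resolve_left xU
      obtain ⟨S, hSb⟩ := hS.ne b bU
      have h1 := hlo x hx b (Or.inl bU) hxI.2 S (by rw [hEU b bU]; exact hSb)
      have h2 : (0 : ℝ) < fib (newE U a b C E lam mu cd Th) x b S := lt_of_lt_of_le (Real.exp_pos _) h1
      have h3 : fib (newE U a b C E lam mu cd Th) x b S ≠ 0 := by
        intro h
        rw [h] at h2
        simp at h2
      by_contra hne
      rw [Set.not_nonempty_iff_eq_empty] at hne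
      apply h3
      unfold fib
      rw [hne]
      simp
  · intro z hz g hg
    obtain ⟨z1, z2, z3, z4⟩ := hΘ z hz
    obtain ⟨w0, h1, -, -⟩ := key z.1 z.2 z1 z2 z3.le z4 g hg
    rw [h1]
    refine le_trans (ncl_mono _ ?_) ((hD z hz).2.1 w0)
    rintro w ⟨h5, h6, -⟩
    exact ⟨h6 z hz, h5⟩

end H41.SK
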